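import Pool.Agent.W689.Mk.Tube

set_option autoImplicit false

open Set Filter Topology Metric

namespace Pool.Agent.W689.Mk

section
variable {X E : Type} [TopologicalSpace X] [T2Space X] [NormedAddCommGroup E] [NormedSpace ℝ E]
  {dev : X → E}

/-- `x` and `y` are joined by a geodesic -/
def Joined (dev : X → E) (x y : X) : Prop :=
  ∃ (v : E) (c : ℝ → X), ContinuousOn c (Icc 0 1) ∧ c 0 = x ∧ c 1 = y ∧
    ∀ t ∈ Icc (0 : ℝ) 1, dev (c t) = dev x + t • v

theorem Joined.ex (hloc : IsLocalHomeomorph dev) {x y : X} (h : Joined dev x y) :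
    ∃ v, Ex dev x v y := by
  obtain ⟨v, c, hc, hc0, hc1, hcd⟩ := h
  obtain ⟨z, hz⟩ := Geod.ex hloc (x := x) (v := v) ⟨c, hc, hc0, hcd⟩
  refine ⟨v, ?_⟩
  have hzy : z = y := by
    obtain ⟨U, σ, h1, h2, h3, h4, h5⟩ := hz
    have hm : ∀ t ∈ Icc (0 : ℝ) 1, dev x + t • v ∈ U := by
      intro t ht
      have := h1.convex h2 h4 (a := 1 - t) (b := t) (by linarith [ht.2]) ht.1 (by ring)
      convert this using 1
      rw [smul_add, ← add_assoc, ← add_smul]
      simp
    have hσc : ContinuousOn (fun t : ℝ => σ (dev x + t • v)) (Icc 0 1) :=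
      h1.cont.comp (continuous_const.add (continuous_id.smul continuous_const)).continuousOn hm
    have key := (T2Space.isSeparatedMap dev).eqOn_of_comp_eqOn hloc.isLocallyInjective
      isPreconnected_Icc hσc hc
      (fun t ht => by
        simp only [Function.comp_apply]
        rw [h1.inv _ (hm t ht), hcd t ht])
      (show (0 : ℝ) ∈ Icc (0 : ℝ) 1 from ⟨le_rfl, zero_le_one⟩)
      (by simp only [zero_smul, add_zero]; rw [h3, hc0])
    have h6 := key (show (1 : ℝ) ∈ Icc (0 : ℝ) 1 from ⟨zero_le_one, le_rfl⟩)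
    simp only [one_smul] at h6
    rw [← h5, h6, hc1]
  rwa [hzy] at hz

end

end Pool.Agent.W689.Mk
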