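import Pool.Agent.W689.Mk.Conv2

set_option autoImplicit false

open Set Filter Topology Metric

namespace Pool.Agent.W689.Mk

section star
variable {E : Type} [NormedAddCommGroup E] [NormedSpace ℝ E]

theorem kernel_convex (C : Set E) : Convex ℝ {q | q ∈ C ∧ StarConvex ℝ q C} := by
  rintro a ⟨ha, hsa⟩ b ⟨hb, hsb⟩ s s' hs hs' hss
  refine ⟨hsa hb hs hs' hss, fun q hq t t' ht ht' htt => ?_⟩
  -- the point is `t (s a + s' b) + t' q`
  rcases eq_or_lt_of_le (show 0 ≤ t * s' + t' by positivity) with h0 | h0
  · have h1 : t * s' = 0 := by have : 0 ≤ t * s' := by positivity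
                               linarith
    have h2 : t' = 0 := by have : 0 ≤ t * s' := by positivity
                           linarith
    have h3 : t = 1 := by linarith
    have h4 : s' = 0 := by rw [h3, one_mul] at h1; exact h1
    have h5 : s = 1 := by linarith
    rw [h2, h3, h4, h5]
    simpa using ha
  · have hm : (t * s' / (t * s' + t')) • b + (t' / (t * s' + t')) • q ∈ C :=
      hsb hq (by positivity) (by positivity) (by field_simp)
    have h1 := hsa hm (a := t * s) (b := t * s' + t') (by positivity) h0.le (by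
      calc t * s + (t * s' + t') = t * (s + s') + t' := by ring
        _ = 1 := by rw [hss, mul_one, htt])
    convert h1 using 1
    rw [smul_add (t * s' + t'), smul_smul, smul_smul, mul_div_cancel₀ _ h0.ne',
      mul_div_cancel₀ _ h0.ne']
    module

end star

section equi
variable {X Γ E : Type} [TopologicalSpace X] [T2Space X] [Group Γ] [MulAction Γ X]
  [NormedAddCommGroup E] [NormedSpace ℝ E] [FiniteDimensional ℝ E]
  {dev : X → E} {hol : Γ →* (E ≃ᵃ[ℝ] E)}

theorem star_univ (D : AffData X Γ E dev hol) [SecondCountableTopology X] [Nonempty X]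
    {C : Set E} {p : E} (hp : p ∈ C) (hs : StarConvex ℝ p C)
    (hinv : ∀ (γ : Γ), ∀ q ∈ C, hol γ q ∈ C) : C = univ := by
  have h1 : {q | q ∈ C ∧ StarConvex ℝ q C} = univ := by
    refine convex_univ' D (kernel_convex C) ⟨p, hp, hs⟩ ?_
    rintro γ q ⟨hq, hsq⟩
    refine ⟨hinv γ q hq, fun r hr a b ha hb hab => ?_⟩
    have h2 := hinv γ _ (hsq (hinv γ⁻¹ r hr) ha hb hab)
    have h3 : hol γ (a • q + b • hol γ⁻¹ r) = a • hol γ q + b • r := by
      have e1 : a • q + b • hol γ⁻¹ r = q + b • (hol γ⁻¹ r - q) := by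
        have : a = 1 - b := by linarith
        rw [this]; module
      have e2 : lin hol γ (b • (hol γ⁻¹ r - q)) = b • (r - hol γ q) := by
        have : lin hol γ (b • (hol γ⁻¹ r - q)) = b • lin hol γ (hol γ⁻¹ r - q) :=
          (hol γ).linear.map_smul b _
        rw [this, ← hol_sub, hol_apply_inv]
      rw [e1, hol_add, e2]
      have : a = 1 - b := by linarith
      rw [this]; module
    rwa [h3] at h2
  ext q
  refine ⟨fun _ => trivial, fun _ => ?_⟩
  have : q ∈ {q | q ∈ C ∧ StarConvex ℝ q C} := by rw [h1]; trivial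
  exact this.1

/-- if one point sees all points, the structure is complete -/
theorem visible_complete (D : AffData X Γ E dev hol) [SecondCountableTopology X]
    [PreconnectedSpace X] {x : X} (hx : ∀ y, ∃ v, Ex dev x v y) : IsHomeomorph dev := by
  have : Nonempty X := ⟨x⟩
  have hstar : StarConvex ℝ (dev x) (range dev) := by
    rintro _ ⟨y, rfl⟩ a b ha hb hab
    obtain ⟨v, hv⟩ := hx y
    have hd := hv.dev_eq
    obtain ⟨U, σ, h1, h2, h3, h4, h5⟩ := hv
    refine ⟨σ (a • dev x + b • dev y), h1.inv _ ?_⟩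
    rw [hd]
    exact h1.convex h2 h4 ha hb hab
  have huniv : range dev = univ := by
    refine star_univ D (mem_range_self x) hstar ?_
    rintro γ _ ⟨y, rfl⟩
    exact ⟨γ • y, D.equi γ y⟩
  refine homeo_of_all D.loc (x := x) fun v => ?_
  have h1 : dev x + v ∈ range dev := by rw [huniv]; trivial
  obtain ⟨y, hy⟩ := h1
  obtain ⟨w, hw⟩ := hx y
  have h2 := hw.dev_eq
  rw [hy] at h2
  have h3 : v = w := add_left_cancel h2
  rw [h3]
  exact ⟨y, hw⟩

end equi

end Pool.Agent.W689.Mk
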