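import Pool.Agent.W689.Mk.Prin

set_option autoImplicit false

open Set Filter Topology Metric

namespace Pool.Agent.W689.Mk

section
variable {X Γ E W : Type} [TopologicalSpace X] [T2Space X] [Group Γ] [MulAction Γ X]
  [NormedAddCommGroup E] [NormedSpace ℝ E] [FiniteDimensional ℝ E]
  {dev : X → E} {hol : Γ →* (E ≃ᵃ[ℝ] E)} [NormedAddCommGroup W] [NormedSpace ℝ W]

/-- a weight on the cover -/
structure Wt (Γ : Type) [Group Γ] [MulAction Γ X] (dev : X → E) (ρ : X → ℝ) : Prop where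
  ll : LL dev ρ
  nonneg : ∀ x, 0 ≤ ρ x
  supp : ∃ K : Set X, IsCompact K ∧ ∀ x, x ∉ K → ρ x = 0
  fin : ∀ x, ∃ F : Finset Γ, ∀ γ : Γ, γ ∉ F → ρ (γ • x) = 0
  sum : ∀ x, ∑' γ : Γ, ρ (γ • x) = 1

theorem exists_wt (D : AffData X Γ E dev hol) : ∃ ρ : X → ℝ, Wt Γ dev ρ := by
  obtain ⟨m, c, hc⟩ := exists_charts D (LL.const (dev := dev) (0 : E))
  obtain ⟨ρ, hρL, hρ0, hρs, hρ1, K, hK, hρK⟩ := exists_pou D c hc
  have hs : ∀ x, x ∉ K → ∑ i, ρ i x = 0 := by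
    intro x hx
    refine Finset.sum_eq_zero fun i _ => ?_
    by_contra hne
    exact hx (hρK i x hne)
  refine ⟨fun x => ∑ i, ρ i x, LL.sum _ fun i _ => hρL i, fun x => Finset.sum_nonneg fun i _ => hρ0 i x,
    ⟨K, hK, hs⟩, fun x => ?_, hρ1⟩
  obtain ⟨N, hN, F, hF⟩ := locfin D hK x
  refine ⟨F, fun γ hγ => hs _ fun h => hγ (hF x (mem_of_mem_nhds hN) γ h)⟩

/-- averages over the group -/
noncomputable def av (ρ : X → ℝ) (P : Γ → W) (x : X) : W := ∑' γ : Γ, ρ (γ • x) • P γ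

theorem av_ll (D : AffData X Γ E dev hol) {ρ : X → ℝ} (hρ : Wt Γ dev ρ) (P : Γ → W) :
    LL dev (av ρ P) := by
  obtain ⟨K, hK, hs⟩ := hρ.supp
  exact hρ.ll.tsum D hK hs P

theorem av_sum {ρ : X → ℝ} (hρ : Wt Γ dev ρ) (P : Γ → W) (x : X) :
    ∃ F : Finset Γ, av ρ P x = ∑ γ ∈ F, ρ (γ • x) • P γ ∧ ∑ γ ∈ F, ρ (γ • x) = 1 := by
  obtain ⟨F, hF⟩ := hρ.fin x
  refine ⟨F, tsum_eq_sum fun γ hγ => by rw [hF γ hγ, zero_smul], ?_⟩
  rw [← hρ.sum x]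
  exact (tsum_eq_sum fun γ hγ => hF γ hγ).symm

theorem av_mem {ρ : X → ℝ} (hρ : Wt Γ dev ρ) {C : Set W} (hC : Convex ℝ C) {P : Γ → W}
    (hP : ∀ γ, P γ ∈ C) (x : X) : av ρ P x ∈ C := by
  obtain ⟨F, h1, h2⟩ := av_sum hρ P x
  rw [h1]
  exact hC.sum_mem (fun γ _ => hρ.nonneg _) h2 (fun γ _ => hP γ)

theorem av_summable {ρ : X → ℝ} (hρ : Wt Γ dev ρ) (P : Γ → W) (x : X) :
    Summable fun γ : Γ => ρ (γ • x) • P γ := by
  obtain ⟨F, hF⟩ := hρ.fin x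
  exact summable_of_ne_finset_zero (s := F) fun γ hγ => by rw [hF γ hγ, zero_smul]

theorem av_shift {ρ : X → ℝ} (P : Γ → W) (δ : Γ) (x : X) :
    av ρ P (δ • x) = av ρ (fun γ => P (γ * δ⁻¹)) x := by
  unfold av
  rw [← Equiv.tsum_eq (Equiv.mulRight δ) (fun γ : Γ => ρ (γ • x) • P (γ * δ⁻¹))]
  refine tsum_congr fun γ => ?_
  show ρ (γ • δ • x) • P γ = ρ ((γ * δ) • x) • P (γ * δ * δ⁻¹)
  rw [mul_inv_cancel_right, smul_smul]

theorem av_lin {ρ : X → ℝ} (hρ : Wt Γ dev ρ) (v : E) (δ : Γ) (x : X) :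
    av ρ (fun γ : Γ => lin hol γ⁻¹ v) (δ • x) = lin hol δ (av ρ (fun γ : Γ => lin hol γ⁻¹ v) x) := by
  rw [av_shift]
  let A : E →L[ℝ] E := LinearMap.toContinuousLinearMap ((hol δ).linear : E →ₗ[ℝ] E)
  have hA : ∀ v, lin hol δ v = A v := fun _ => rfl
  rw [hA]
  unfold av
  rw [A.map_tsum (av_summable hρ _ x)]
  refine tsum_congr fun γ => ?_
  rw [map_smul, ← hA, ← lin_mul]
  show ρ (γ • x) • lin hol (γ * δ⁻¹)⁻¹ v = ρ (γ • x) • lin hol (δ * γ⁻¹) v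
  rw [mul_inv_rev, inv_inv]

theorem av_hol {ρ : X → ℝ} (hρ : Wt Γ dev ρ) (p : E) (δ : Γ) (x : X) :
    av ρ (fun γ : Γ => hol γ⁻¹ p) (δ • x) = hol δ (av ρ (fun γ : Γ => hol γ⁻¹ p) x) := by
  rw [av_shift]
  have h1 : ∀ v, hol δ v = hol δ 0 + lin hol δ v := fun v => by
    have := hol_add (hol := hol) δ 0 v
    rwa [zero_add] at this
  let A : E →L[ℝ] E := LinearMap.toContinuousLinearMap ((hol δ).linear : E →ₗ[ℝ] E)
  have hA : ∀ v, lin hol δ v = A v := fun _ => rfl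
  have h2 : ∀ γ : Γ, hol (γ * δ⁻¹)⁻¹ p = hol δ 0 + A (hol γ⁻¹ p) := by
    intro γ
    rw [mul_inv_rev, inv_inv, map_mul, ← hA, ← h1]
    rfl
  simp only [h2]
  rw [h1 (av ρ (fun γ : Γ => hol γ⁻¹ p) x), hA]
  unfold av
  rw [A.map_tsum (av_summable hρ _ x)]
  have h3 : ∀ γ : Γ, ρ (γ • x) • (hol δ 0 + A (hol γ⁻¹ p)) =
      ρ (γ • x) • hol δ 0 + A (ρ (γ • x) • hol γ⁻¹ p) := by
    intro γ; rw [smul_add, map_smul]
  simp only [h3]
  rw [Summable.tsum_add (av_summable hρ (fun _ => hol δ 0) x)]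
  · congr 1
    have h4 : Summable fun γ : Γ => ρ (γ • x) := by
      have := av_summable hρ (fun _ : Γ => (1 : ℝ)) x
      simpa using this
    rw [h4.tsum_smul_const, hρ.sum, one_smul]
  · have := (av_summable hρ (fun γ : Γ => hol γ⁻¹ p) x).map A A.continuous
    exact this

/-- equivariant maps give vector fields -/
theorem vf_of_map {f : X → E} (D : AffData X Γ E dev hol) (hf : LL dev f)
    (he : ∀ (γ : Γ) x, f (γ • x) = hol γ (f x)) : VF dev hol (fun x => f x - dev x) := by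
  refine ⟨hf.sub LL.dev_self, fun γ x => ?_⟩
  rw [he, D.equi, hol_sub]

/-- criterion for singular differentials -/
theorem dt_zero_of_functional {A : E →L[ℝ] E} (φ : E →L[ℝ] ℝ) (hφ : φ ≠ 0)
    (h : ∀ v, φ (v + A v) = 0) : dt A = 0 := by
  by_contra hne
  have h1 : LinearMap.det ((ContinuousLinearMap.id ℝ E + A : E →L[ℝ] E) : E →ₗ[ℝ] E) ≠ 0 := hne
  have h2 : Function.Surjective ((ContinuousLinearMap.id ℝ E + A : E →L[ℝ] E) : E →ₗ[ℝ] E) :=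
    (LinearMap.equivOfDetNeZero _ h1).surjective
  apply hφ
  ext w
  obtain ⟨v, rfl⟩ := h2 w
  exact h v

/-- the main geometric form of the principle -/
theorem principle_max (D : AffData X Γ E dev hol) [SecondCountableTopology X] [Nonempty X]
    {f : X → E} (hf : LL dev f) (he : ∀ (γ : Γ) x, f (γ • x) = hol γ (f x))
    (hmax : ∀ x, ∃ φ : E →L[ℝ] ℝ, φ ≠ 0 ∧ ∀ᶠ y in 𝓝 x, φ (f y) ≤ φ (f x)) : False := by
  refine principle D (vf_of_map D hf he) fun U σ hσ q hq A hA => ?_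
  obtain ⟨φ, hφ, hm⟩ := hmax (σ q)
  refine dt_zero_of_functional φ hφ ?_
  have hc : ContinuousAt σ q := (hσ.cont q hq).continuousAt (hσ.isOpen.mem_nhds hq)
  have h1 : HasFDerivAt (fun q => f (σ q)) (A + ContinuousLinearMap.id ℝ E) q := by
    have h2 := hA.add (hasFDerivAt_id q)
    refine h2.congr_of_eventuallyEq ?_
    filter_upwards [hσ.isOpen.mem_nhds hq] with p hp
    simp [hσ.inv p hp]
  have h3 : HasFDerivAt (fun q => φ (f (σ q))) (φ.comp (A + ContinuousLinearMap.id ℝ E)) q :=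
    φ.hasFDerivAt.comp q h1
  have h4 : IsLocalMax (fun q => φ (f (σ q))) q := hc.eventually hm
  have h5 := h4.hasFDerivAt_eq_zero h3
  intro v
  have h6 := congrArg (fun g : E →L[ℝ] ℝ => g v) h5
  simpa [add_comm] using h6

end

end Pool.Agent.W689.Mk
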