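import Pool.Agent.W689.Mk.Flow

set_option autoImplicit false

open Set Filter Topology MeasureTheory Metric
open scoped ENNReal NNReal

namespace Pool.Agent.W689.Mk

section
variable {X E W : Type} [TopologicalSpace X] [NormedAddCommGroup E] [NormedSpace ℝ E] {dev : X → E}
  [NormedAddCommGroup W] [NormedSpace ℝ W]

theorem LL.of_local {u : X → W} (h : ∀ x, ∃ U ∈ 𝓝 x, ∃ v : X → W, LL dev v ∧ ∀ y ∈ U, u y = v y) :
    LL dev u := by
  intro x
  obtain ⟨U, hU, v, hv, huv⟩ := h x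
  obtain ⟨V, hV, L, hL, H⟩ := hv x
  refine ⟨U ∩ V, inter_mem hU hV, L, hL, fun y hy z hz => ?_⟩
  rw [huv y hy.1, huv z hz.1]
  exact H y hy.2 z hz.2

theorem LL.const (w : W) : LL dev (fun _ => w) :=
  fun x => ⟨univ, univ_mem, 0, le_rfl, fun y _ z _ => by simp⟩

theorem LL.dev_self : LL dev dev :=
  fun x => ⟨univ, univ_mem, 1, zero_le_one, fun y _ z _ => by rw [one_mul]⟩

theorem LL.add {u v : X → W} (hu : LL dev u) (hv : LL dev v) : LL dev (fun x => u x + v x) := by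
  intro x
  obtain ⟨U, hU, L, hL, H⟩ := hu x
  obtain ⟨V, hV, M, hM, H'⟩ := hv x
  refine ⟨U ∩ V, inter_mem hU hV, L + M, by positivity, fun y hy z hz => ?_⟩
  have h1 := H y hy.1 z hz.1
  have h2 := H' y hy.2 z hz.2
  have e : u y + v y - (u z + v z) = (u y - u z) + (v y - v z) := by abel
  rw [e, add_mul]
  exact (norm_add_le _ _).trans (add_le_add h1 h2)

theorem LL.neg {u : X → W} (hu : LL dev u) : LL dev (fun x => - u x) := by
  intro x
  obtain ⟨U, hU, L, hL, H⟩ := hu x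
  refine ⟨U, hU, L, hL, fun y hy z hz => ?_⟩
  have e : - u y - - u z = -(u y - u z) := by abel
  rw [e, norm_neg]
  exact H y hy z hz

theorem LL.sub {u v : X → W} (hu : LL dev u) (hv : LL dev v) : LL dev (fun x => u x - v x) := by
  have := hu.add hv.neg
  simpa [sub_eq_add_neg] using this

theorem LL.sum {ι : Type} (s : Finset ι) {u : ι → X → W} (hu : ∀ i ∈ s, LL dev (u i)) :
    LL dev (fun x => ∑ i ∈ s, u i x) := by
  classical
  induction s using Finset.induction_on with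
  | empty => simpa using LL.const (dev := dev) (0 : W)
  | insert i s hi ih =>
    have h1 := (hu i (Finset.mem_insert_self _ _)).add
      (ih fun j hj => hu j (Finset.mem_insert_of_mem hj))
    simpa [Finset.sum_insert hi] using h1

theorem LL.bdd {u : X → W} (hdev : Continuous dev) (hu : LL dev u) (x : X) :
    ∃ U ∈ 𝓝 x, ∃ B : ℝ, 0 ≤ B ∧ ∀ y ∈ U, ‖u y‖ ≤ B := by
  obtain ⟨U, hU, L, hL, H⟩ := hu x
  have h1 : {y | ‖dev y - dev x‖ < 1} ∈ 𝓝 x := by
    apply (isOpen_lt (hdev.sub continuous_const).norm continuous_const).mem_nhds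
    simp
  refine ⟨U ∩ {y | ‖dev y - dev x‖ < 1}, inter_mem hU h1, ‖u x‖ + L, by positivity, fun y hy => ?_⟩
  have h2 := H y hy.1 x (mem_of_mem_nhds hU)
  have h3 : ‖dev y - dev x‖ < 1 := hy.2
  calc ‖u y‖ = ‖u x + (u y - u x)‖ := by congr 1; abel
    _ ≤ ‖u x‖ + ‖u y - u x‖ := norm_add_le _ _
    _ ≤ ‖u x‖ + L := by nlinarith

theorem LL.smul {a : X → ℝ} {u : X → W} (hdev : Continuous dev) (ha : LL dev a) (hu : LL dev u) :
    LL dev (fun x => a x • u x) := by
  intro x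
  obtain ⟨U, hU, L, hL, H⟩ := ha x
  obtain ⟨V, hV, M, hM, H'⟩ := hu x
  obtain ⟨U1, hU1, B, hB, H1⟩ := ha.bdd hdev x
  obtain ⟨V1, hV1, B', hB', H2⟩ := hu.bdd hdev x
  refine ⟨(U ∩ V) ∩ (U1 ∩ V1), inter_mem (inter_mem hU hV) (inter_mem hU1 hV1), B * M + L * B',
    by positivity, fun y hy z hz => ?_⟩
  have h1 := H y hy.1.1 z hz.1.1
  have h2 := H' y hy.1.2 z hz.1.2
  have h3 := H1 y hy.2.1
  have h4 := H2 z hz.2.2
  have e : a y • u y - a z • u z = a y • (u y - u z) + (a y - a z) • u z := by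
    rw [smul_sub, sub_smul]; abel
  rw [e]
  refine (norm_add_le _ _).trans ?_
  rw [norm_smul, norm_smul, add_mul]
  refine add_le_add ?_ ?_
  · calc ‖a y‖ * ‖u y - u z‖ ≤ B * (M * ‖dev y - dev z‖) := by gcongr
      _ = B * M * ‖dev y - dev z‖ := by ring
  · calc ‖a y - a z‖ * ‖u z‖ ≤ (L * ‖dev y - dev z‖) * B' := by gcongr
      _ = L * B' * ‖dev y - dev z‖ := by ring

theorem LL.inv {a : X → ℝ} (hdev : Continuous dev) (ha : LL dev a) (hpos : ∀ x, 0 < a x) :
    LL dev (fun x => (a x)⁻¹) := by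
  intro x
  obtain ⟨U, hU, L, hL, H⟩ := ha x
  have hc : {y | a x / 2 < a y} ∈ 𝓝 x := by
    have h1 : {y | L * ‖dev y - dev x‖ < a x / 2} ∈ 𝓝 x := by
      apply (isOpen_lt ((hdev.sub continuous_const).norm.const_smul L)
        continuous_const).mem_nhds
      simpa using hpos x
    filter_upwards [h1, hU] with y hy hyU
    have h2 := H y hyU x (mem_of_mem_nhds hU)
    have h3 : L * ‖dev y - dev x‖ < a x / 2 := hy
    rw [Real.norm_eq_abs] at h2
    have := abs_le.1 h2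
    show a x / 2 < a y
    linarith [this.1]
  refine ⟨U ∩ {y | a x / 2 < a y}, inter_mem hU hc, L * (2 / a x) ^ 2, by positivity,
    fun y hy z hz => ?_⟩
  have hx := hpos x
  have hy2 : a x / 2 < a y := hy.2
  have hz2 : a x / 2 < a z := hz.2
  have hya := hpos y
  have hza := hpos z
  have e : (a y)⁻¹ - (a z)⁻¹ = (a z - a y) * ((a y)⁻¹ * (a z)⁻¹) := by
    field_simp
  rw [e, norm_mul]
  have h1 := H z hz.1 y hy.1
  have h2 : ‖(a y)⁻¹ * (a z)⁻¹‖ ≤ (2 / a x) ^ 2 := by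
    rw [Real.norm_eq_abs, abs_of_pos (by positivity), sq]
    have i1 : (a y)⁻¹ ≤ 2 / a x := by
      rw [inv_le_comm₀ hya (by positivity)]
      rw [inv_div]; exact hy2.le
    have i2 : (a z)⁻¹ ≤ 2 / a x := by
      rw [inv_le_comm₀ hza (by positivity)]
      rw [inv_div]; exact hz2.le
    exact mul_le_mul i1 i2 (by positivity) (by positivity)
  calc ‖a z - a y‖ * ‖(a y)⁻¹ * (a z)⁻¹‖ ≤ (L * ‖dev z - dev y‖) * (2 / a x) ^ 2 := by gcongr
    _ = L * (2 / a x) ^ 2 * ‖dev y - dev z‖ := by rw [norm_sub_rev]; ring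

/-- composition with a map which is locally Lipschitz on an open set -/
theorem LL.comp {W' : Type} [NormedAddCommGroup W'] {u : X → W} {Φ : W → W'}
    (hdev : Continuous dev) (hu : LL dev u)
    (hΦ : ∀ x, ∃ V ∈ 𝓝 (u x), ∃ L : ℝ, 0 ≤ L ∧ ∀ y, u y ∈ V → ∀ z, u z ∈ V →
      ‖Φ (u y) - Φ (u z)‖ ≤ L * ‖u y - u z‖) :
    LL dev (fun x => Φ (u x)) := by
  intro x
  obtain ⟨V, hV, M, hM, H'⟩ := hΦ x
  obtain ⟨U, hU, L, hL, H⟩ := hu x
  have hc : ContinuousAt u x := by
    rw [ContinuousAt, tendsto_iff_norm_sub_tendsto_zero]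
    have h1 : Tendsto (fun y => L * ‖dev y - dev x‖) (𝓝 x) (𝓝 0) := by
      have h2 : Tendsto (fun y => L * ‖dev y - dev x‖) (𝓝 x) (𝓝 (L * ‖dev x - dev x‖)) :=
        ((hdev.sub continuous_const).norm.const_smul L).tendsto x |>.congr fun y => rfl
      simpa using h2
    refine squeeze_zero' (Eventually.of_forall fun y => norm_nonneg _) ?_ h1
    filter_upwards [hU] with y hy
    exact H y hy x (mem_of_mem_nhds hU)
  refine ⟨U ∩ u ⁻¹' V, inter_mem hU (hc hV), M * L, by positivity, fun y hy z hz => ?_⟩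
  calc ‖Φ (u y) - Φ (u z)‖ ≤ M * ‖u y - u z‖ := H' y hy.2 z hz.2
    _ ≤ M * (L * ‖dev y - dev z‖) := by gcongr; exact H y hy.1 z hz.1
    _ = M * L * ‖dev y - dev z‖ := by ring

end

section
variable {X Γ E W : Type} [TopologicalSpace X] [T2Space X] [Group Γ] [MulAction Γ X]
  [NormedAddCommGroup E] [NormedSpace ℝ E] [FiniteDimensional ℝ E]
  {dev : X → E} {hol : Γ →* (E ≃ᵃ[ℝ] E)} [NormedAddCommGroup W] [NormedSpace ℝ W]

theorem LL.smul_group (D : AffData X Γ E dev hol) {u : X → W} (hu : LL dev u) (γ : Γ) :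
    LL dev (fun x => u (γ • x)) := by
  intro x
  obtain ⟨U, hU, L, hL, H⟩ := hu (γ • x)
  let A : E →L[ℝ] E := LinearMap.toContinuousLinearMap ((hol γ).linear : E →ₗ[ℝ] E)
  refine ⟨(fun x => γ • x) ⁻¹' U, (D.cont γ).continuousAt hU, L * ‖A‖, by positivity,
    fun y hy z hz => ?_⟩
  have h1 : dev (γ • y) - dev (γ • z) = A (dev y - dev z) := by
    rw [D.equi, D.equi, hol_sub]
    rfl
  calc ‖u (γ • y) - u (γ • z)‖ ≤ L * ‖dev (γ • y) - dev (γ • z)‖ := H _ hy _ hz
    _ ≤ L * (‖A‖ * ‖dev y - dev z‖) := by rw [h1]; gcongr; exact A.le_opNorm _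
    _ = L * ‖A‖ * ‖dev y - dev z‖ := by ring

theorem exists_cpt_nhd (D : AffData X Γ E dev hol) (x : X) : ∃ N ∈ 𝓝 x, IsCompact N := by
  obtain ⟨c, hcp, hcσ⟩ := exists_cht D.loc (LL.const (dev := dev) (0 : E)) x
  have ho := c.sec.isOpen_image D.loc (V := ball c.p c.r) isOpen_ball
    (ball_subset_ball (by linarith [c.hr]))
  refine ⟨c.σ '' closedBall c.p c.r, ?_, ?_⟩
  · refine mem_of_superset (ho.mem_nhds ⟨dev x, ?_, hcσ⟩) (image_mono ball_subset_closedBall)
    rw [hcp]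
    exact mem_ball_self c.hr
  · refine (isCompact_closedBall _ _).image_of_continuousOn (c.sec.cont.mono ?_)
    exact closedBall_subset_ball (by linarith [c.hr])

theorem locfin (D : AffData X Γ E dev hol) {K : Set X} (hK : IsCompact K) (x : X) :
    ∃ N ∈ 𝓝 x, ∃ F : Finset Γ, ∀ y ∈ N, ∀ γ : Γ, γ • y ∈ K → γ ∈ F := by
  obtain ⟨N, hN, hNc⟩ := exists_cpt_nhd D x
  have hF := D.pd (K ∪ N) (hK.union hNc)
  refine ⟨N, hN, hF.toFinset, fun y hy γ hγ => ?_⟩
  rw [Set.Finite.mem_toFinset]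
  exact ⟨y, Or.inr hy, Or.inl hγ⟩

theorem countable_group (D : AffData X Γ E dev hol) [SecondCountableTopology X] [Nonempty X] :
    Countable Γ := by
  choose N hN hNc using exists_cpt_nhd D
  obtain ⟨T, hT, hTU⟩ := TopologicalSpace.countable_cover_nhds hN
  obtain ⟨x0⟩ := ‹Nonempty X›
  have h : (univ : Set Γ) ⊆ ⋃ x ∈ T, {γ : Γ | γ • x0 ∈ N x} := by
    intro γ _
    have : γ • x0 ∈ ⋃ x ∈ T, N x := by rw [hTU]; trivial
    obtain ⟨x, hx, hγ⟩ := mem_iUnion₂.1 this
    exact mem_iUnion₂.2 ⟨x, hx, hγ⟩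
  rw [← Set.countable_univ_iff]
  refine Set.Countable.mono h (hT.biUnion fun x _ => ?_)
  refine Set.Finite.countable ((D.pd (N x ∪ {x0}) ((hNc x).union isCompact_singleton)).subset ?_)
  intro γ hγ
  exact ⟨x0, Or.inr rfl, Or.inl hγ⟩

/-- sums over the group of a function with compact support -/
theorem LL.tsum (D : AffData X Γ E dev hol) {K : Set X} (hK : IsCompact K) {ρ : X → ℝ}
    (hρ : LL dev ρ) (hs : ∀ x, x ∉ K → ρ x = 0) (P : Γ → W) :
    LL dev (fun x => ∑' γ : Γ, ρ (γ • x) • P γ) := by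
  refine LL.of_local fun x => ?_
  obtain ⟨N, hN, F, hF⟩ := locfin D hK x
  refine ⟨N, hN, fun x => ∑ γ ∈ F, ρ (γ • x) • P γ, ?_, fun y hy => ?_⟩
  · exact LL.sum F fun γ _ => (hρ.smul_group D γ).smul D.loc.continuous (LL.const _)
  · refine tsum_eq_sum fun γ hγ => ?_
    rw [hs, zero_smul]
    intro h
    exact hγ (hF y hy γ h)

/-- a partition of unity adapted to the charts -/
theorem exists_pou (D : AffData X Γ E dev hol) {Z : X → E} {m : ℕ} (c : Fin m → Cht dev Z)
    (hc : ∀ x, ∃ (γ : Γ) (i : Fin m), ∃ q ∈ ball (c i).p (c i).r, x = γ • (c i).σ q) :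
    ∃ ρ : Fin m → X → ℝ, (∀ i, LL dev (ρ i)) ∧ (∀ i x, 0 ≤ ρ i x) ∧
      (∀ i x, ρ i x ≠ 0 → x ∈ (c i).σ '' ball (c i).p (c i).r) ∧
      (∀ x, ∑' γ : Γ, ∑ i, ρ i (γ • x) = 1) ∧
      ∃ K : Set X, IsCompact K ∧ ∀ i x, ρ i x ≠ 0 → x ∈ K := by
  classical
  have in1 : ∀ i, ball (c i).p (c i).r ⊆ ball (c i).p (4 * (c i).r) :=
    fun i => ball_subset_ball (by linarith [(c i).hr])
  let g : Fin m → X → ℝ := fun i x =>
    if x ∈ (c i).σ '' ball (c i).p (4 * (c i).r) then max 0 ((c i).r - ‖dev x - (c i).p‖) else 0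
  have hg0 : ∀ i x, 0 ≤ g i x := by
    intro i x
    simp only [g]
    split_ifs
    · exact le_max_left _ _
    · exact le_rfl
  have hgs : ∀ i x, g i x ≠ 0 → x ∈ (c i).σ '' ball (c i).p (c i).r := by
    intro i x hx
    simp only [g] at hx
    split_ifs at hx with h
    · obtain ⟨q, hq, rfl⟩ := h
      refine ⟨q, ?_, rfl⟩
      rw [(c i).sec.inv q hq] at hx
      rw [mem_ball, dist_eq_norm]
      by_contra hcon
      push Not at hcon
      exact hx (max_eq_left (by linarith))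
    · exact absurd rfl hx
  have hgL : ∀ i, LL dev (g i) := by
    intro i
    have hv : LL dev (fun x => max 0 ((c i).r - ‖dev x - (c i).p‖)) := by
      intro x
      refine ⟨univ, univ_mem, 1, zero_le_one, fun y _ z _ => ?_⟩
      rw [one_mul, Real.norm_eq_abs]
      beta_reduce
      rw [max_comm 0 ((c i).r - ‖dev y - (c i).p‖), max_comm 0 ((c i).r - ‖dev z - (c i).p‖)]
      refine (abs_max_sub_max_le_abs ((c i).r - ‖dev y - (c i).p‖)
        ((c i).r - ‖dev z - (c i).p‖) 0).trans ?_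
      have e : (c i).r - ‖dev y - (c i).p‖ - ((c i).r - ‖dev z - (c i).p‖) =
          ‖dev z - (c i).p‖ - ‖dev y - (c i).p‖ := by ring
      rw [e]
      refine (abs_norm_sub_norm_le _ _).trans ?_
      rw [norm_sub_rev (dev y)]
      refine le_of_eq ?_
      congr 1
      abel
    refine LL.of_local fun x => ?_
    by_cases h : x ∈ (c i).σ '' ball (c i).p (4 * (c i).r)
    · refine ⟨_, ((c i).sec.isOpen_image D.loc isOpen_ball Subset.rfl).mem_nhds h, _, hv, ?_⟩
      intro y hy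
      simp only [g]
      rw [if_pos hy]
    · have hK : IsCompact ((c i).σ '' closedBall (c i).p (2 * (c i).r)) :=
        (isCompact_closedBall _ _).image_of_continuousOn ((c i).sec.cont.mono
          (closedBall_subset_ball (by linarith [(c i).hr])))
      refine ⟨((c i).σ '' closedBall (c i).p (2 * (c i).r))ᶜ, hK.isClosed.isOpen_compl.mem_nhds ?_,
        fun _ => 0, LL.const _, fun y hy => ?_⟩
      · rintro ⟨q, hq, rfl⟩
        exact h ⟨q, closedBall_subset_ball (by linarith [(c i).hr]) hq, rfl⟩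
      · by_contra hne
        obtain ⟨q, hq, rfl⟩ := hgs i y hne
        exact hy ⟨q, closedBall_subset_closedBall (by linarith [(c i).hr])
          (ball_subset_closedBall hq), rfl⟩
  let K : Set X := ⋃ i, (c i).σ '' closedBall (c i).p (2 * (c i).r)
  have hK : IsCompact K := by
    refine isCompact_iUnion fun i => (isCompact_closedBall _ _).image_of_continuousOn ?_
    exact (c i).sec.cont.mono (closedBall_subset_ball (by linarith [(c i).hr]))
  have hgK : ∀ i x, g i x ≠ 0 → x ∈ K := by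
    intro i x hx
    obtain ⟨q, hq, rfl⟩ := hgs i x hx
    exact mem_iUnion.2 ⟨i, q, closedBall_subset_closedBall (by linarith [(c i).hr])
          (ball_subset_closedBall hq), rfl⟩
  let G : X → ℝ := fun x => ∑ i, g i x
  have hGL : LL dev G := LL.sum _ fun i _ => hgL i
  have hGK : ∀ x, x ∉ K → G x = 0 := by
    intro x hx
    refine Finset.sum_eq_zero fun i _ => ?_
    by_contra hne
    exact hx (hgK i x hne)
  let S : X → ℝ := fun x => ∑' γ : Γ, G (γ • x)
  have hSL : LL dev S := by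
    have := LL.tsum D hK hGL hGK (fun _ => (1 : ℝ))
    simpa using this
  have hsum : ∀ x, Summable fun γ : Γ => G (γ • x) := by
    intro x
    obtain ⟨N, hN, F, hF⟩ := locfin D hK x
    refine summable_of_ne_finset_zero (s := F) fun γ hγ => ?_
    apply hGK
    intro h
    exact hγ (hF x (mem_of_mem_nhds hN) γ h)
  have hSpos : ∀ x, 0 < S x := by
    intro x
    obtain ⟨γ, i, q, hq, hx⟩ := hc x
    have h1 : 0 < G (γ⁻¹ • x) := by
      refine Finset.sum_pos' (fun j _ => hg0 j _) ⟨i, Finset.mem_univ _, ?_⟩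
      rw [hx, inv_smul_smul]
      simp only [g]
      rw [if_pos ⟨q, in1 i hq, rfl⟩, (c i).sec.inv q (in1 i hq)]
      rw [mem_ball, dist_eq_norm] at hq
      exact lt_max_of_lt_right (by linarith)
    exact (hsum x).tsum_pos (fun γ => Finset.sum_nonneg fun j _ => hg0 j _) γ⁻¹ h1
  have hSinv : ∀ (γ : Γ) x, S (γ • x) = S x := by
    intro γ x
    have h1 := Equiv.tsum_eq (Equiv.mulRight γ) (fun δ : Γ => G (δ • x))
    show ∑' δ : Γ, G (δ • γ • x) = ∑' δ : Γ, G (δ • x)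
    rw [← h1]
    refine tsum_congr fun δ => ?_
    rw [smul_smul]
    rfl
  refine ⟨fun i x => g i x * (S x)⁻¹, fun i => ?_, fun i x => ?_, fun i x hx => ?_, fun x => ?_,
    K, hK, fun i x hx => ?_⟩
  · exact (hgL i).smul D.loc.continuous (hSL.inv D.loc.continuous hSpos)
  · exact mul_nonneg (hg0 i x) (inv_nonneg.2 (hSpos x).le)
  · exact hgs i x (left_ne_zero_of_mul hx)
  · have h1 : ∀ γ : Γ, ∑ i, g i (γ • x) * (S (γ • x))⁻¹ = G (γ • x) * (S x)⁻¹ := by
      intro γ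
      rw [← Finset.sum_mul, hSinv]
    simp only [h1]
    rw [tsum_mul_right]
    exact mul_inv_cancel₀ (hSpos x).ne'
  · exact hgK i x (left_ne_zero_of_mul hx)

end

end Pool.Agent.W689.Mk
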