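import Pool.Agent.W689.Mk.Prin

set_option autoImplicit false

open Set Filter Topology MeasureTheory Metric
open scoped ENNReal NNReal

namespace Pool.Agent.W689.Mk

section
variable {X Γ E : Type} [TopologicalSpace X] [T2Space X] [SecondCountableTopology X] [Nonempty X]
  [Group Γ] [MulAction Γ X] [NormedAddCommGroup E] [NormedSpace ℝ E] [FiniteDimensional ℝ E]
  [MeasurableSpace E] [BorelSpace E]
  {dev : X → E} {hol : Γ →* (E ≃ᵃ[ℝ] E)} (lam : Measure E) [lam.IsAddHaarMeasure]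

/-- the integral identity behind the principle -/
theorem master (D : AffData X Γ E dev hol) {Z : X → E} (hZ : VF dev hol Z) :
    ∃ (m : ℕ) (c : Fin m → Cht dev Z) (ρ : Fin m → X → ℝ), (∀ i, Continuous (ρ i)) ∧
      (∀ i x, 0 ≤ ρ i x) ∧ (∀ i x, ρ i x ≠ 0 → x ∈ (c i).σ '' ball (c i).p (c i).r) ∧
      (∀ x, ∃ (γ : Γ) (i : Fin m), ρ i (γ • x) ≠ 0) ∧
      (∀ i, IntegrableOn (fun q => (dt (fderiv ℝ (fun q => Z ((c i).σ q)) q) - 1) *
        ρ i ((c i).σ q)) (ball (c i).p (c i).r) lam) ∧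
      ∑ i, ∫ q in ball (c i).p (c i).r,
        (dt (fderiv ℝ (fun q => Z ((c i).σ q)) q) - 1) * ρ i ((c i).σ q) ∂lam = 0 := by
  classical
  let : MeasurableSpace X := borel X
  have : BorelSpace X := ⟨rfl⟩
  obtain ⟨μ, hμ⟩ := exists_chartMeas lam D.loc
  obtain ⟨m, c, hc⟩ := exists_charts D hZ.ll
  obtain ⟨ρ, hρL, hρ0, hρs, hρ1, K, hK, hρK⟩ := exists_pou D c hc
  obtain ⟨δ, hδ0, hδ⟩ := exists_null_const lam
  obtain ⟨δ', hδ'0, hδ'⟩ := exists_dt_pos (E := E)
  obtain ⟨t0, ht0, Ht⟩ := exists_flow D hZ c hc (min δ δ') (lt_min hδ0 hδ'0)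
  have in1 : ∀ i, ball (c i).p (c i).r ⊆ ball (c i).p (4 * (c i).r) :=
    fun i => ball_subset_ball (by linarith [(c i).hr])
  have hρc : ∀ i, Continuous (ρ i) := fun i => (hρL i).continuous D.loc.continuous
  let G : Fin m → X → ℝ≥0∞ := fun i x => ENNReal.ofReal (ρ i x)
  have hGm : ∀ i, Measurable (G i) := fun i => (hρc i).measurable.ennreal_ofReal
  have hGs : ∀ i x, G i x ≠ 0 → x ∈ (c i).σ '' ball (c i).p (c i).r := by
    intro i x hx
    apply hρs i x
    intro h
    apply hx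
    simp only [G, h, ENNReal.ofReal_zero]
  have hfin : ∀ x, ∃ F : Finset Γ, ∀ γ : Γ, γ ∉ F → ∀ i, ρ i (γ • x) = 0 := by
    intro x
    obtain ⟨N, hN, F, hF⟩ := locfin D hK x
    refine ⟨F, fun γ hγ i => ?_⟩
    by_contra hne
    exact hγ (hF x (mem_of_mem_nhds hN) γ (hρK i _ hne))
  have hG1 : ∀ x, ∑' γ : Γ, ∑ i, G i (γ • x) = 1 := by
    intro x
    obtain ⟨F, hF⟩ := hfin x
    have e1 : ∑' γ : Γ, ∑ i, ρ i (γ • x) = ∑ γ ∈ F, ∑ i, ρ i (γ • x) :=
      tsum_eq_sum fun γ hγ => Finset.sum_eq_zero fun i _ => hF γ hγ i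
    have e2 : ∑' γ : Γ, ∑ i, G i (γ • x) = ∑ γ ∈ F, ∑ i, G i (γ • x) :=
      tsum_eq_sum fun γ hγ => Finset.sum_eq_zero fun i _ => by simp only [G, hF γ hγ i, ENNReal.ofReal_zero]
    rw [e2]
    have e3 : ∑ γ ∈ F, ∑ i, G i (γ • x) = ENNReal.ofReal (∑ γ ∈ F, ∑ i, ρ i (γ • x)) := by
      rw [ENNReal.ofReal_sum_of_nonneg fun γ _ => Finset.sum_nonneg fun i _ => hρ0 i _]
      refine Finset.sum_congr rfl fun γ _ => ?_
      rw [ENNReal.ofReal_sum_of_nonneg fun i _ => hρ0 i _]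
    rw [e3, ← e1, hρ1, ENNReal.ofReal_one]
  have hρle : ∀ i x, ρ i x ≤ 1 := by
    intro i x
    have h1 : G i x ≤ ∑' γ : Γ, ∑ i, G i (γ • x) := by
      refine le_trans ?_ (ENNReal.le_tsum (1 : Γ))
      rw [one_smul]
      exact Finset.single_le_sum (f := fun i => G i x) (fun _ _ => bot_le) (Finset.mem_univ i)
    rw [hG1] at h1
    have h2 : ENNReal.ofReal (ρ i x) ≤ ENNReal.ofReal 1 := by rwa [ENNReal.ofReal_one]
    exact (ENNReal.ofReal_le_ofReal_iff zero_le_one).1 h2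
  have hGsum : Measurable fun x => ∑ i, G i x := Finset.measurable_sum _ fun i _ => hGm i
  obtain ⟨V, hV⟩ : ∃ V : ℝ≥0∞, V = ∫⁻ x, ∑ i, G i x ∂μ := ⟨_, rfl⟩
  -- the identity for small times
  let Y : Fin m → E → E := fun i q => Z ((c i).σ q)
  have hI : ∀ t, 0 ≤ t → t ≤ t0 → ∑ i, ∫⁻ q in ball (c i).p (c i).r,
      ENNReal.ofReal |dt (t • fderiv ℝ (Y i) q)| * G i ((c i).σ q) ∂lam = V := by
    intro t ht htt
    obtain ⟨hA, h, hh, hhc, hhe⟩ := Ht t ht htt
    have e1 : ∀ i, ∫⁻ q in ball (c i).p (c i).r,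
      ENNReal.ofReal |dt (t • fderiv ℝ (Y i) q)| * G i ((c i).σ q) ∂lam =
        ∫⁻ y, G i (h.symm y) ∂μ := fun i =>
      chart_cov lam D hμ (c i) ht (hA i).1 (hA i).2.2 hδ ((hA i).2.1.trans (min_le_left _ _)) h hh
        hhc (hGm i) (hGs i)
    have hhes : ∀ (γ : Γ) y, h.symm (γ • y) = γ • h.symm y := by
      intro γ y
      apply h.injective
      rw [h.apply_symm_apply, hhe, h.apply_symm_apply]
    have hm1 : ∀ i, Measurable fun y => G i (h.symm y) := fun i => (hGm i).comp hhc.measurable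
    rw [Finset.sum_congr rfl fun i _ => e1 i, ← lintegral_finsetSum _ fun i _ => hm1 i, hV]
    refine weight_indep lam D hμ ?_ hGsum (fun y => ?_) hG1
    · exact Finset.measurable_sum _ fun i _ => hm1 i
    · have := hG1 (h.symm y)
      rw [← this]
      refine tsum_congr fun γ => ?_
      rw [hhes]
  -- finiteness and positivity
  have hVfin : V ≠ ∞ := by
    rw [← hI 0 le_rfl ht0.le]
    refine (ENNReal.sum_lt_top.2 fun i _ => ?_).ne
    refine lt_of_le_of_lt (setLIntegral_mono (g := fun _ => (1 : ℝ≥0∞)) measurable_const fun q _ => ?_) ?_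
    · rw [zero_smul, dt_zero, abs_one, ENNReal.ofReal_one, one_mul]
      have := ENNReal.ofReal_le_ofReal (hρle i ((c i).σ q))
      rwa [ENNReal.ofReal_one] at this
    · rw [setLIntegral_one]
      exact measure_ball_lt_top
  -- real integrals
  have hYL : ∀ i, LipschitzOnWith ⟨(c i).L, (c i).hL⟩ (Y i) (ball (c i).p (c i).r) := by
    intro i
    refine LipschitzOnWith.of_dist_le_mul fun q hq q' hq' => ?_
    rw [dist_eq_norm, dist_eq_norm]
    exact (c i).lip q (in1 i hq) q' (in1 i hq')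
  have hYn : ∀ i, ∀ q ∈ ball (c i).p (c i).r, ‖fderiv ℝ (Y i) q‖ ≤ (c i).L := fun i q hq =>
    norm_fderiv_le_of_lipschitzOn ℝ (isOpen_ball.mem_nhds hq) (hYL i)
  have hρσ : ∀ i, AEMeasurable (fun q => ρ i ((c i).σ q)) (lam.restrict (ball (c i).p (c i).r)) :=
    fun i => ((hρc i).comp_continuousOn ((c i).sec.cont.mono (in1 i))).aemeasurable
      isOpen_ball.measurableSet
  have hint : ∀ i (t : ℝ), IntegrableOn (fun q => dt (t • fderiv ℝ (Y i) q) * ρ i ((c i).σ q))
      (ball (c i).p (c i).r) lam := by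
    intro i t
    have hcpt : IsCompact (closedBall (0 : E →L[ℝ] E) (|t| * (c i).L)) := isCompact_closedBall _ _
    obtain ⟨B, hB⟩ := hcpt.exists_bound_of_continuousOn (dt_cont (E := E)).continuousOn
    have hmeas : Measurable fun q => dt (t • fderiv ℝ (Y i) q) :=
      dt_cont.measurable.comp ((measurable_fderiv ℝ (Y i)).const_smul t)
    have : IsFiniteMeasure (lam.restrict (ball (c i).p (c i).r)) :=
      ⟨by rw [Measure.restrict_apply_univ]; exact measure_ball_lt_top⟩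
    refine Integrable.of_bound (C := B) ?_ ?_
    · exact (hmeas.aemeasurable.mul (hρσ i)).aestronglyMeasurable
    · rw [ae_restrict_iff' isOpen_ball.measurableSet]
      refine Eventually.of_forall fun q hq => ?_
      rw [norm_mul]
      have h1 : ‖dt (t • fderiv ℝ (Y i) q)‖ ≤ B := by
        apply hB
        rw [mem_closedBall, dist_zero_right, norm_smul, Real.norm_eq_abs]
        exact mul_le_mul_of_nonneg_left (hYn i q hq) (abs_nonneg _)
      have h2 : ‖ρ i ((c i).σ q)‖ ≤ 1 := by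
        rw [Real.norm_eq_abs, abs_of_nonneg (hρ0 i _)]
        exact hρle i _
      calc ‖dt (t • fderiv ℝ (Y i) q)‖ * ‖ρ i ((c i).σ q)‖ ≤ B * 1 :=
            mul_le_mul h1 h2 (norm_nonneg _) ((norm_nonneg _).trans h1)
        _ = B := mul_one B
  have hreal : ∀ t, 0 ≤ t → t ≤ t0 → ∑ i, ∫ q in ball (c i).p (c i).r,
      dt (t • fderiv ℝ (Y i) q) * ρ i ((c i).σ q) ∂lam = V.toReal := by
    intro t ht htt
    have hA := (Ht t ht htt).1
    have hpos : ∀ i, ∀ q ∈ ball (c i).p (c i).r, 0 < dt (t • fderiv ℝ (Y i) q) := by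
      intro i q hq
      apply hδ'
      rw [norm_smul, Real.norm_eq_abs, abs_of_nonneg ht]
      exact (mul_le_mul_of_nonneg_left (hYn i q hq) ht).trans ((hA i).2.1.trans (min_le_right _ _))
    have e1 : ∀ i, ENNReal.ofReal (∫ q in ball (c i).p (c i).r,
        dt (t • fderiv ℝ (Y i) q) * ρ i ((c i).σ q) ∂lam) = ∫⁻ q in ball (c i).p (c i).r,
        ENNReal.ofReal |dt (t • fderiv ℝ (Y i) q)| * G i ((c i).σ q) ∂lam := by
      intro i
      rw [ofReal_integral_eq_lintegral_ofReal (hint i t)]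
      · refine setLIntegral_congr_fun isOpen_ball.measurableSet fun q hq => ?_
        beta_reduce
        rw [ENNReal.ofReal_mul (hpos i q hq).le, abs_of_pos (hpos i q hq)]
      · rw [EventuallyLE, ae_restrict_iff' isOpen_ball.measurableSet]
        exact Eventually.of_forall fun q hq => mul_nonneg (hpos i q hq).le (hρ0 i _)
    have hnn : ∀ i, 0 ≤ ∫ q in ball (c i).p (c i).r,
        dt (t • fderiv ℝ (Y i) q) * ρ i ((c i).σ q) ∂lam := by
      intro i
      refine setIntegral_nonneg isOpen_ball.measurableSet fun q hq => ?_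
      exact mul_nonneg (hpos i q hq).le (hρ0 i _)
    have e2 : ENNReal.ofReal (∑ i, ∫ q in ball (c i).p (c i).r,
      dt (t • fderiv ℝ (Y i) q) * ρ i ((c i).σ q) ∂lam) = V := by
      rw [ENNReal.ofReal_sum_of_nonneg fun i _ => hnn i, Finset.sum_congr rfl fun i _ => e1 i]
      exact hI t ht htt
    rw [← e2, ENNReal.toReal_ofReal (Finset.sum_nonneg fun i _ => hnn i)]
  -- interpolation
  let τ : Fin (Module.finrank ℝ E + 1) → ℝ := fun j => t0 / ((j : ℝ) + 1)
  have hτinj : Function.Injective τ := by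
    intro j k hjk
    have h1 : (0 : ℝ) < (j : ℝ) + 1 := by positivity
    have h2 : (0 : ℝ) < (k : ℝ) + 1 := by positivity
    simp only [τ] at hjk
    rw [div_eq_div_iff h1.ne' h2.ne'] at hjk
    have h3 : (k : ℝ) + 1 = (j : ℝ) + 1 := mul_left_cancel₀ ht0.ne' hjk
    have h4 : (j : ℕ) = (k : ℕ) := by
      have : (k : ℝ) = (j : ℝ) := by linarith
      exact_mod_cast this.symm
    exact Fin.ext h4
  have hτ : ∀ j, 0 ≤ τ j ∧ τ j ≤ t0 := by
    intro j
    refine ⟨by positivity, ?_⟩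
    simp only [τ]
    rw [div_le_iff₀ (by positivity)]
    have : (0 : ℝ) ≤ (j : ℝ) := by positivity
    nlinarith
  obtain ⟨lm, hlm1, hlm⟩ := dt_interp τ hτinj
  have hfinal : V.toReal = ∑ i, ∫ q in ball (c i).p (c i).r,
      dt (fderiv ℝ (Y i) q) * ρ i ((c i).σ q) ∂lam := by
    calc V.toReal = ∑ j, lm j * V.toReal := by rw [← Finset.sum_mul, hlm1, one_mul]
      _ = ∑ j, lm j * ∑ i, ∫ q in ball (c i).p (c i).r,
          dt (τ j • fderiv ℝ (Y i) q) * ρ i ((c i).σ q) ∂lam := by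
          refine Finset.sum_congr rfl fun j _ => ?_
          rw [hreal (τ j) (hτ j).1 (hτ j).2]
      _ = ∑ i, ∫ q in ball (c i).p (c i).r, dt (fderiv ℝ (Y i) q) * ρ i ((c i).σ q) ∂lam := by
          simp only [Finset.mul_sum]
          rw [Finset.sum_comm]
          refine Finset.sum_congr rfl fun i _ => ?_
          have e1 : ∀ q, dt (fderiv ℝ (Y i) q) * ρ i ((c i).σ q) =
              ∑ j, lm j * (dt (τ j • fderiv ℝ (Y i) q) * ρ i ((c i).σ q)) := by
            intro q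
            rw [← hlm (fderiv ℝ (Y i) q), Finset.sum_mul]
            exact Finset.sum_congr rfl fun j _ => by ring
          simp only [e1]
          rw [integral_finsetSum _ fun j _ => (hint i (τ j)).const_mul (lm j)]
          refine Finset.sum_congr rfl fun j _ => ?_
          rw [integral_const_mul]
  have h0 := hreal 0 le_rfl ht0.le
  have hi1 : ∀ i, IntegrableOn (fun q => dt (fderiv ℝ (Y i) q) * ρ i ((c i).σ q))
      (ball (c i).p (c i).r) lam := fun i => by simpa using hint i 1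
  have hi0 : ∀ i, IntegrableOn (fun q => ρ i ((c i).σ q))
      (ball (c i).p (c i).r) lam := fun i => by simpa [dt_zero] using hint i 0
  have heq : ∀ i, (fun q => (dt (fderiv ℝ (Y i) q) - 1) * ρ i ((c i).σ q)) =
      fun q => dt (fderiv ℝ (Y i) q) * ρ i ((c i).σ q) - ρ i ((c i).σ q) := by
    intro i; funext q; ring
  refine ⟨m, c, ρ, hρc, hρ0, hρs, ?_, ?_, ?_⟩
  · intro x
    by_contra hno
    push Not at hno
    have h1 := hρ1 x
    have h2 : ∑' γ : Γ, ∑ i, ρ i (γ • x) = 0 := by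
      have : (fun γ : Γ => ∑ i, ρ i (γ • x)) = fun _ => 0 := by
        funext γ
        exact Finset.sum_eq_zero fun i _ => hno γ i
      rw [this, tsum_zero]
    rw [h2] at h1
    exact zero_ne_one h1
  · intro i
    show IntegrableOn (fun q => (dt (fderiv ℝ (Y i) q) - 1) * ρ i ((c i).σ q)) _ _
    rw [heq i]
    exact (hi1 i).sub (hi0 i)
  · show ∑ i, ∫ q in ball (c i).p (c i).r,
      (dt (fderiv ℝ (Y i) q) - 1) * ρ i ((c i).σ q) ∂lam = 0
    have h3 : ∀ i, ∫ q in ball (c i).p (c i).r,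
        (dt (fderiv ℝ (Y i) q) - 1) * ρ i ((c i).σ q) ∂lam =
        ∫ q in ball (c i).p (c i).r, dt (fderiv ℝ (Y i) q) * ρ i ((c i).σ q) ∂lam -
        ∫ q in ball (c i).p (c i).r, ρ i ((c i).σ q) ∂lam := by
      intro i
      rw [heq i]
      exact integral_sub (hi1 i) (hi0 i)
    rw [Finset.sum_congr rfl fun i _ => h3 i, Finset.sum_sub_distrib, ← hfinal]
    have h4 : ∑ i, ∫ q in ball (c i).p (c i).r, ρ i ((c i).σ q) ∂lam = V.toReal := by
      rw [← h0]
      refine Finset.sum_congr rfl fun i _ => ?_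
      simp [dt_zero]
    rw [h4, sub_self]

end

section
variable {X Γ E : Type} [TopologicalSpace X] [T2Space X] [SecondCountableTopology X] [Nonempty X]
  [Group Γ] [MulAction Γ X] [NormedAddCommGroup E] [NormedSpace ℝ E] [FiniteDimensional ℝ E]
  {dev : X → E} {hol : Γ →* (E ≃ᵃ[ℝ] E)}

/-- the principle, for vector fields supported in an invariant open set -/
theorem principle2 (D : AffData X Γ E dev hol) {Z : X → E} (hZ : VF dev hol Z) {O : Set X}
    (hO : IsOpen O) (hne : O.Nonempty) (hinv : ∀ (γ : Γ) x, x ∈ O → γ • x ∈ O)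
    (hsing : ∀ (U : Set E) (σ : E → X), Sec dev U σ → ∀ q ∈ U, σ q ∈ O → ∀ A : E →L[ℝ] E,
      HasFDerivAt (fun q => Z (σ q)) A q → dt A = 0)
    (hoff : ∀ x, x ∉ O → Z x = 0) : False := by
  let : MeasurableSpace E := borel E
  have : BorelSpace E := ⟨rfl⟩
  let lam : Measure E := Measure.addHaar
  obtain ⟨m, c, ρ, hρc, hρ0, hρs, hρ1, hint, hsum⟩ := master lam D hZ
  have in1 : ∀ i, ball (c i).p (c i).r ⊆ ball (c i).p (4 * (c i).r) :=
    fun i => ball_subset_ball (by linarith [(c i).hr])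
  have hYL : ∀ i, LipschitzOnWith ⟨(c i).L, (c i).hL⟩ (fun q => Z ((c i).σ q))
      (ball (c i).p (c i).r) := by
    intro i
    refine LipschitzOnWith.of_dist_le_mul fun q hq q' hq' => ?_
    rw [dist_eq_norm, dist_eq_norm]
    exact (c i).lip q (in1 i hq) q' (in1 i hq')
  -- the value of the integrand
  have hval : ∀ i, ∀ᵐ q ∂lam, q ∈ ball (c i).p (c i).r →
      ((c i).σ q ∈ O → dt (fderiv ℝ (fun q => Z ((c i).σ q)) q) = 0) ∧
      ((c i).σ q ∉ O → dt (fderiv ℝ (fun q => Z ((c i).σ q)) q) = 1) := by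
    intro i
    have h1 := (hYL i).ae_differentiableWithinAt_of_mem (μ := lam)
    have hopen : IsOpen (ball (c i).p (c i).r ∩ (c i).σ ⁻¹' O) :=
      ((c i).sec.cont.mono (in1 i)).isOpen_inter_preimage isOpen_ball hO
    let Sd : Set E := {q | DifferentiableAt ℝ (fun q => Z ((c i).σ q)) q}
    have hSd : MeasurableSet Sd := measurableSet_of_differentiableAt ℝ _
    let s : Set E := (ball (c i).p (c i).r \ (ball (c i).p (c i).r ∩ (c i).σ ⁻¹' O)) ∩ Sd
    have hs : MeasurableSet s := (isOpen_ball.measurableSet.diff hopen.measurableSet).inter hSd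
    have hap : ApproximatesLinearOn (fun q => Z ((c i).σ q)) (0 : E →L[ℝ] E) s 0 := by
      intro a ha b hb
      have e : ∀ a ∈ s, Z ((c i).σ a) = 0 := fun a ha =>
        hoff _ fun h => ha.1.2 ⟨ha.1.1, h⟩
      beta_reduce
      rw [e a ha, e b hb]
      simp
    have h2 := hap.norm_fderiv_sub_le (μ := lam) hs (fderiv ℝ (fun q => Z ((c i).σ q)))
      (fun x hx => (DifferentiableAt.hasFDerivAt hx.2).hasFDerivWithinAt)
    rw [ae_restrict_iff' hs] at h2
    filter_upwards [h1, h2] with q hq1 hq2 hqb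
    have h3 : DifferentiableAt ℝ (fun q => Z ((c i).σ q)) q :=
      (hq1 hqb).differentiableAt (isOpen_ball.mem_nhds hqb)
    refine ⟨fun h => hsing _ _ (c i).sec q (in1 i hqb) h _ h3.hasFDerivAt, fun h => ?_⟩
    have h4 := hq2 ⟨⟨hqb, fun h' => h h'.2⟩, h3⟩
    rw [sub_zero] at h4
    have h5 : fderiv ℝ (fun q => Z ((c i).σ q)) q = 0 := by
      rw [← nnnorm_eq_zero]
      exact le_antisymm h4 bot_le
    rw [h5, dt_zero]
  have hnn : ∀ i, 0 ≤ᵐ[lam.restrict (ball (c i).p (c i).r)]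
      fun q => -((dt (fderiv ℝ (fun q => Z ((c i).σ q)) q) - 1) * ρ i ((c i).σ q)) := by
    intro i
    rw [EventuallyLE, ae_restrict_iff' isOpen_ball.measurableSet]
    filter_upwards [hval i] with q hq hqb
    have h1 := hρ0 i ((c i).σ q)
    by_cases h : (c i).σ q ∈ O
    · rw [(hq hqb).1 h]
      simpa using h1
    · rw [(hq hqb).2 h]
      simp
  have hz : ∀ i, ∫ q in ball (c i).p (c i).r,
      -((dt (fderiv ℝ (fun q => Z ((c i).σ q)) q) - 1) * ρ i ((c i).σ q)) ∂lam = 0 := by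
    have h1 : ∑ i, ∫ q in ball (c i).p (c i).r,
      -((dt (fderiv ℝ (fun q => Z ((c i).σ q)) q) - 1) * ρ i ((c i).σ q)) ∂lam = 0 := by
      simp only [integral_neg, Finset.sum_neg_distrib, hsum, neg_zero]
    intro i
    refine (Finset.sum_eq_zero_iff_of_nonneg fun j _ => ?_).1 h1 i (Finset.mem_univ i)
    exact integral_nonneg_of_ae (hnn j)
  obtain ⟨x, hx⟩ := hne
  obtain ⟨γ, i, hi⟩ := hρ1 x
  obtain ⟨q0, hq0, hq0x⟩ := hρs i _ hi
  have h1 := (integral_eq_zero_iff_of_nonneg_ae (hnn i) (hint i).neg).1 (hz i)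
  rw [EventuallyEq, ae_restrict_iff' isOpen_ball.measurableSet] at h1
  have hopen : IsOpen (ball (c i).p (c i).r ∩ (c i).σ ⁻¹' (O ∩ {x | ρ i x ≠ 0})) :=
    ((c i).sec.cont.mono (in1 i)).isOpen_inter_preimage isOpen_ball
      (hO.inter (isOpen_ne_fun (hρc i) continuous_const))
  have hq0m : q0 ∈ ball (c i).p (c i).r ∩ (c i).σ ⁻¹' (O ∩ {x | ρ i x ≠ 0}) := by
    refine ⟨hq0, ?_, ?_⟩
    · rw [hq0x]; exact hinv γ x hx
    · show ρ i ((c i).σ q0) ≠ 0
      rw [hq0x]; exact hi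
  have hpos := hopen.measure_pos lam ⟨q0, hq0m⟩
  have hnull : lam (ball (c i).p (c i).r ∩ (c i).σ ⁻¹' (O ∩ {x | ρ i x ≠ 0})) = 0 := by
    refine measure_mono_null ?_ (ae_iff.1 ((h1.and (hval i))))
    intro q hq hcon
    obtain ⟨hqb, hqO, hqρ⟩ := hq
    have h2 := hcon.1 hqb
    have h3 := (hcon.2 hqb).1 hqO
    rw [h3] at h2
    simp only [Pi.zero_apply] at h2
    apply hqρ
    linarith
  exact hpos.ne' hnull

end

end Pool.Agent.W689.Mk
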