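import Pool.Agent.W689.Mk.Sec

set_option autoImplicit false

open Set Filter Topology Metric

namespace Pool.Agent.W689.Mk

section
variable {X E : Type} [TopologicalSpace X] [T2Space X] [NormedAddCommGroup E] [NormedSpace ℝ E]
  {dev : X → E}

/-- gluing two sections -/
theorem Sec.glue (hloc : IsLocalHomeomorph dev) {U U' V : Set E} {σ σ' : E → X}
    (h : Sec dev U σ) (h' : Sec dev U' σ') {p : E} (hp : p ∈ U) (hp' : p ∈ U') (he : σ p = σ' p)
    (hV : IsOpen V) (hVc : Convex ℝ V) (hVU : V ⊆ U ∪ U') :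
    ∃ τ : E → X, Sec dev V τ ∧ (∀ q ∈ U, τ q = σ q) ∧ (∀ q ∈ U', τ q = σ' q) := by
  classical
  have h1 : ∀ q ∈ U, (fun q => if q ∈ U then σ q else σ' q) q = σ q := fun q hq => if_pos hq
  have h2 : ∀ q ∈ U', (fun q => if q ∈ U then σ q else σ' q) q = σ' q := by
    intro q hq
    by_cases hqU : q ∈ U
    · rw [h1 q hqU]
      exact h.eqOn hloc h' hp hp' he q hqU hq
    · exact if_neg hqU
  refine ⟨fun q => if q ∈ U then σ q else σ' q, ⟨hV, hVc, ?_, ?_⟩, h1, h2⟩
  · intro q hq
    apply ContinuousAt.continuousWithinAt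
    rcases hVU hq with hqU | hqU
    · have h3 : ContinuousAt σ q := (h.cont q hqU).continuousAt (h.isOpen.mem_nhds hqU)
      refine h3.congr ?_
      filter_upwards [h.isOpen.mem_nhds hqU] with z hz
      exact (h1 z hz).symm
    · have h3 : ContinuousAt σ' q := (h'.cont q hqU).continuousAt (h'.isOpen.mem_nhds hqU)
      refine h3.congr ?_
      filter_upwards [h'.isOpen.mem_nhds hqU] with z hz
      exact (h2 z hz).symm
  · intro q hq
    rcases hVU hq with hqU | hqU
    · have := h.inv q hqU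
      rwa [← h1 q hqU] at this
    · have := h'.inv q hqU
      rwa [← h2 q hqU] at this

/-- the exponential map on an open convex set of complete directions is a section -/
theorem sec_of_Ex (hloc : IsLocalHomeomorph dev) {x : X} {H : Set E} (hH : IsOpen H)
    (hc : Convex ℝ H) (hE : ∀ v ∈ H, ∃ y, Ex dev x v y) :
    ∃ σ : E → X, Sec dev ((fun q => q - dev x) ⁻¹' H) σ ∧ ∀ v ∈ H, Ex dev x v (σ (dev x + v)) := by
  classical
  let σ : E → X := fun q => if h : ∃ y, Ex dev x (q - dev x) y then h.choose else x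
  have hσ : ∀ q y, Ex dev x (q - dev x) y → σ q = y := by
    intro q y hy
    have h1 : ∃ y, Ex dev x (q - dev x) y := ⟨y, hy⟩
    have h2 : σ q = h1.choose := dif_pos h1
    rw [h2]
    exact h1.choose_spec.unique hloc hy
  refine ⟨σ, ⟨hH.preimage (continuous_id.sub continuous_const), ?_, ?_, ?_⟩, ?_⟩
  · have : (fun q => q - dev x) ⁻¹' H = (fun q => q + (-dev x)) ⁻¹' H := by
      ext q; simp [sub_eq_add_neg]
    rw [this]
    exact hc.translate_preimage_left (-dev x)
  · intro q hq
    apply ContinuousAt.continuousWithinAt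
    obtain ⟨y, U, τ, h1, h2, h3, h4, h5⟩ := hE _ hq
    rw [add_sub_cancel] at h4 h5
    have h6 : ContinuousAt τ q := (h1.cont q h4).continuousAt (h1.isOpen.mem_nhds h4)
    refine h6.congr ?_
    filter_upwards [h1.isOpen.mem_nhds h4] with z hz
    refine (hσ z (τ z) ⟨U, τ, h1, h2, h3, ?_, ?_⟩).symm
    · rw [add_sub_cancel]; exact hz
    · rw [add_sub_cancel]
  · intro q hq
    obtain ⟨y, hy⟩ := hE _ hq
    rw [hσ q y hy, hy.dev_eq, add_sub_cancel]
  · intro v hv
    obtain ⟨y, hy⟩ := hE v hv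
    have : σ (dev x + v) = y := hσ _ _ (by rwa [add_sub_cancel_left])
    rwa [this]

/-- moving inside a section -/
theorem Sec.Ex {U : Set E} {σ : E → X} (h : Sec dev U σ) {q v : E} (hq : q ∈ U) (hv : q + v ∈ U) :
    Ex dev (σ q) v (σ (q + v)) := by
  have h1 := h.inv q hq
  exact ⟨U, σ, h, by rw [h1]; exact hq, by rw [h1], by rw [h1]; exact hv, by rw [h1]⟩

/-- completeness at one point -/
theorem homeo_of_all [PreconnectedSpace X] (hloc : IsLocalHomeomorph dev) {x : X}
    (hE : ∀ v, ∃ y, Ex dev x v y) : IsHomeomorph dev := by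
  obtain ⟨σ, hσ, hσE⟩ := sec_of_Ex hloc (x := x) isOpen_univ convex_univ (fun v _ => hE v)
  rw [preimage_univ] at hσ
  have hc : Continuous σ := continuousOn_univ.1 hσ.cont
  have hinv : ∀ q, dev (σ q) = q := fun q => hσ.inv q (mem_univ q)
  have hop : IsOpen (range σ) := by
    have := hσ.isOpen_image hloc isOpen_univ Subset.rfl
    rwa [image_univ] at this
  have hcl : IsClosed (range σ) := by
    have : range σ = {y | σ (dev y) = y} := by
      ext y
      constructor
      · rintro ⟨q, rfl⟩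
        show σ (dev (σ q)) = σ q
        rw [hinv]
      · intro hy
        exact ⟨dev y, hy⟩
    rw [this]
    exact isClosed_eq (hc.comp hloc.continuous) continuous_id
  have huniv : range σ = univ := IsClopen.eq_univ ⟨hcl, hop⟩ ⟨σ 0, 0, rfl⟩
  have hleft : ∀ y, σ (dev y) = y := by
    intro y
    have : y ∈ range σ := by rw [huniv]; trivial
    obtain ⟨q, rfl⟩ := this
    rw [hinv]
  exact (Homeomorph.mk (Equiv.mk dev σ hleft hinv) hloc.continuous hc).isHomeomorph

/-- the geodesic with initial point `x` and initial velocity `v` is defined up to time one -/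
def Geod (dev : X → E) (x : X) (v : E) : Prop :=
  ∃ c : ℝ → X, ContinuousOn c (Icc 0 1) ∧ c 0 = x ∧ ∀ t ∈ Icc (0 : ℝ) 1, dev (c t) = dev x + t • v

theorem Ex.geod {x : X} {v : E} {y : X} (h : Ex dev x v y) : Geod dev x v := by
  obtain ⟨U, σ, h1, h2, h3, h4, h5⟩ := h
  have hm : ∀ t ∈ Icc (0 : ℝ) 1, dev x + t • v ∈ U := by
    intro t ht
    have := h1.convex h2 h4 (a := 1 - t) (b := t) (by linarith [ht.2]) ht.1 (by ring)
    convert this using 1
    rw [smul_add, ← add_assoc, ← add_smul]
    simp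
  refine ⟨fun t => σ (dev x + t • v), ?_, ?_, fun t ht => h1.inv _ (hm t ht)⟩
  · exact h1.cont.comp (continuous_const.add (continuous_id.smul continuous_const)).continuousOn hm
  · simpa using h3

/-- a geodesic has a convex neighbourhood with a section -/
theorem Geod.ex (hloc : IsLocalHomeomorph dev) {x : X} {v : E} (h : Geod dev x v) :
    ∃ y, Ex dev x v y := by
  obtain ⟨c, hc, hc0, hcd⟩ := h
  let P : ℝ → Prop := fun t => ∃ (U : Set E) (σ : E → X), Sec dev U σ ∧
    ∀ s ∈ Icc 0 t, dev x + s • v ∈ U ∧ σ (dev x + s • v) = c s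
  have seg : ∀ t : ℝ, 0 ≤ t → ∀ z ∈ segment ℝ (dev x) (dev x + t • v), ∃ s ∈ Icc 0 t, z = dev x + s • v := by
    intro t ht z hz
    obtain ⟨a, b, ha, hb, hab, rfl⟩ := hz
    refine ⟨b * t, ⟨mul_nonneg hb ht, ?_⟩, ?_⟩
    · have : b ≤ 1 := by linarith
      nlinarith
    · rw [smul_add, ← add_assoc, ← add_smul, hab, one_smul, smul_smul]
  have seg' : ∀ t : ℝ, 0 ≤ t → ∀ s ∈ Icc 0 t, dev x + s • v ∈ segment ℝ (dev x) (dev x + t • v) := by
    intro t ht s hs
    rcases eq_or_lt_of_le ht with h0 | h0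
    · have : s = 0 := le_antisymm (by rw [h0]; exact hs.2) hs.1
      rw [this, zero_smul, add_zero]
      exact left_mem_segment ℝ _ _
    · refine ⟨1 - s / t, s / t, ?_, div_nonneg hs.1 ht, by ring, ?_⟩
      · have : s / t ≤ 1 := (div_le_one h0).2 hs.2
        linarith
      · rw [smul_add, ← add_assoc, ← add_smul, smul_smul, div_mul_cancel₀ _ h0.ne']
        simp
  -- the local step
  have step : ∀ t ∈ Icc (0 : ℝ) 1, ∃ η > 0, ∀ s s', 0 ≤ s → s ≤ s' → s' ≤ 1 → |s - t| < η →
      |s' - t| < η → P s → P s' := by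
    intro t ht
    obtain ⟨e, r, hxe, he, hr, hrt⟩ := exists_sec hloc (c t)
    have hτ := sec_of_target e he (dev (c t)) r hrt
    have hce : e.symm (dev (c t)) = c t := by rw [he]; exact e.left_inv hxe
    have hop := hτ.isOpen_image hloc isOpen_ball Subset.rfl
    have hct : c t ∈ e.symm '' ball (dev (c t)) r := ⟨_, mem_ball_self hr, hce⟩
    have h1 := (hc t ht) (hop.mem_nhds hct)
    rw [mem_map, mem_nhdsWithin_iff_exists_mem_nhds_inter] at h1
    obtain ⟨N, hN, hNc⟩ := h1
    obtain ⟨η1, hη1, hη1N⟩ := Metric.mem_nhds_iff.1 hN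
    refine ⟨min η1 (r / (4 * (‖v‖ + 1))), by positivity, ?_⟩
    intro s s' hs hss hs1 hst hst' hP
    obtain ⟨U, σ, hσ, hU⟩ := hP
    have hin : ∀ u ∈ Icc (0 : ℝ) 1, |u - t| < min η1 (r / (4 * (‖v‖ + 1))) →
        dev x + u • v ∈ ball (dev (c t)) r ∧ e.symm (dev x + u • v) = c u := by
      intro u hu hut
      have h2 : u ∈ N ∩ Icc 0 1 := by
        refine ⟨hη1N ?_, hu⟩
        rw [mem_ball, Real.dist_eq]
        exact hut.trans_le (min_le_left _ _)
      obtain ⟨q, hq, hqc⟩ := hNc h2
      have h3 : q = dev x + u • v := by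
        rw [← hτ.inv q hq, hqc, hcd u hu]
      rw [← h3]
      exact ⟨hq, hqc⟩
    have hKc : IsCompact (segment ℝ (dev x) (dev x + s • v)) := by
      rw [segment_eq_image_lineMap]
      exact isCompact_Icc.image (AffineMap.lineMap_continuous)
    have hKU : segment ℝ (dev x) (dev x + s • v) ⊆ U := by
      intro z hz
      obtain ⟨u, hu, rfl⟩ := seg s hs z hz
      exact (hU u hu).1
    obtain ⟨ε, hε, hεU⟩ := hKc.exists_thickening_subset_open hσ.isOpen hKU
    obtain ⟨ε', hε', hε'1, hε'2⟩ : ∃ ε' > 0, ε' ≤ ε ∧ ε' ≤ r / 2 := ⟨min ε (r / 2), by positivity,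
      min_le_left _ _, min_le_right _ _⟩
    have hs1' : s ∈ Icc (0 : ℝ) 1 := ⟨hs, hss.trans hs1⟩
    have hp1 := hin s hs1' hst
    have hp2 := hU s ⟨hs, le_rfl⟩
    have hs0' : 0 ≤ s' := hs.trans hss
    obtain ⟨τ, hτ1, hτ2, hτ3⟩ := hσ.glue hloc hτ hp2.1 hp1.1 (hp2.2.trans hp1.2.symm)
      (V := thickening ε' (segment ℝ (dev x) (dev x + s' • v))) isOpen_thickening
      ((convex_segment _ _).thickening ε') (by
        intro z hz
        rw [mem_thickening_iff] at hz
        obtain ⟨w, hw, hzw⟩ := hz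
        obtain ⟨u, hu, rfl⟩ := seg s' hs0' w hw
        by_cases hus : u ≤ s
        · left
          apply hεU
          rw [mem_thickening_iff]
          exact ⟨_, seg' s hs u ⟨hu.1, hus⟩, hzw.trans_le hε'1⟩
        · right
          rw [mem_ball]
          have h5 : |u - t| < r / (4 * (‖v‖ + 1)) := by
            have h6 : |u - t| ≤ max |s - t| |s' - t| := by
              push Not at hus
              have := hu.2
              rw [le_max_iff]
              rcases le_or_gt u t with h | h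
              · left
                rw [abs_of_nonpos (by linarith), abs_of_nonpos (by linarith)]
                linarith
              · right
                rw [abs_of_nonneg (by linarith), abs_of_nonneg (by linarith)]
                linarith
            refine lt_of_le_of_lt h6 (max_lt ?_ ?_)
            · exact hst.trans_le (min_le_right _ _)
            · exact hst'.trans_le (min_le_right _ _)
          have h7 : dist (dev x + u • v) (dev (c t)) < r / 2 := by
            rw [hcd t ht, dist_eq_norm]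
            have : dev x + u • v - (dev x + t • v) = (u - t) • v := by rw [sub_smul]; abel
            rw [this, norm_smul, Real.norm_eq_abs]
            have h8 : |u - t| * (4 * (‖v‖ + 1)) < r := by
              rwa [lt_div_iff₀ (by positivity)] at h5
            have h9 : 0 ≤ |u - t| := abs_nonneg _
            have h10 : 0 ≤ ‖v‖ := norm_nonneg _
            nlinarith
          have := dist_triangle z (dev x + u • v) (dev (c t))
          linarith)
    refine ⟨_, τ, hτ1, fun u hu => ⟨self_subset_thickening hε' _ (seg' s' hs0' u hu), ?_⟩⟩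
    by_cases hus : u ≤ s
    · rw [hτ2 _ (hU u ⟨hu.1, hus⟩).1]
      exact (hU u ⟨hu.1, hus⟩).2
    · have h6 : |u - t| < min η1 (r / (4 * (‖v‖ + 1))) := by
        push Not at hus
        have := hu.2
        rw [abs_lt] at hst hst' ⊢
        constructor <;> linarith [hst.1, hst'.2]
      have h7 := hin u ⟨hu.1, hu.2.trans hs1⟩ h6
      rw [hτ3 _ h7.1]
      exact h7.2
  -- the supremum
  have hP0 : P 0 := by
    obtain ⟨e, r, hxe, he, hr, hrt⟩ := exists_sec hloc x
    refine ⟨_, e.symm, sec_of_target e he (dev x) r hrt, fun s hs => ?_⟩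
    have : s = 0 := le_antisymm hs.2 hs.1
    rw [this, zero_smul, add_zero, hc0]
    refine ⟨mem_ball_self hr, ?_⟩
    rw [he]; exact e.left_inv hxe
  let S : Set ℝ := {t | t ∈ Icc (0 : ℝ) 1 ∧ P t}
  have hS0 : (0 : ℝ) ∈ S := ⟨⟨le_rfl, zero_le_one⟩, hP0⟩
  have hSb : BddAbove S := ⟨1, fun t ht => ht.1.2⟩
  set T := sSup S with hT
  have hT0 : 0 ≤ T := le_csSup hSb hS0
  have hT1 : T ≤ 1 := csSup_le ⟨0, hS0⟩ fun t ht => ht.1.2
  obtain ⟨η, hη, H⟩ := step T ⟨hT0, hT1⟩
  obtain ⟨s, hsS, hs⟩ := exists_lt_of_lt_csSup ⟨0, hS0⟩ (show T - η < sSup S by rw [← hT]; linarith)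
  have hsT : s ≤ T := le_csSup hSb hsS
  have h1 : min (T + η / 2) 1 ≤ T := by
    apply le_csSup hSb
    have h3 : s ≤ min (T + η / 2) 1 := le_min (by linarith) (hsT.trans hT1)
    have h4 : T ≤ min (T + η / 2) 1 := le_min (by linarith) hT1
    refine ⟨⟨hsS.1.1.trans h3, min_le_right _ _⟩,
      H s _ hsS.1.1 h3 (min_le_right _ _) ?_ ?_ hsS.2⟩
    · rw [abs_of_nonpos (by linarith)]; linarith
    · rw [abs_of_nonneg (by linarith)]
      have := min_le_left (T + η / 2) 1
      linarith
  have hT1' : T = 1 := by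
    rcases min_le_iff.1 h1 with h | h
    · linarith
    · exact le_antisymm hT1 h
  have hP1 : P 1 := by
    rw [hT1'] at H hs hsT
    exact H s 1 hsS.1.1 hsT le_rfl (by rw [abs_of_nonpos (by linarith)]; linarith)
      (by simpa using hη) hsS.2
  obtain ⟨U, σ, hσ, hU⟩ := hP1
  have ha := hU 0 ⟨le_rfl, zero_le_one⟩
  have hb := hU 1 ⟨zero_le_one, le_rfl⟩
  rw [zero_smul, add_zero, hc0] at ha
  rw [one_smul] at hb
  exact ⟨c 1, U, σ, hσ, ha.1, ha.2, hb.1, hb.2⟩

end

end Pool.Agent.W689.Mk
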