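import Pool.Agent.W689.Mk.Av
import Pool.Agent.W689.Mk.Prin2
import Pool.Agent.W689.Mk.Tube

set_option autoImplicit false

open Set Filter Topology Metric

namespace Pool.Agent.W689.Mk

section cone
variable {E : Type} [NormedAddCommGroup E] [NormedSpace ℝ E]

/-- nonempty open convex cones -/
structure OC (R : Set E) : Prop where
  op : IsOpen R
  cv : Convex ℝ R
  sm : ∀ v ∈ R, ∀ t : ℝ, 0 < t → t • v ∈ R
  ne : R.Nonempty

theorem OC.add {R : Set E} (h : OC R) {v w : E} (hv : v ∈ R) (hw : w ∈ R) : v + w ∈ R := by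
  have h1 := h.cv hv hw (a := 1 / 2) (b := 1 / 2) (by norm_num) (by norm_num) (by norm_num)
  have h2 := h.sm _ h1 2 (by norm_num)
  have h3 : (2 : ℝ) • ((1 / 2 : ℝ) • v + (1 / 2 : ℝ) • w) = v + w := by module
  rwa [h3] at h2

theorem OC.absorb {R : Set E} (h : OC R) {c : E} {κ : ℝ} (hκ : closedBall c κ ⊆ R) {t : ℝ}
    (ht : 0 < t) {u : E} (hu : ‖u‖ ≤ t * κ) : t • c + u ∈ R := by
  have h1 : c + t⁻¹ • u ∈ closedBall c κ := by
    rw [mem_closedBall, dist_eq_norm, add_sub_cancel_left, norm_smul, norm_inv, Real.norm_eq_abs,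
      abs_of_pos ht, inv_mul_eq_div, div_le_iff₀ ht]
    linarith
  have h2 := h.sm _ (hκ h1) t ht
  rwa [smul_add, smul_smul, mul_inv_cancel₀ ht.ne', one_smul] at h2

theorem OC.sub_small {R : Set E} (h : OC R) {r : E} (hr : r ∈ R) (c : E) :
    ∃ ε : ℝ, 0 < ε ∧ r - ε • c ∈ R := by
  have hc : Continuous fun t : ℝ => r - t • c :=
    continuous_const.sub (continuous_id.smul continuous_const)
  have h1 : ∀ᶠ t in 𝓝 (0 : ℝ), r - t • c ∈ R := by
    refine hc.continuousAt.eventually (h.op.mem_nhds ?_)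
    show r - (0 : ℝ) • c ∈ R
    rwa [zero_smul, sub_zero]
  obtain ⟨δ, hδ, H⟩ := Metric.eventually_nhds_iff.1 h1
  refine ⟨δ / 2, half_pos hδ, H ?_⟩
  rw [Real.dist_eq, sub_zero, abs_of_pos (half_pos hδ)]
  linarith

theorem OC.exists_ball {R : Set E} (h : OC R) {c : E} (hc : c ∈ R) :
    ∃ κ : ℝ, 0 < κ ∧ closedBall c (2 * κ) ⊆ R := by
  obtain ⟨δ, hδ, H⟩ := Metric.mem_nhds_iff.1 (h.op.mem_nhds hc)
  refine ⟨δ / 4, by positivity, fun q hq => H ?_⟩
  rw [mem_closedBall] at hq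
  rw [mem_ball]
  linarith

/-- the times at which a line is in the set -/
def Tm (D : Set E) (q c : E) : Set ℝ := {s | q + s • c ∈ D}

/-- the entry time -/
noncomputable def en (D : Set E) (q c : E) : ℝ := sInf (Tm D q c)

/-- future sets, proper and nonempty -/
structure FS (R D : Set E) : Prop where
  add : ∀ p ∈ D, ∀ r ∈ R, p + r ∈ D
  ne : D.Nonempty
  nu : D ≠ univ

theorem FS.up {R D : Set E} (hR : OC R) (h : FS R D) {q c : E} (hc : c ∈ R) {s s' : ℝ}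
    (hs : s ∈ Tm D q c) (hss : s < s') : s' ∈ Tm D q c := by
  have h1 := h.add _ hs _ (hR.sm c hc (s' - s) (by linarith))
  have h2 : q + s • c + (s' - s) • c = q + s' • c := by module
  rwa [h2] at h1

theorem FS.nonempty {R D : Set E} (hR : OC R) (h : FS R D) (q : E) {c : E} (hc : c ∈ R) :
    (Tm D q c).Nonempty := by
  obtain ⟨κ, hκ, hκR⟩ := hR.exists_ball hc
  obtain ⟨p, hp⟩ := h.ne
  obtain ⟨t, ht⟩ : ∃ t : ℝ, t = ‖q - p‖ / κ + 1 := ⟨_, rfl⟩
  have ht0 : 0 < t := by rw [ht]; positivity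
  have h1 : ‖q - p‖ ≤ t * κ := by
    rw [ht, add_mul, div_mul_cancel₀ _ hκ.ne']; linarith
  have h2 := hR.absorb ((closedBall_subset_closedBall (by linarith)).trans hκR) ht0 h1
  refine ⟨t, ?_⟩
  have h3 := h.add p hp _ h2
  have h4 : p + (t • c + (q - p)) = q + t • c := by abel
  rwa [h4] at h3

theorem FS.bdd' {R D : Set E} (hR : OC R) (h : FS R D) {q c : E} {κ : ℝ} (hκ : 0 < κ)
    (hc : closedBall c κ ⊆ R) {q1 : E} (hq1 : q1 ∉ D) {s : ℝ} (hs : s ∈ Tm D q c) :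
    -(‖q1 - q‖ / κ) ≤ s := by
  by_contra hcon
  push Not at hcon
  have hs0 : 0 < -s := by
    have : 0 ≤ ‖q1 - q‖ / κ := by positivity
    linarith
  have h1 : ‖q1 - q‖ ≤ (-s) * κ := by
    have : ‖q1 - q‖ / κ ≤ -s := by linarith
    rwa [div_le_iff₀ hκ] at this
  have h2 := hR.absorb hc hs0 h1
  have h3 := h.add _ hs _ h2
  have h4 : q + s • c + ((-s) • c + (q1 - q)) = q1 := by module
  rw [h4] at h3
  exact hq1 h3

theorem FS.bdd {R D : Set E} (hR : OC R) (h : FS R D) (q : E) {c : E} (hc : c ∈ R) :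
    BddBelow (Tm D q c) := by
  obtain ⟨κ, hκ, hκR⟩ := hR.exists_ball hc
  obtain ⟨q1, hq1⟩ := (ne_univ_iff_exists_notMem D).1 h.nu
  exact ⟨_, fun s hs => h.bdd' hR hκ ((closedBall_subset_closedBall (by linarith)).trans hκR) hq1 hs⟩

theorem FS.mem_of_lt {R D : Set E} (hR : OC R) (h : FS R D) {q c : E} (hc : c ∈ R) {s : ℝ}
    (hs : en D q c < s) : q + s • c ∈ D := by
  obtain ⟨s1, hs1, hs1s⟩ := exists_lt_of_csInf_lt (h.nonempty hR q hc) hs
  exact h.up hR hc hs1 hs1s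

theorem FS.le_of_mem {R D : Set E} (hR : OC R) (h : FS R D) {q c : E} (hc : c ∈ R) {s : ℝ}
    (hs : q + s • c ∈ D) : en D q c ≤ s :=
  csInf_le (h.bdd hR q hc) hs

theorem FS.add_mem {R D : Set E} (hR : OC R) (h : FS R D) {q c r : E} (hc : c ∈ R) (hr : r ∈ R) :
    q + en D q c • c + r ∈ D := by
  obtain ⟨ε, hε, hεR⟩ := hR.sub_small hr c
  have h1 := h.add _ (h.mem_of_lt hR hc (s := en D q c + ε) (q := q) (by linarith)) _ hεR
  have h2 : q + (en D q c + ε) • c + (r - ε • c) = q + en D q c • c + r := by module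
  rwa [h2] at h1

/-- differences of entry points are never in the cone -/
theorem FS.avoid {R D : Set E} (hR : OC R) (h : FS R D) {q c q' c' : E} (hc : c ∈ R)
    (hc' : c' ∈ R) : (q' + en D q' c' • c') - (q + en D q c • c) ∉ R := by
  intro hr
  obtain ⟨ε, hε, hεR⟩ := hR.sub_small hr c'
  have h1 := h.add_mem hR (q := q) hc hεR
  have h2 : q + en D q c • c + (q' + en D q' c' • c' - (q + en D q c • c) - ε • c') =
      q' + (en D q' c' - ε) • c' := by module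
  rw [h2] at h1
  have h3 := h.le_of_mem hR hc' h1
  linarith

/-- entry times are Lipschitz -/
theorem FS.lip {R D : Set E} (hR : OC R) (h : FS R D) {q c q' c' : E} (hc : c ∈ R) {κ : ℝ}
    (hκ : 0 < κ) (hc' : closedBall c' κ ⊆ R) :
    en D q' c' ≤ en D q c + (‖q - q'‖ + |en D q c| * ‖c - c'‖) / κ := by
  refine le_of_forall_pos_le_add fun ε hε => ?_
  have hcR : c' ∈ R := hc' (mem_closedBall_self hκ.le)
  obtain ⟨δ, hδ0, hδ⟩ : ∃ δ : ℝ, 0 < δ ∧ 2 * δ + δ * ‖c - c'‖ / κ ≤ ε := by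
    refine ⟨ε / (2 + ‖c - c'‖ / κ), by positivity, ?_⟩
    have : 2 * (ε / (2 + ‖c - c'‖ / κ)) + (ε / (2 + ‖c - c'‖ / κ)) * ‖c - c'‖ / κ =
        (ε / (2 + ‖c - c'‖ / κ)) * (2 + ‖c - c'‖ / κ) := by ring
    rw [this, div_mul_cancel₀ _ (by positivity)]
  obtain ⟨s, hs⟩ : ∃ s, s = en D q c + δ := ⟨_, rfl⟩
  have hsD : q + s • c ∈ D := h.mem_of_lt hR hc (by linarith)
  obtain ⟨η, hη⟩ : ∃ η, η = (‖q - q'‖ + |s| * ‖c - c'‖) / κ + δ := ⟨_, rfl⟩
  have hη0 : 0 < η := by rw [hη]; positivity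
  have hu : ‖(q' - q) + s • (c' - c)‖ ≤ η * κ := by
    have h1 : ‖(q' - q) + s • (c' - c)‖ ≤ ‖q - q'‖ + |s| * ‖c - c'‖ := by
      refine (norm_add_le _ _).trans ?_
      rw [norm_smul, Real.norm_eq_abs, norm_sub_rev q', norm_sub_rev c']
    have h2 : η * κ = ‖q - q'‖ + |s| * ‖c - c'‖ + δ * κ := by
      rw [hη, add_mul, div_mul_cancel₀ _ hκ.ne']
    rw [h2]
    have : 0 ≤ δ * κ := by positivity
    linarith
  have h3 := h.add _ hsD _ (hR.absorb hc' hη0 hu)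
  have h4 : q + s • c + (η • c' + (q' - q + s • (c' - c))) = q' + (s + η) • c' := by module
  rw [h4] at h3
  have h5 := h.le_of_mem hR hcR h3
  have h6 : |s| ≤ |en D q c| + δ := by
    rw [hs]
    refine (abs_add_le _ _).trans ?_
    rw [abs_of_pos hδ0]
  have h7 : (‖q - q'‖ + |s| * ‖c - c'‖) / κ ≤
      (‖q - q'‖ + |en D q c| * ‖c - c'‖) / κ + δ * ‖c - c'‖ / κ := by
    rw [← add_div, div_le_div_iff_of_pos_right hκ]
    have := mul_le_mul_of_nonneg_right h6 (norm_nonneg (c - c'))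
    rw [add_mul] at this
    linarith
  linarith

theorem FS.abs_lip {R D : Set E} (hR : OC R) (h : FS R D) {q c q' c' : E} {κ B : ℝ}
    (hκ : 0 < κ) (hc : closedBall c κ ⊆ R) (hc' : closedBall c' κ ⊆ R)
    (hB : |en D q c| ≤ B) (hB' : |en D q' c'| ≤ B) :
    |en D q c - en D q' c'| ≤ (‖q - q'‖ + B * ‖c - c'‖) / κ := by
  have h1 := h.lip hR (q := q) (q' := q') (hc (mem_closedBall_self hκ.le)) hκ hc'
  have h2 := h.lip hR (q := q') (q' := q) (hc' (mem_closedBall_self hκ.le)) hκ hc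
  have h3 : (‖q - q'‖ + |en D q c| * ‖c - c'‖) / κ ≤ (‖q - q'‖ + B * ‖c - c'‖) / κ := by gcongr
  have h4 : (‖q' - q‖ + |en D q' c'| * ‖c' - c‖) / κ ≤ (‖q - q'‖ + B * ‖c - c'‖) / κ := by
    rw [norm_sub_rev q', norm_sub_rev c']; gcongr
  rw [abs_le]
  constructor <;> linarith

theorem dt_zero_of_avoid [FiniteDimensional ℝ E] {R : Set E} (hR : OC R) {g : E → E} {A : E →L[ℝ] E} {q : E}
    (hg : HasFDerivAt g (A + ContinuousLinearMap.id ℝ E) q)
    (hav : ∀ᶠ q' in 𝓝 q, g q' - g q ∉ R) : dt A = 0 := by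
  by_contra hne
  have h1 : LinearMap.det ((ContinuousLinearMap.id ℝ E + A : E →L[ℝ] E) : E →ₗ[ℝ] E) ≠ 0 := hne
  have h2 : Function.Surjective ((ContinuousLinearMap.id ℝ E + A : E →L[ℝ] E) : E →ₗ[ℝ] E) :=
    (LinearMap.equivOfDetNeZero _ h1).surjective
  obtain ⟨r, hr⟩ := hR.ne
  obtain ⟨v, hv⟩ := h2 r
  have hv' : (A + ContinuousLinearMap.id ℝ E) v = r := by rw [add_comm]; exact hv
  -- difference quotients
  have h3 : HasDerivAt (fun t : ℝ => g (q + t • v)) r 0 := by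
    have hl : HasDerivAt (fun t : ℝ => q + t • v) v 0 := by
      have := ((hasDerivAt_id (0 : ℝ)).smul_const v).const_add q
      simpa using this
    have hg' : HasFDerivAt g (A + ContinuousLinearMap.id ℝ E) (q + (0 : ℝ) • v) := by
      rwa [zero_smul, add_zero]
    have := hg'.comp_hasDerivAt (0 : ℝ) hl
    rwa [hv'] at this
  have h4 := (hasDerivAt_iff_tendsto_slope.1 h3)
  have h5 : ∀ᶠ t in 𝓝[≠] (0 : ℝ), slope (fun t : ℝ => g (q + t • v)) 0 t ∈ R :=
    h4.eventually (hR.op.mem_nhds hr)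
  have h6 : ∀ᶠ t in 𝓝[≠] (0 : ℝ), g (q + t • v) - g q ∉ R := by
    have hc : Tendsto (fun t : ℝ => q + t • v) (𝓝[≠] 0) (𝓝 q) := by
      have : ContinuousAt (fun t : ℝ => q + t • v) 0 :=
        (continuous_const.add (continuous_id.smul continuous_const)).continuousAt
      have h7 : Tendsto (fun t : ℝ => q + t • v) (𝓝 0) (𝓝 (q + (0 : ℝ) • v)) := this
      rw [zero_smul, add_zero] at h7
      exact h7.mono_left nhdsWithin_le_nhds
    exact hc.eventually hav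
  have h7 : ∀ᶠ t in 𝓝[>] (0 : ℝ), slope (fun t : ℝ => g (q + t • v)) 0 t ∈ R ∧
      g (q + t • v) - g q ∉ R :=
    (h5.and h6).filter_mono (nhdsWithin_mono _ fun t ht => ne_of_gt ht)
  obtain ⟨t, ⟨ht1, ht2⟩, ht0⟩ := (h7.and self_mem_nhdsWithin).exists
  apply ht2
  have ht0' : 0 < t := ht0
  have h8 := hR.sm _ ht1 t ht0'
  rw [slope_def_module, sub_zero, smul_smul, mul_inv_cancel₀ ht0'.ne', one_smul, zero_smul,
    add_zero] at h8
  exact h8

end cone

end Pool.Agent.W689.Mk
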