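import Pool.Agent.W689.Mk.Cone

set_option autoImplicit false

open Set Filter Topology Metric

namespace Pool.Agent.W689.Mk

section
variable {X Γ E : Type} [TopologicalSpace X] [T2Space X] [Group Γ] [MulAction Γ X]
  [NormedAddCommGroup E] [NormedSpace ℝ E] [FiniteDimensional ℝ E]
  {dev : X → E} {hol : Γ →* (E ≃ᵃ[ℝ] E)}

omit [T2Space X] [FiniteDimensional ℝ E] in
/-- local Lipschitz continuity of entry times -/
theorem en_ll (hdev : Continuous dev) {R D : Set E} (hR : OC R) (h : FS R D) {c : X → E}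
    (hcc : Continuous c) (hcL : LL dev c) (hcR : ∀ x, c x ∈ R) :
    ∀ x, ∃ U ∈ 𝓝 x, ∃ L : ℝ, 0 ≤ L ∧ ∀ y ∈ U, ∀ z ∈ U,
      |en D (dev y) (c y) - en D (dev z) (c z)| ≤ L * ‖dev y - dev z‖ := by
  intro x
  obtain ⟨U1, hU1, L1, hL1, H1⟩ := hcL x
  obtain ⟨κ, hκ, hκR⟩ := hR.exists_ball (hcR x)
  obtain ⟨q1, hq1⟩ := (ne_univ_iff_exists_notMem D).1 h.nu
  have h2 : ∀ᶠ y in 𝓝 x, c y ∈ ball (c x) κ :=
    hcc.continuousAt.eventually (isOpen_ball.mem_nhds (mem_ball_self hκ))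
  have hball : ∀ y, c y ∈ ball (c x) κ → closedBall (c y) κ ⊆ R := by
    intro y hy q hq
    apply hκR
    rw [mem_ball] at hy
    rw [mem_closedBall] at hq ⊢
    have := dist_triangle q (c y) (c x)
    linarith
  -- upper bound
  obtain ⟨s1, hs1⟩ := h.nonempty hR (dev x) (hcR x)
  have h3 : ∀ᶠ y in 𝓝 x, dev y + (s1 + 1) • c y - (dev x + s1 • c x) ∈ R := by
    have hc : Continuous fun y => dev y + (s1 + 1) • c y - (dev x + s1 • c x) :=
      (hdev.add (hcc.const_smul _)).sub continuous_const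
    refine hc.continuousAt.eventually (hR.op.mem_nhds ?_)
    show dev x + (s1 + 1) • c x - (dev x + s1 • c x) ∈ R
    have : dev x + (s1 + 1) • c x - (dev x + s1 • c x) = c x := by module
    rw [this]; exact hcR x
  have h4 : ∀ᶠ y in 𝓝 x, dev y ∈ ball (dev x) 1 :=
    hdev.continuousAt.eventually (isOpen_ball.mem_nhds (mem_ball_self one_pos))
  obtain ⟨B, hB⟩ : ∃ B : ℝ, B = |s1 + 1| + (‖q1 - dev x‖ + 1) / κ := ⟨_, rfl⟩
  have hB0 : 0 ≤ B := by rw [hB]; positivity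
  have hbd : ∀ y, c y ∈ ball (c x) κ → dev y + (s1 + 1) • c y - (dev x + s1 • c x) ∈ R →
      dev y ∈ ball (dev x) 1 → |en D (dev y) (c y)| ≤ B := by
    intro y hy1 hy2 hy3
    have hmem : dev y + (s1 + 1) • c y ∈ D := by
      have h5 := h.add _ hs1 _ hy2
      rwa [add_sub_cancel] at h5
    have hup := h.le_of_mem hR (hcR y) hmem
    have hlow : -((‖q1 - dev x‖ + 1) / κ) ≤ en D (dev y) (c y) := by
      refine le_csInf (h.nonempty hR _ (hcR y)) fun s hs => ?_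
      refine le_trans ?_ (h.bdd' hR hκ (hball y hy1) hq1 hs)
      rw [neg_le_neg_iff]
      rw [mem_ball, dist_eq_norm] at hy3
      have h6 : ‖q1 - dev y‖ ≤ ‖q1 - dev x‖ + 1 := by
        have := norm_sub_le (q1 - dev x) (dev y - dev x)
        have e : q1 - dev x - (dev y - dev x) = q1 - dev y := by abel
        rw [e] at this
        linarith
      gcongr
    rw [hB, abs_le]
    have h7 := le_abs_self (s1 + 1)
    have h8 : 0 ≤ (‖q1 - dev x‖ + 1) / κ := by positivity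
    have h9 : 0 ≤ |s1 + 1| := abs_nonneg _
    constructor <;> linarith
  refine ⟨U1 ∩ {y | c y ∈ ball (c x) κ} ∩ {y | dev y + (s1 + 1) • c y - (dev x + s1 • c x) ∈ R} ∩
    {y | dev y ∈ ball (dev x) 1}, inter_mem (inter_mem (inter_mem hU1 h2) h3) h4,
    (1 + B * L1) / κ, by positivity, ?_⟩
  rintro y ⟨⟨⟨hy1, hy2⟩, hy3⟩, hy4⟩ z ⟨⟨⟨hz1, hz2⟩, hz3⟩, hz4⟩
  have h5 := h.abs_lip hR (q := dev y) (q' := dev z) hκ (hball y hy2) (hball z hz2)
    (hbd y hy2 hy3 hy4) (hbd z hz2 hz3 hz4)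
  refine h5.trans ?_
  rw [div_mul_eq_mul_div]
  have h6 : B * ‖c y - c z‖ ≤ B * (L1 * ‖dev y - dev z‖) := by
    gcongr; exact H1 y hy1 z hz1
  gcongr
  linarith

/-- with an invariant open cone, future sets are trivial -/
theorem cone_univ (D : AffData X Γ E dev hol) [SecondCountableTopology X] [Nonempty X]
    {R : Set E} (hR : OC R) (hRi : ∀ (γ : Γ), ∀ v ∈ R, lin hol γ v ∈ R) {C : Set E}
    (hne : C.Nonempty) (hinv : ∀ (γ : Γ), ∀ p ∈ C, hol γ p ∈ C)
    (hadd : ∀ p ∈ C, ∀ r ∈ R, p + r ∈ C) : C = univ := by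
  by_contra hnu
  have h : FS R C := ⟨hadd, hne, hnu⟩
  obtain ⟨ρ, hρ⟩ := exists_wt D
  obtain ⟨c0, hc0⟩ := hR.ne
  obtain ⟨c, hc⟩ : ∃ c : X → E, c = av ρ (fun γ : Γ => lin hol γ⁻¹ c0) := ⟨_, rfl⟩
  have hcL : LL dev c := by rw [hc]; exact av_ll D hρ _
  have hcc := hcL.continuous D.loc.continuous
  have hcR : ∀ x, c x ∈ R := by
    intro x; rw [hc]; exact av_mem hρ hR.cv (fun γ => hRi _ _ hc0) x
  have hce : ∀ (γ : Γ) x, c (γ • x) = lin hol γ (c x) := by
    intro γ x; rw [hc]; exact av_lin hρ c0 γ x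
  have hτL : LL dev fun x => en C (dev x) (c x) := en_ll D.loc.continuous hR h hcc hcL hcR
  have hτe : ∀ (γ : Γ) x, en C (dev (γ • x)) (c (γ • x)) = en C (dev x) (c x) := by
    intro γ x
    have key : ∀ s : ℝ, dev (γ • x) + s • c (γ • x) = hol γ (dev x + s • c x) := by
      intro s
      rw [hol_add, D.equi, hce]
      congr 1
      exact ((hol γ).linear.map_smul s (c x)).symm
    have h1 : Tm C (dev (γ • x)) (c (γ • x)) = Tm C (dev x) (c x) := by
      ext s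
      show _ ∈ C ↔ _ ∈ C
      rw [key]
      refine ⟨fun h => ?_, fun h => hinv γ _ h⟩
      have := hinv γ⁻¹ _ h
      rwa [hol_inv_apply] at this
    show sInf _ = sInf _
    rw [h1]
  refine principle D (Z := fun x => en C (dev x) (c x) • c x) ⟨hτL.smul D.loc.continuous hcL,
    fun γ x => ?_⟩ fun U σ hσ q hq A hA => ?_
  · beta_reduce
    rw [hτe, hce]
    exact ((hol γ).linear.map_smul _ (c x)).symm
  · refine dt_zero_of_avoid hR (g := fun q' => en C (dev (σ q')) (c (σ q')) • c (σ q') + q')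
      (q := q) (hA.add (hasFDerivAt_id q)) ?_
    filter_upwards [hσ.isOpen.mem_nhds hq] with q' hq'
    have h1 := h.avoid hR (q := dev (σ q)) (q' := dev (σ q')) (hcR (σ q)) (hcR (σ q'))
    rw [hσ.inv q hq, hσ.inv q' hq'] at h1
    rw [hσ.inv q hq, hσ.inv q' hq', add_comm, add_comm _ q]
    exact h1

end

end Pool.Agent.W689.Mk
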