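import Pool.Agent.W689.Mk.Cone2

set_option autoImplicit false

open Set Filter Topology Metric

namespace Pool.Agent.W689.Mk

section one
variable {X E : Type} [TopologicalSpace X] [T2Space X] [NormedAddCommGroup E] [NormedSpace ℝ E]
  {dev : X → E} {R : Set E}

/-- all directions of the cone are complete at the point -/
def Fut (dev : X → E) (R : Set E) (y : X) : Prop := ∀ v ∈ R, ∃ z, Ex dev y v z

/-- points in the future of a future complete point -/
def Ou (dev : X → E) (R : Set E) : Set X := {y | ∃ x w, Fut dev R x ∧ w ∈ R ∧ Ex dev x w y}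

/-- common futures -/
def Sim (dev : X → E) (R : Set E) (y z : X) : Prop :=
  ∃ w ∈ R, ∃ w' ∈ R, ∃ u, Ex dev y w u ∧ Ex dev z w' u

omit [T2Space X] in
theorem Sim.symm {y z : X} (h : Sim dev R y z) : Sim dev R z y := by
  obtain ⟨w, hw, w', hw', u, h1, h2⟩ := h
  exact ⟨w', hw', w, hw, u, h2, h1⟩

theorem Sim.eq (hloc : IsLocalHomeomorph dev) {y z : X} (h : Sim dev R y z)
    (hd : dev y = dev z) : y = z := by
  obtain ⟨w, hw, w', hw', u, h1, h2⟩ := h
  have h3 := h1.dev_eq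
  have h4 := h2.dev_eq
  rw [hd] at h3
  have h5 : w = w' := add_left_cancel (h3.symm.trans h4)
  rw [← h5] at h2
  exact h1.symm.unique hloc h2.symm

/-- composing motions inside the future -/
theorem Fut.step (hloc : IsLocalHomeomorph dev) (hR : OC R) {y : X} (hy : Fut dev R y) {v v' : E}
    (hv : v ∈ R) (hv' : v' ∈ R) {z : X} (hz : Ex dev y v z) :
    ∃ z', Ex dev z v' z' ∧ Ex dev y (v + v') z' := by
  obtain ⟨σ, hσ, hσE⟩ := sec_of_Ex hloc hR.op hR.cv hy
  have h1 : z = σ (dev y + v) := hz.unique hloc (hσE v hv)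
  have h2 := hσE (v + v') (hR.add hv hv')
  refine ⟨_, ?_, h2⟩
  rw [h1, ← add_assoc]
  refine hσ.Ex ?_ ?_
  · show dev y + v - dev y ∈ R
    rwa [add_sub_cancel_left]
  · show dev y + v + v' - dev y ∈ R
    have : dev y + v + v' - dev y = v + v' := by abel
    rw [this]; exact hR.add hv hv'

theorem Ou.fut (hloc : IsLocalHomeomorph dev) (hR : OC R) {y : X} (hy : y ∈ Ou dev R) :
    Fut dev R y := by
  obtain ⟨x, w, hx, hw, h⟩ := hy
  intro v hv
  obtain ⟨z, hz, -⟩ := hx.step hloc hR hw hv h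
  exact ⟨z, hz⟩

theorem Fut.ou {y : X} (hy : Fut dev R y) {v : E} (hv : v ∈ R) {z : X} (hz : Ex dev y v z) :
    z ∈ Ou dev R := ⟨y, v, hy, hv, hz⟩

theorem Ou.isOpen (hloc : IsLocalHomeomorph dev) (hR : OC R) : IsOpen (Ou dev R) := by
  rw [isOpen_iff_mem_nhds]
  rintro y ⟨x, w, hx, hw, h⟩
  obtain ⟨σ, hσ, hσE⟩ := sec_of_Ex hloc hR.op hR.cv hx
  have h1 : y = σ (dev x + w) := h.unique hloc (hσE w hw)
  have hop := hσ.isOpen_image hloc hσ.isOpen Subset.rfl
  have hy : y ∈ σ '' ((fun q => q - dev x) ⁻¹' R) := by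
    refine ⟨dev x + w, ?_, h1.symm⟩
    show dev x + w - dev x ∈ R
    rwa [add_sub_cancel_left]
  filter_upwards [hop.mem_nhds hy] with z hz
  obtain ⟨q, hq, rfl⟩ := hz
  have h2 := hσE (q - dev x) hq
  rw [add_sub_cancel] at h2
  exact ⟨x, q - dev x, hx, hq, h2⟩

theorem Sim.trans (hloc : IsLocalHomeomorph dev) (hR : OC R) {y z t : X} (hy : Fut dev R y)
    (hz : Fut dev R z) (ht : Fut dev R t) (h1 : Sim dev R y z) (h2 : Sim dev R z t) :
    Sim dev R y t := by
  obtain ⟨w1, hw1, w2, hw2, u, a1, a2⟩ := h1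
  obtain ⟨w3, hw3, w4, hw4, u', b1, b2⟩ := h2
  obtain ⟨p, hp1, hp2⟩ := hz.step hloc hR hw2 hw3 a2
  obtain ⟨q, hq1, hq2⟩ := hz.step hloc hR hw3 hw2 b1
  have hpq : p = q := by
    rw [add_comm] at hq2
    exact hp2.unique hloc hq2
  obtain ⟨p', hp1', hp2'⟩ := hy.step hloc hR hw1 hw3 a1
  obtain ⟨q', hq1', hq2'⟩ := ht.step hloc hR hw4 hw2 b2
  have e1 : p' = p := hp1'.unique hloc hp1
  have e2 : q' = q := hq1'.unique hloc hq1
  exact ⟨w1 + w3, hR.add hw1 hw3, w4 + w2, hR.add hw4 hw2, p, e1 ▸ hp2', by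
    rw [hpq, ← e2]; exact hq2'⟩

theorem Sim.refl (hR : OC R) {y : X} (hy : Fut dev R y) : Sim dev R y y := by
  obtain ⟨w, hw⟩ := hR.ne
  obtain ⟨z, hz⟩ := hy w hw
  exact ⟨w, hw, w, hw, z, hz, hz⟩

/-- nearby points have common futures -/
theorem loc_sim (hloc : IsLocalHomeomorph dev) (hR : OC R) (x : X) :
    ∃ U ∈ 𝓝 x, ∀ y ∈ U, ∀ z ∈ U, Sim dev R y z := by
  obtain ⟨c, hc⟩ := hR.ne
  obtain ⟨κ, hκ, hκR⟩ := hR.exists_ball hc
  obtain ⟨e, r, hxe, he, hr, hrt⟩ := exists_sec hloc x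
  have hsec := sec_of_target e he (dev x) r hrt
  have hex : e.symm (dev x) = x := by rw [he]; exact e.left_inv hxe
  obtain ⟨δ, hδ⟩ : ∃ δ : ℝ, δ = r / (4 * (‖c‖ + 1)) := ⟨_, rfl⟩
  have hδ0 : 0 < δ := by rw [hδ]; positivity
  have hδc : δ * ‖c‖ < r / 2 := by
    have h1 : δ * (‖c‖ + 1) = r / 4 := by rw [hδ]; field_simp
    nlinarith [norm_nonneg c]
  have hr' : 0 < min (r / 2) (δ * κ / 2) := by positivity
  have hop := hsec.isOpen_image hloc (V := ball (dev x) (min (r / 2) (δ * κ / 2))) isOpen_ball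
    (ball_subset_ball ((min_le_left _ _).trans (by linarith)))
  refine ⟨_, hop.mem_nhds ⟨dev x, mem_ball_self hr', hex⟩, ?_⟩
  rintro _ ⟨q, hq, rfl⟩ _ ⟨q', hq', rfl⟩
  have hq1 : dist q (dev x) < r / 2 := hq.trans_le (min_le_left _ _)
  have hq2 : dist q (dev x) < δ * κ / 2 := hq.trans_le (min_le_right _ _)
  have hq1' : dist q' (dev x) < r / 2 := hq'.trans_le (min_le_left _ _)
  have hq2' : dist q' (dev x) < δ * κ / 2 := hq'.trans_le (min_le_right _ _)
  have hqB : q ∈ ball (dev x) r := by rw [mem_ball]; linarith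
  have hqB' : q' ∈ ball (dev x) r := by rw [mem_ball]; linarith
  have hm : q + δ • c ∈ ball (dev x) r := by
    rw [mem_ball]
    have h1 : dist (q + δ • c) q = δ * ‖c‖ := by
      rw [dist_eq_norm, add_sub_cancel_left, norm_smul, Real.norm_eq_abs, abs_of_pos hδ0]
    have := dist_triangle (q + δ • c) q (dev x)
    linarith
  have hw' : δ • c + (q - q') ∈ R := by
    refine hR.absorb (κ := κ) ((closedBall_subset_closedBall (by linarith)).trans hκR) hδ0 ?_
    have := dist_triangle q (dev x) q'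
    rw [dist_comm (dev x) q', dist_eq_norm q q'] at this
    linarith
  refine ⟨δ • c, hR.sm c hc δ hδ0, δ • c + (q - q'), hw', e.symm (q + δ • c), hsec.Ex hqB hm, ?_⟩
  have h3 : q' + (δ • c + (q - q')) = q + δ • c := by abel
  have h4 := hsec.Ex hqB' (v := δ • c + (q - q')) (by rwa [h3])
  rwa [h3] at h4

/-- the developed domain of a class -/
def Dm (dev : X → E) (R : Set E) (y : X) : Set E := {p | ∃ z ∈ Ou dev R, Sim dev R y z ∧ dev z = p}

theorem Dm.self (hloc : IsLocalHomeomorph dev) (hR : OC R) {y : X} (hy : y ∈ Ou dev R) :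
    dev y ∈ Dm dev R y := ⟨y, hy, Sim.refl hR (Ou.fut hloc hR hy), rfl⟩

theorem Dm.add (hloc : IsLocalHomeomorph dev) (hR : OC R) {y : X} (hy : y ∈ Ou dev R) :
    ∀ p ∈ Dm dev R y, ∀ r ∈ R, p + r ∈ Dm dev R y := by
  rintro _ ⟨z, hz, hyz, rfl⟩ r hr
  have hyf := Ou.fut hloc hR hy
  have hzf := Ou.fut hloc hR hz
  obtain ⟨z', hz'⟩ := hzf r hr
  have hz'O : z' ∈ Ou dev R := hzf.ou hr hz'
  refine ⟨z', hz'O, ?_, hz'.dev_eq⟩
  refine hyz.trans hloc hR hyf hzf (Ou.fut hloc hR hz'O) ?_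
  obtain ⟨u, hu1, hu2⟩ := hzf.step hloc hR hr hr hz'
  exact ⟨r + r, hR.add hr hr, r, hr, u, hu2, hu1⟩

theorem Dm.congr (hloc : IsLocalHomeomorph dev) (hR : OC R) {y z : X} (hy : y ∈ Ou dev R)
    (hz : z ∈ Ou dev R) (h : Sim dev R y z) : Dm dev R y = Dm dev R z := by
  have hyf := Ou.fut hloc hR hy
  have hzf := Ou.fut hloc hR hz
  ext p
  constructor
  · rintro ⟨t, ht, h1, rfl⟩
    exact ⟨t, ht, h.symm.trans hloc hR hzf hyf (Ou.fut hloc hR ht) h1, rfl⟩
  · rintro ⟨t, ht, h1, rfl⟩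
    exact ⟨t, ht, h.trans hloc hR hyf hzf (Ou.fut hloc hR ht) h1, rfl⟩

/-- near a point the class is detected by the developed domain -/
theorem Dm.detect (hloc : IsLocalHomeomorph dev) (hR : OC R) {y x : X} (hy : y ∈ Ou dev R)
    (hyx : Sim dev R y x) (hx : dev x ∈ Dm dev R y) : x ∈ Ou dev R := by
  obtain ⟨z, hz, hyz, hzx⟩ := hx
  obtain ⟨w, hw, w', hw', u, h1, h2⟩ := hyx
  have hyf := Ou.fut hloc hR hy
  have hzf := Ou.fut hloc hR hz
  obtain ⟨u', hu'⟩ := hzf w' hw'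
  have huO : u ∈ Ou dev R := hyf.ou hw h1
  have huO' : u' ∈ Ou dev R := hzf.ou hw' hu'
  have huf := Ou.fut hloc hR huO
  have huf' := Ou.fut hloc hR huO'
  have s1 : Sim dev R y u := by
    obtain ⟨p, hp1, hp2⟩ := hyf.step hloc hR hw hw h1
    exact ⟨w + w, hR.add hw hw, w, hw, p, hp2, hp1⟩
  have s2 : Sim dev R z u' := by
    obtain ⟨p, hp1, hp2⟩ := hzf.step hloc hR hw' hw' hu'
    exact ⟨w' + w', hR.add hw' hw', w', hw', p, hp2, hp1⟩
  have s3 : Sim dev R u u' :=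
    (s1.symm.trans hloc hR huf hyf hzf hyz).trans hloc hR huf hzf huf' s2
  have hdev : dev u = dev u' := by rw [h2.dev_eq, hu'.dev_eq, hzx]
  have huu : u = u' := s3.eq hloc hdev
  rw [← huu] at hu'
  have : z = x := hu'.symm.unique hloc h2.symm
  rwa [← this]

/-- if the class fills the affine space, the structure is complete -/
theorem Dm.complete [PreconnectedSpace X] (hloc : IsLocalHomeomorph dev) (hR : OC R) {y : X}
    (hy : y ∈ Ou dev R) (hu : Dm dev R y = univ) : IsHomeomorph dev := by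
  have hyf := Ou.fut hloc hR hy
  have hex : ∀ p, ∃ z ∈ Ou dev R, Sim dev R y z ∧ dev z = p := by
    intro p
    have : p ∈ Dm dev R y := by rw [hu]; trivial
    exact this
  choose s hsO hsS hsd using hex
  have huniq : ∀ z ∈ Ou dev R, Sim dev R y z → s (dev z) = z := by
    intro z hz hyz
    refine Sim.eq hloc (R := R) ?_ (hsd _)
    exact (hsS _).symm.trans hloc hR (Ou.fut hloc hR (hsO _)) hyf (Ou.fut hloc hR hz) hyz
  have hsc : Continuous s := by
    rw [continuous_iff_continuousAt]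
    intro p
    obtain ⟨U, hU, HU⟩ := loc_sim hloc hR (s p)
    obtain ⟨e, r, hxe, he, hr, hrt⟩ := exists_sec hloc (s p)
    rw [hsd] at hrt
    have hsec := sec_of_target e he p r hrt
    have hexp : e.symm p = s p := by
      have := e.left_inv hxe
      rw [← he, hsd] at this
      exact this
    have hc : ContinuousAt e.symm p :=
      (hsec.cont p (mem_ball_self hr)).continuousAt (isOpen_ball.mem_nhds (mem_ball_self hr))
    have h1 : ∀ᶠ p' in 𝓝 p, e.symm p' ∈ U ∩ Ou dev R := by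
      refine hc.eventually ?_
      rw [hexp]
      exact inter_mem hU ((Ou.isOpen hloc hR).mem_nhds (hsO p))
    refine hc.congr ?_
    filter_upwards [h1, isOpen_ball.mem_nhds (mem_ball_self hr)] with p' hp' hpb
    have h2 : Sim dev R y (e.symm p') :=
      (hsS p).trans hloc hR hyf (Ou.fut hloc hR (hsO p)) (Ou.fut hloc hR hp'.2)
        (HU _ (mem_of_mem_nhds hU) _ hp'.1)
    have h3 := huniq _ hp'.2 h2
    rw [hsec.inv p' hpb] at h3
    exact h3.symm
  refine homeo_of_all hloc (x := y) fun v => ?_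
  refine Geod.ex hloc ⟨fun t => s (dev y + t • v), ?_, ?_, fun t _ => hsd _⟩
  · exact (hsc.comp (continuous_const.add (continuous_id.smul continuous_const))).continuousOn
  · show s (dev y + (0 : ℝ) • v) = y
    rw [zero_smul, add_zero]
    exact huniq y hy (Sim.refl hR hyf)

end one

section two
variable {X Γ E : Type} [TopologicalSpace X] [T2Space X] [Group Γ] [MulAction Γ X]
  [NormedAddCommGroup E] [NormedSpace ℝ E] [FiniteDimensional ℝ E]
  {dev : X → E} {hol : Γ →* (E ≃ᵃ[ℝ] E)} {R : Set E}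

theorem Fut.smul (D : AffData X Γ E dev hol) (hRi : ∀ (γ : Γ), ∀ v ∈ R, lin hol γ v ∈ R) (γ : Γ)
    {y : X} (hy : Fut dev R y) : Fut dev R (γ • y) := by
  intro v hv
  obtain ⟨z, hz⟩ := hy _ (hRi γ⁻¹ v hv)
  have h1 := D.Ex_smul γ hz
  have h2 := lin_inv_apply (hol := hol) γ⁻¹ v
  rw [inv_inv] at h2
  rw [h2] at h1
  exact ⟨_, h1⟩

theorem Ou.smul (D : AffData X Γ E dev hol) (hRi : ∀ (γ : Γ), ∀ v ∈ R, lin hol γ v ∈ R) (γ : Γ)
    {y : X} (hy : y ∈ Ou dev R) : γ • y ∈ Ou dev R := by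
  obtain ⟨x, w, hx, hw, h⟩ := hy
  exact ⟨γ • x, lin hol γ w, hx.smul D hRi γ, hRi γ w hw, D.Ex_smul γ h⟩

theorem Sim.smul (D : AffData X Γ E dev hol) (hRi : ∀ (γ : Γ), ∀ v ∈ R, lin hol γ v ∈ R) (γ : Γ)
    {y z : X} (h : Sim dev R y z) : Sim dev R (γ • y) (γ • z) := by
  obtain ⟨w, hw, w', hw', u, h1, h2⟩ := h
  exact ⟨_, hRi γ w hw, _, hRi γ w' hw', γ • u, D.Ex_smul γ h1, D.Ex_smul γ h2⟩

theorem Dm.smul (D : AffData X Γ E dev hol) (hRi : ∀ (γ : Γ), ∀ v ∈ R, lin hol γ v ∈ R) (γ : Γ)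
    {y : X} {p : E} (hp : p ∈ Dm dev R y) : hol γ p ∈ Dm dev R (γ • y) := by
  obtain ⟨z, hz, h, rfl⟩ := hp
  exact ⟨γ • z, Ou.smul D hRi γ hz, Sim.smul D hRi γ h, D.equi γ z⟩

/-- one point with complete cone -/
theorem cone_complete (D : AffData X Γ E dev hol) [SecondCountableTopology X]
    [PreconnectedSpace X] (hR : OC R) (hRi : ∀ (γ : Γ), ∀ v ∈ R, lin hol γ v ∈ R) {x0 : X}
    (hx0 : Fut dev R x0) : IsHomeomorph dev := by
  classical
  by_cases hcomp : ∃ y ∈ Ou dev R, Dm dev R y = univ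
  · obtain ⟨y, hy, hu⟩ := hcomp
    exact Dm.complete D.loc hR hy hu
  exfalso
  push Not at hcomp
  have : Nonempty X := ⟨x0⟩
  have hFS : ∀ y ∈ Ou dev R, FS R (Dm dev R y) := fun y hy =>
    ⟨Dm.add D.loc hR hy, ⟨_, Dm.self D.loc hR hy⟩, hcomp y hy⟩
  obtain ⟨ρ, hρ⟩ := exists_wt D
  obtain ⟨c0, hc0⟩ := hR.ne
  obtain ⟨c, hc⟩ : ∃ c : X → E, c = av ρ (fun γ : Γ => lin hol γ⁻¹ c0) := ⟨_, rfl⟩
  have hcL : LL dev c := by rw [hc]; exact av_ll D hρ _
  have hcc := hcL.continuous D.loc.continuous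
  have hcR : ∀ x, c x ∈ R := by
    intro x; rw [hc]; exact av_mem hρ hR.cv (fun γ => hRi _ _ hc0) x
  have hce : ∀ (γ : Γ) x, c (γ • x) = lin hol γ (c x) := by
    intro γ x; rw [hc]; exact av_lin hρ c0 γ x
  obtain ⟨Z, hZ⟩ : ∃ Z : X → E, Z = fun x => if x ∈ Ou dev R then
      en (Dm dev R x) (dev x) (c x) • c x else 0 := ⟨_, rfl⟩
  have hZin : ∀ x ∈ Ou dev R, Z x = en (Dm dev R x) (dev x) (c x) • c x := by
    intro x hx; rw [hZ]; exact if_pos hx
  have hZout : ∀ x, x ∉ Ou dev R → Z x = 0 := by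
    intro x hx; rw [hZ]; exact if_neg hx
  have hZL : LL dev Z := by
    refine LL.of_local fun x => ?_
    obtain ⟨U, hU, HU⟩ := loc_sim D.loc hR x
    by_cases hUO : ∃ y ∈ U, y ∈ Ou dev R
    · obtain ⟨y0, hy0U, hy0⟩ := hUO
      have hF := hFS y0 hy0
      have h1 : LL dev fun y => en (Dm dev R y0) (dev y) (c y) :=
        en_ll D.loc.continuous hR hF hcc hcL hcR
      have h2 : LL dev fun y => min (en (Dm dev R y0) (dev y) (c y)) 0 := by
        intro z
        obtain ⟨V, hV, L, hL, H⟩ := h1 z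
        refine ⟨V, hV, L, hL, fun a ha b hb => le_trans ?_ (H a ha b hb)⟩
        rw [Real.norm_eq_abs, Real.norm_eq_abs]
        refine (abs_min_sub_min_le_max _ _ _ _).trans (le_of_eq ?_)
        rw [sub_self, abs_zero]
        exact max_eq_left (abs_nonneg _)
      refine ⟨U, hU, fun y => min (en (Dm dev R y0) (dev y) (c y)) 0 • c y,
        h2.smul D.loc.continuous hcL, fun y hyU => ?_⟩
      by_cases hy : y ∈ Ou dev R
      · have h3 : Dm dev R y = Dm dev R y0 := Dm.congr D.loc hR hy hy0 (HU y hyU y0 hy0U)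
        have h4 : en (Dm dev R y0) (dev y) (c y) ≤ 0 := by
          refine hF.le_of_mem hR (hcR y) ?_
          rw [zero_smul, add_zero, ← h3]
          exact Dm.self D.loc hR hy
        rw [hZin y hy, h3]
        beta_reduce
        rw [min_eq_left h4]
      · have h4 : 0 ≤ en (Dm dev R y0) (dev y) (c y) := by
          by_contra hcon
          push Not at hcon
          have h5 := hF.mem_of_lt hR (hcR y) hcon
          rw [zero_smul, add_zero] at h5
          exact hy (Dm.detect D.loc hR hy0 (HU y0 hy0U y hyU) h5)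
        rw [hZout y hy]
        beta_reduce
        rw [min_eq_right h4, zero_smul]
    · push Not at hUO
      exact ⟨U, hU, fun _ => 0, LL.const 0, fun y hy => hZout y (hUO y hy)⟩
  have hOinv : ∀ (γ : Γ) x, x ∈ Ou dev R → γ • x ∈ Ou dev R := fun γ x hx => Ou.smul D hRi γ hx
  have hZe : ∀ (γ : Γ) x, Z (γ • x) = lin hol γ (Z x) := by
    intro γ x
    by_cases hx : x ∈ Ou dev R
    · rw [hZin _ (hOinv γ x hx), hZin x hx]
      have h1 : Tm (Dm dev R (γ • x)) (dev (γ • x)) (c (γ • x)) =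
          Tm (Dm dev R x) (dev x) (c x) := by
        have key : ∀ s : ℝ, dev (γ • x) + s • c (γ • x) = hol γ (dev x + s • c x) := by
          intro s
          rw [hol_add, D.equi, hce]
          congr 1
          exact ((hol γ).linear.map_smul s (c x)).symm
        ext s
        show dev (γ • x) + s • c (γ • x) ∈ Dm dev R (γ • x) ↔ dev x + s • c x ∈ Dm dev R x
        rw [key]
        refine ⟨fun h => ?_, fun h => Dm.smul D hRi γ h⟩
        have h2 := Dm.smul D hRi γ⁻¹ h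
        rwa [hol_inv_apply, inv_smul_smul] at h2
      have h2 : en (Dm dev R (γ • x)) (dev (γ • x)) (c (γ • x)) =
          en (Dm dev R x) (dev x) (c x) := by
        show sInf _ = sInf _
        rw [h1]
      rw [h2, hce]
      exact ((hol γ).linear.map_smul _ (c x)).symm
    · have hx' : γ • x ∉ Ou dev R := by
        intro h
        have := hOinv γ⁻¹ _ h
        rw [inv_smul_smul] at this
        exact hx this
      rw [hZout x hx, hZout _ hx']
      exact ((hol γ).linear.map_zero).symm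
  obtain ⟨v0, hv0⟩ := hR.ne
  obtain ⟨y0, hy0⟩ := hx0 v0 hv0
  refine principle2 D ⟨hZL, hZe⟩ (Ou.isOpen D.loc hR) ⟨y0, hx0.ou hv0 hy0⟩ hOinv ?_ hZout
  intro U σ hσ q hq hqO A hA
  have hF := hFS _ hqO
  refine dt_zero_of_avoid hR (g := fun q' => Z (σ q') + q') (q := q)
    (hA.add (hasFDerivAt_id q)) ?_
  obtain ⟨V, hV, HV⟩ := loc_sim D.loc hR (σ q)
  have hcσ : ContinuousAt σ q := (hσ.cont q hq).continuousAt (hσ.isOpen.mem_nhds hq)
  have h1 : ∀ᶠ q' in 𝓝 q, σ q' ∈ V ∩ Ou dev R :=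
    hcσ.eventually (inter_mem hV ((Ou.isOpen D.loc hR).mem_nhds hqO))
  filter_upwards [hσ.isOpen.mem_nhds hq, h1] with q' hq' hq'V
  have h3 : Dm dev R (σ q') = Dm dev R (σ q) :=
    Dm.congr D.loc hR hq'V.2 hqO (HV _ hq'V.1 _ (mem_of_mem_nhds hV))
  have h4 := hF.avoid hR (q := dev (σ q)) (q' := dev (σ q')) (hcR (σ q)) (hcR (σ q'))
  rw [hZin _ hqO, hZin _ hq'V.2, h3]
  rw [hσ.inv q hq, hσ.inv q' hq'] at h4 ⊢
  rw [add_comm, add_comm _ q]
  exact h4

end two

end Pool.Agent.W689.Mk
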