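import Pool.Agent.W689.Mk.Av

set_option autoImplicit false

open Set Filter Topology Metric

namespace Pool.Agent.W689.Mk

section convex
variable {E : Type} [NormedAddCommGroup E] [NormedSpace ℝ E]

/-- recession cone -/
def Rc (C : Set E) : Set E := {v | ∀ q ∈ C, q + v ∈ C}

theorem Rc.add {C : Set E} {v w : E} (hv : v ∈ Rc C) (hw : w ∈ Rc C) : v + w ∈ Rc C := by
  intro q hq
  rw [← add_assoc]
  exact hw _ (hv q hq)

theorem Rc.zero (C : Set E) : (0 : E) ∈ Rc C := fun q hq => by rwa [add_zero]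

theorem Rc.nat {C : Set E} {v : E} (hv : v ∈ Rc C) (n : ℕ) : (n : ℝ) • v ∈ Rc C := by
  induction n with
  | zero => simpa using Rc.zero C
  | succ n ih =>
    rw [Nat.cast_succ, add_smul, one_smul]
    exact Rc.add ih hv

theorem Rc.smul {C : Set E} (hC : Convex ℝ C) {v : E} (hv : v ∈ Rc C) {t : ℝ} (ht : 0 ≤ t) :
    t • v ∈ Rc C := by
  intro q hq
  obtain ⟨n, hn⟩ := exists_nat_gt t
  have hn0 : (0 : ℝ) < n := lt_of_le_of_lt ht hn
  have h1 := hC hq (Rc.nat hv n q hq) (a := 1 - t / n) (b := t / n)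
    (by rw [sub_nonneg, div_le_one hn0]; exact hn.le) (by positivity) (by ring)
  convert h1 using 1
  rw [smul_add, ← add_assoc, ← add_smul, smul_smul, div_mul_cancel₀ _ hn0.ne']
  simp

theorem Rc.convex {C : Set E} (hC : Convex ℝ C) : Convex ℝ (Rc C) := by
  intro v hv w hw a b ha hb _
  exact Rc.add (Rc.smul hC hv ha) (Rc.smul hC hw hb)

theorem Rc.of_ray {C : Set E} (hC : Convex ℝ C) (hcl : IsClosed C) {q0 v : E}
    (h : ∀ t : ℝ, 0 ≤ t → q0 + t • v ∈ C) : v ∈ Rc C := by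
  intro q hq
  have h1 : Tendsto (fun n : ℕ => (1 - 1 / ((n : ℝ) + 1)) • q + (1 / ((n : ℝ) + 1)) • q0 + v)
      atTop (𝓝 (((1 : ℝ) - 0) • q + (0 : ℝ) • q0 + v)) := by
    have h0 := tendsto_one_div_add_atTop_nhds_zero_nat (𝕜 := ℝ)
    exact (((tendsto_const_nhds.sub h0).smul_const q).add (h0.smul_const q0)).add tendsto_const_nhds
  rw [sub_zero, one_smul, zero_smul, add_zero] at h1
  refine hcl.mem_of_tendsto h1 (Eventually.of_forall fun n => ?_)
  have hn : (0 : ℝ) < (n : ℝ) + 1 := by positivity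
  have h2 := hC hq (h ((n : ℝ) + 1) hn.le) (a := 1 - 1 / ((n : ℝ) + 1)) (b := 1 / ((n : ℝ) + 1))
    (by rw [sub_nonneg, div_le_one hn]; linarith) (by positivity) (by ring)
  convert h2 using 1
  rw [smul_add, smul_smul, one_div_mul_cancel hn.ne', one_smul, add_assoc]

/-- outside the recession cone every ray leaves the set for good -/
theorem Rc.exit {C : Set E} (hC : Convex ℝ C) (hcl : IsClosed C) {v : E} (hv : v ∉ Rc C) {q : E}
    (hq : q ∈ C) : ∃ T : ℝ, 0 < T ∧ q + T • v ∉ C := by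
  by_contra hcon
  push Not at hcon
  refine hv (Rc.of_ray hC hcl (q0 := q) fun t ht => ?_)
  rcases eq_or_lt_of_le ht with h | h
  · rw [← h, zero_smul, add_zero]; exact hq
  · exact hcon t h

theorem ray_mono {C : Set E} (hC : Convex ℝ C) {q v : E} {s t : ℝ} (hs : 0 ≤ s) (hst : s ≤ t)
    (hq : q ∈ C) (ht : q + t • v ∈ C) : q + s • v ∈ C := by
  rcases eq_or_lt_of_le (hs.trans hst) with h | h
  · have : s = 0 := by linarith
    rw [this, zero_smul, add_zero]; exact hq
  · have h1 := hC hq ht (a := 1 - s / t) (b := s / t)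
      (by rw [sub_nonneg, div_le_one h]; exact hst) (by positivity) (by ring)
    convert h1 using 1
    rw [smul_add, ← add_assoc, ← add_smul, smul_smul, div_mul_cancel₀ _ h.ne']
    simp

/-- support at points that are not interior -/
theorem support [FiniteDimensional ℝ E] {C : Set E} (hC : Convex ℝ C) {p : E} (hp : p ∈ C)
    (hpi : p ∉ interior C) : ∃ φ : E →L[ℝ] ℝ, φ ≠ 0 ∧ ∀ q ∈ C, φ q ≤ φ p := by
  by_cases hne : (interior C).Nonempty
  · obtain ⟨φ, hφ⟩ := geometric_hahn_banach_open_point hC.interior isOpen_interior hpi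
    refine ⟨φ, ?_, ?_⟩
    · rintro rfl
      obtain ⟨a, ha⟩ := hne
      simpa using hφ a ha
    · intro q hq
      have h1 : q ∈ closure (interior C) := by
        rw [hC.closure_interior_eq_closure_of_nonempty_interior hne]
        exact subset_closure hq
      have h2 : closure (interior C) ⊆ {q | φ q ≤ φ p} :=
        closure_minimal (fun a ha => (hφ a ha).le) (isClosed_le φ.continuous continuous_const)
      exact h2 h1
  · have h1 : affineSpan ℝ C ≠ ⊤ := fun h => hne ((hC.interior_nonempty_iff_affineSpan_eq_top).2 h)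
    have h2 : (affineSpan ℝ C).direction ≠ ⊤ := by
      intro h
      apply h1
      exact (AffineSubspace.direction_eq_top_iff_of_nonempty
        ⟨p, subset_affineSpan ℝ C hp⟩).1 h
    obtain ⟨f, hf, hfk⟩ := Submodule.exists_le_ker_of_lt_top _ (lt_top_iff_ne_top.2 h2)
    refine ⟨LinearMap.toContinuousLinearMap f, ?_, ?_⟩
    · intro h
      apply hf
      ext v
      have := congrArg (fun g : E →L[ℝ] ℝ => g v) h
      simpa using this
    · intro q hq
      have h3 : q - p ∈ (affineSpan ℝ C).direction :=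
        AffineSubspace.vsub_mem_direction (subset_affineSpan ℝ C hq) (subset_affineSpan ℝ C hp)
      have h4 := hfk h3
      rw [LinearMap.mem_ker, map_sub, sub_eq_zero] at h4
      exact h4.le

/-- the exit times -/
def Sx (C : Set E) (q v : E) : Set ℝ := {t | 0 ≤ t ∧ q - t • v ∈ C}

theorem sub_smul_eq (q v : E) (t : ℝ) : q - t • v = q + t • (-v) := by
  rw [smul_neg, sub_eq_add_neg]

theorem Sx.bdd {C : Set E} (hC : Convex ℝ C) {q v : E} (hq : q ∈ C) {T : ℝ} (hT0 : 0 ≤ T)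
    (hT : q - T • v ∉ C) : ∀ t ∈ Sx C q v, t ≤ T := by
  intro t ht
  by_contra hcon
  push Not at hcon
  have h2 := ht.2
  rw [sub_smul_eq] at hT h2
  exact hT (ray_mono hC hT0 hcon.le hq h2)

theorem Sx.closed {C : Set E} (hcl : IsClosed C) (q v : E) : IsClosed (Sx C q v) := by
  have h1 : Continuous fun t : ℝ => q - t • v :=
    continuous_const.sub (continuous_id.smul continuous_const)
  exact isClosed_Ici.inter (hcl.preimage h1)

/-- the last time in the set -/
noncomputable def tx (C : Set E) (q v : E) : ℝ := sSup (Sx C q v)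

theorem tx_mem {C : Set E} (hC : Convex ℝ C) (hcl : IsClosed C) {q v : E} (hq : q ∈ C) {T : ℝ}
    (hT0 : 0 ≤ T) (hT : q - T • v ∉ C) : tx C q v ∈ Sx C q v :=
  (Sx.closed hcl q v).csSup_mem ⟨0, le_rfl, by rwa [zero_smul, sub_zero]⟩
    ⟨T, Sx.bdd hC hq hT0 hT⟩

theorem le_tx {C : Set E} (hC : Convex ℝ C) {q v : E} (hq : q ∈ C) {T : ℝ}
    (hT0 : 0 ≤ T) (hT : q - T • v ∉ C) {t : ℝ} (ht : t ∈ Sx C q v) : t ≤ tx C q v :=
  le_csSup ⟨T, Sx.bdd hC hq hT0 hT⟩ ht

theorem tx_notMem_interior {C : Set E} (hC : Convex ℝ C) (hcl : IsClosed C) {q v : E} (hq : q ∈ C)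
    {T : ℝ} (hT0 : 0 ≤ T) (hT : q - T • v ∉ C) : q - tx C q v • v ∉ interior C := by
  intro hint
  have h1 : Continuous fun t : ℝ => q - t • v :=
    continuous_const.sub (continuous_id.smul continuous_const)
  have h2 : ∀ᶠ t in 𝓝 (tx C q v), q - t • v ∈ C := by
    have := h1.continuousAt.preimage_mem_nhds (mem_interior_iff_mem_nhds.1 hint)
    exact this
  obtain ⟨ε, hε, H⟩ := Metric.eventually_nhds_iff.1 h2
  have h0 := (tx_mem hC hcl hq hT0 hT).1
  have h3 : tx C q v + ε / 2 ∈ Sx C q v := by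
    refine ⟨by linarith, H ?_⟩
    rw [Real.dist_eq, abs_of_nonneg (by linarith)]
    linarith
  have := le_tx hC hq hT0 hT h3
  linarith

theorem tx_lip {C : Set E} (hC : Convex ℝ C) (hcl : IsClosed C) {q q' v v' : E} {δ T : ℝ}
    (hδ : 0 < δ) (hq : q ∈ C) (hq' : closedBall q' δ ⊆ C) (hT0 : 0 ≤ T) (hT : q - T • v ∉ C)
    (hT' : q' - T • v' ∉ C) :
    tx C q v - tx C q' v' ≤ T / δ * (‖q - q'‖ + T * ‖v - v'‖) := by
  have hm := tx_mem hC hcl hq hT0 hT
  have hq'C : q' ∈ C := hq' (mem_closedBall_self hδ.le)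
  have htT : tx C q v ≤ T := Sx.bdd hC hq hT0 hT _ hm
  obtain ⟨τ, hτ⟩ : ∃ τ, τ = tx C q v := ⟨_, rfl⟩
  rw [← hτ] at hm htT ⊢
  obtain ⟨e, he⟩ : ∃ e, e = ‖q - q'‖ + τ * ‖v - v'‖ := ⟨_, rfl⟩
  have hτ0 : 0 ≤ τ := hm.1
  have he0 : 0 ≤ e := by rw [he]; positivity
  have heT : e ≤ ‖q - q'‖ + T * ‖v - v'‖ := by rw [he]; gcongr
  have key : τ * (δ / (δ + e)) ∈ Sx C q' v' := by
    refine ⟨by positivity, ?_⟩
    rcases eq_or_lt_of_le he0 with h0 | h0
    · have h1 : ‖q - q'‖ = 0 := by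
        have := norm_nonneg (q - q')
        have : 0 ≤ τ * ‖v - v'‖ := by positivity
        linarith
      have h2 : τ • (v - v') = 0 := by
        rw [← norm_eq_zero, norm_smul, Real.norm_eq_abs, abs_of_nonneg hτ0]
        have := norm_nonneg (q - q')
        linarith
      rw [← h0, add_zero, div_self hδ.ne', mul_one]
      have h3 : q' - τ • v' = q - τ • v := by
        rw [norm_eq_zero, sub_eq_zero] at h1
        rw [smul_sub, sub_eq_zero] at h2
        rw [h1, h2]
      rw [h3]; exact hm.2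
    · have hde : 0 < δ + e := by linarith
      -- the auxiliary point of the ball
      have hy : q' + (δ / e) • ((q' - q) - τ • (v' - v)) ∈ C := by
        apply hq'
        rw [mem_closedBall, dist_eq_norm, add_sub_cancel_left, norm_smul, Real.norm_eq_abs,
          abs_of_pos (by positivity)]
        have h1 : ‖(q' - q) - τ • (v' - v)‖ ≤ e := by
          refine (norm_sub_le _ _).trans ?_
          rw [norm_smul, Real.norm_eq_abs, abs_of_nonneg hτ0, he, norm_sub_rev q' q,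
            norm_sub_rev v' v]
        calc δ / e * ‖(q' - q) - τ • (v' - v)‖ ≤ δ / e * e := by gcongr
          _ = δ := by field_simp
      have h4 := hC hm.2 hy (a := δ / (δ + e)) (b := e / (δ + e)) (by positivity) (by positivity)
        (by field_simp)
      convert h4 using 1
      have h5 : e / (δ + e) * (δ / e) = δ / (δ + e) := by field_simp
      have h6 : e / (δ + e) = 1 - δ / (δ + e) := by field_simp; ring
      rw [smul_add, smul_smul, h5, h6]
      module
  have h7 := le_tx hC hq'C hT0 hT' key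
  have h8 : τ - τ * (δ / (δ + e)) ≤ T / δ * e := by
    have e1 : τ - τ * (δ / (δ + e)) = τ * (e / (δ + e)) := by
      have : 0 < δ + e := by linarith
      field_simp; ring
    rw [e1]
    calc τ * (e / (δ + e)) ≤ T * (e / δ) := by gcongr; linarith
      _ = T / δ * e := by ring
  have h9 : T / δ * e ≤ T / δ * (‖q - q'‖ + T * ‖v - v'‖) := by gcongr
  linarith

end convex

section equi
variable {X Γ E : Type} [TopologicalSpace X] [T2Space X] [Group Γ] [MulAction Γ X]
  [NormedAddCommGroup E] [NormedSpace ℝ E] [FiniteDimensional ℝ E]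
  {dev : X → E} {hol : Γ →* (E ≃ᵃ[ℝ] E)}

theorem hol_interior {C : Set E} (hinv : ∀ (γ : Γ), ∀ p ∈ C, hol γ p ∈ C) (γ : Γ) {p : E}
    (hp : p ∈ interior C) : hol γ p ∈ interior C := by
  have h1 : IsOpen (hol γ⁻¹ ⁻¹' interior C) := isOpen_interior.preimage (hol_cont _)
  have h2 : hol γ⁻¹ ⁻¹' interior C ⊆ C := by
    intro q hq
    have := hinv γ _ (interior_subset hq)
    rwa [hol_apply_inv] at this
  refine interior_maximal h2 h1 ?_
  show hol γ⁻¹ (hol γ p) ∈ interior C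
  rwa [hol_inv_apply]

theorem Rc.lin {C : Set E} (hinv : ∀ (γ : Γ), ∀ p ∈ C, hol γ p ∈ C) (γ : Γ) {v : E}
    (hv : v ∈ Rc C) : lin hol γ v ∈ Rc C := by
  intro q hq
  have h1 := hinv γ _ (hv _ (hinv γ⁻¹ q hq))
  rwa [hol_add, hol_apply_inv] at h1

/-- no equivariant map takes values in the boundary of a convex set -/
theorem no_boundary (D : AffData X Γ E dev hol) [SecondCountableTopology X] [Nonempty X]
    {f : X → E} (hf : LL dev f) (he : ∀ (γ : Γ) x, f (γ • x) = hol γ (f x)) {C : Set E}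
    (hC : Convex ℝ C) (h1 : ∀ x, f x ∈ C) (h2 : ∀ x, f x ∉ interior C) : False := by
  refine principle_max D hf he fun x => ?_
  obtain ⟨φ, hφ, h⟩ := support hC (h1 x) (h2 x)
  exact ⟨φ, hφ, Eventually.of_forall fun y => h _ (h1 y)⟩

theorem no_thin (D : AffData X Γ E dev hol) [SecondCountableTopology X] [Nonempty X]
    {C : Set E} (hC : Convex ℝ C) (hne : C.Nonempty) (hinv : ∀ (γ : Γ), ∀ p ∈ C, hol γ p ∈ C)
    (hint : interior C = ∅) : False := by
  obtain ⟨ρ, hρ⟩ := exists_wt D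
  obtain ⟨p, hp⟩ := hne
  refine no_boundary D (f := av ρ (fun γ : Γ => hol γ⁻¹ p)) (av_ll D hρ _)
    (fun δ x => av_hol hρ p δ x) hC (fun x => av_mem hρ hC (fun γ => hinv _ _ hp) x)
    (fun x => by rw [hint]; exact notMem_empty _)

/-- the recession cone of an invariant closed convex set is symmetric -/
theorem Rc_symm (D : AffData X Γ E dev hol) [SecondCountableTopology X] [Nonempty X]
    {C : Set E} (hC : Convex ℝ C) (hcl : IsClosed C) (hne : (interior C).Nonempty)
    (hinv : ∀ (γ : Γ), ∀ p ∈ C, hol γ p ∈ C) : ∀ v ∈ Rc C, -v ∈ Rc C := by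
  by_contra hcon
  push Not at hcon
  obtain ⟨c0, hc0, hc0'⟩ := hcon
  obtain ⟨ρ, hρ⟩ := exists_wt D
  obtain ⟨p, hp⟩ := hne
  let N : Set E := {v | v ∈ Rc C ∧ -v ∉ Rc C}
  have hN : Convex ℝ N := by
    intro v hv w hw a b ha hb hab
    refine ⟨Rc.convex hC hv.1 hw.1 ha hb hab, fun h => ?_⟩
    rcases eq_or_lt_of_le ha with h0 | h0
    · have hb1 : b = 1 := by linarith
      rw [← h0, hb1, zero_smul, zero_add, one_smul] at h
      exact hw.2 h
    · apply hv.2
      have h1 := Rc.smul hC (Rc.add h (Rc.smul hC hw.1 hb)) (inv_nonneg.2 h0.le)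
      have h2 : a⁻¹ • (-(a • v + b • w) + b • w) = -v := by
        have : -(a • v + b • w) + b • w = -(a • v) := by abel
        rw [this, smul_neg, smul_smul, inv_mul_cancel₀ h0.ne', one_smul]
      rwa [h2] at h1
  have hlN : ∀ (γ : Γ), lin hol γ c0 ∈ N := by
    intro γ
    refine ⟨Rc.lin hinv γ hc0, fun h => hc0' ?_⟩
    have h1 := Rc.lin hinv γ⁻¹ h
    rwa [lin_neg, lin_inv_apply] at h1
  have hic : Convex ℝ (interior C) := hC.interior
  obtain ⟨f0, hf0⟩ : ∃ f0 : X → E, f0 = av ρ (fun γ : Γ => hol γ⁻¹ p) := ⟨_, rfl⟩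
  obtain ⟨c, hc⟩ : ∃ c : X → E, c = av ρ (fun γ : Γ => lin hol γ⁻¹ c0) := ⟨_, rfl⟩
  have hf0L : LL dev f0 := by rw [hf0]; exact av_ll D hρ _
  have hcL : LL dev c := by rw [hc]; exact av_ll D hρ _
  have hf0i : ∀ x, f0 x ∈ interior C := by
    intro x; rw [hf0]; exact av_mem hρ hic (fun γ => hol_interior hinv _ hp) x
  have hcN : ∀ x, c x ∈ N := by
    intro x; rw [hc]; exact av_mem hρ hN (fun γ => hlN _) x
  have hf0e : ∀ (γ : Γ) x, f0 (γ • x) = hol γ (f0 x) := by
    intro γ x; rw [hf0]; exact av_hol hρ p γ x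
  have hce : ∀ (γ : Γ) x, c (γ • x) = lin hol γ (c x) := by
    intro γ x; rw [hc]; exact av_lin hρ c0 γ x
  have hf0C : ∀ x, f0 x ∈ C := fun x => interior_subset (hf0i x)
  have hT : ∀ x, ∃ T : ℝ, 0 < T ∧ f0 x - T • c x ∉ C := by
    intro x
    obtain ⟨T, hT0, hT⟩ := Rc.exit hC hcl (hcN x).2 (hf0C x)
    exact ⟨T, hT0, by rwa [sub_smul_eq]⟩
  let τ : X → ℝ := fun x => tx C (f0 x) (c x)
  have hτL : LL dev τ := by
    intro x
    obtain ⟨T, hT0, hTx⟩ := hT x
    have hf0c := hf0L.continuous D.loc.continuous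
    have hcc := hcL.continuous D.loc.continuous
    obtain ⟨U1, hU1, L1, hL1, H1⟩ := hf0L x
    obtain ⟨U2, hU2, L2, hL2, H2⟩ := hcL x
    obtain ⟨δ, hδ, hδC⟩ := Metric.mem_nhds_iff.1 (mem_interior_iff_mem_nhds.1 (hf0i x))
    have h3 : ∀ᶠ y in 𝓝 x, f0 y ∈ ball (f0 x) (δ / 2) :=
      hf0c.continuousAt.eventually (isOpen_ball.mem_nhds (mem_ball_self (half_pos hδ)))
    have h4 : ∀ᶠ y in 𝓝 x, f0 y - T • c y ∉ C := by
      have : Continuous fun y => f0 y - T • c y := hf0c.sub (hcc.const_smul T)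
      exact this.continuousAt.eventually (hcl.isOpen_compl.mem_nhds hTx)
    refine ⟨U1 ∩ U2 ∩ {y | f0 y ∈ ball (f0 x) (δ / 2)} ∩ {y | f0 y - T • c y ∉ C},
      inter_mem (inter_mem (inter_mem hU1 hU2) h3) h4, T / (δ / 4) * (L1 + T * L2),
      by positivity, ?_⟩
    have one : ∀ y ∈ U1 ∩ U2 ∩ {y | f0 y ∈ ball (f0 x) (δ / 2)} ∩ {y | f0 y - T • c y ∉ C},
        ∀ z ∈ U1 ∩ U2 ∩ {y | f0 y ∈ ball (f0 x) (δ / 2)} ∩ {y | f0 y - T • c y ∉ C},
        τ y - τ z ≤ T / (δ / 4) * (L1 + T * L2) * ‖dev y - dev z‖ := by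
      rintro y ⟨⟨⟨hy1, hy2⟩, hy3⟩, hy4⟩ z ⟨⟨⟨hz1, hz2⟩, hz3⟩, hz4⟩
      have hb : closedBall (f0 z) (δ / 4) ⊆ C := by
        intro q hq
        apply hδC
        rw [mem_closedBall] at hq
        have h5 : dist (f0 z) (f0 x) < δ / 2 := hz3
        rw [mem_ball]
        have := dist_triangle q (f0 z) (f0 x)
        linarith
      have h6 := tx_lip hC hcl (q := f0 y) (q' := f0 z) (v := c y) (v' := c z)
        (show 0 < δ / 4 by positivity) (hf0C y) hb hT0.le hy4 hz4
      refine h6.trans ?_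
      calc T / (δ / 4) * (‖f0 y - f0 z‖ + T * ‖c y - c z‖)
          ≤ T / (δ / 4) * (L1 * ‖dev y - dev z‖ + T * (L2 * ‖dev y - dev z‖)) := by
            gcongr
            · exact H1 y hy1 z hz1
            · exact H2 y hy2 z hz2
        _ = _ := by ring
    intro y hy z hz
    rw [Real.norm_eq_abs, abs_le]
    have h7 := one y hy z hz
    have h8 := one z hz y hy
    rw [norm_sub_rev] at h8
    constructor <;> linarith
  refine no_boundary D (f := fun x => f0 x - τ x • c x)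
    (hf0L.sub (hτL.smul D.loc.continuous hcL)) ?_ hC ?_ ?_
  · intro γ x
    have h1 : Sx C (f0 (γ • x)) (c (γ • x)) = Sx C (f0 x) (c x) := by
      have key : ∀ t : ℝ, f0 (γ • x) - t • c (γ • x) = hol γ (f0 x - t • c x) := by
        intro t
        rw [hf0e, hce, sub_eq_add_neg, sub_eq_add_neg, hol_add, lin_neg, lin_smul]
      ext t
      show (0 ≤ t ∧ _ ∈ C) ↔ (0 ≤ t ∧ _ ∈ C)
      rw [key]
      refine and_congr_right fun _ => ⟨fun h => ?_, fun h => hinv γ _ h⟩
      have := hinv γ⁻¹ _ h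
      rwa [hol_inv_apply] at this
    have h2 : τ (γ • x) = τ x := by
      show sSup _ = sSup _
      rw [h1]
    show f0 (γ • x) - τ (γ • x) • c (γ • x) = hol γ (f0 x - τ x • c x)
    rw [h2, hf0e, hce, sub_eq_add_neg, sub_eq_add_neg, hol_add, lin_neg, lin_smul]
  · intro x
    obtain ⟨T, hT0, hTx⟩ := hT x
    exact (tx_mem hC hcl (hf0C x) hT0.le hTx).2
  · intro x
    obtain ⟨T, hT0, hTx⟩ := hT x
    exact tx_notMem_interior hC hcl (hf0C x) hT0.le hTx

end equi

end Pool.Agent.W689.Mk
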