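import Pool.Agent.W689.Mk.Conv
import Pool.Agent.W689.Mk.Tube

set_option autoImplicit false

open Set Filter Topology Metric

namespace Pool.Agent.W689.Mk

section convex
variable {E : Type} [NormedAddCommGroup E] [NormedSpace ℝ E] [FiniteDimensional ℝ E]

/-- a closed convex set with symmetric recession cone is bounded up to a projection -/
theorem exists_proj {C : Set E} (hC : Convex ℝ C) (hcl : IsClosed C) (hne : C.Nonempty)
    (hsym : ∀ v ∈ Rc C, -v ∈ Rc C) : ∃ (P : E →ₗ[ℝ] E) (B : ℝ), (∀ v, v - P v ∈ Rc C) ∧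
      (∀ v ∈ Rc C, P v = 0) ∧ (∀ v, P (P v) = P v) ∧ ∀ q ∈ C, ‖P q‖ ≤ B := by
  let L : Submodule ℝ E :=
    { carrier := Rc C
      add_mem' := fun hv hw => Rc.add hv hw
      zero_mem' := Rc.zero C
      smul_mem' := by
        intro t v hv
        rcases le_or_gt 0 t with h | h
        · exact Rc.smul hC hv h
        · have := Rc.smul hC (hsym v hv) (t := -t) (by linarith)
          rwa [smul_neg, neg_smul, neg_neg] at this }
  obtain ⟨S, hS⟩ := L.exists_isCompl
  let P : E →ₗ[ℝ] E := S.subtype ∘ₗ Submodule.projectionOnto S L hS.symm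
  have hPS : ∀ v, P v ∈ S := fun v => (Submodule.projectionOnto S L hS.symm v).2
  have hPid : ∀ v ∈ S, P v = v := by
    intro v hv
    have := Submodule.projectionOnto_apply_left hS.symm ⟨v, hv⟩
    show ((Submodule.projectionOnto S L hS.symm v : S) : E) = v
    rw [this]
  have hPL : ∀ v ∈ L, P v = 0 := by
    intro v hv
    have := (Submodule.projectionOnto_apply_eq_zero_iff hS.symm).2 hv
    show ((Submodule.projectionOnto S L hS.symm v : S) : E) = 0
    rw [this]; rfl
  have hker : ∀ v, P v = 0 → v ∈ L := by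
    intro v hv
    have h1 : Submodule.projectionOnto S L hS.symm v = 0 := Subtype.ext hv
    exact (Submodule.projectionOnto_apply_eq_zero_iff hS.symm).1 h1
  have hPP : ∀ v, P (P v) = P v := fun v => hPid _ (hPS v)
  have hdiff : ∀ v, v - P v ∈ L := by
    intro v
    apply hker
    rw [map_sub, hPP, sub_self]
  have hPC : ∀ q ∈ C, P q ∈ C := by
    intro q hq
    have h1 : -(q - P q) ∈ Rc C := hsym _ (hdiff q)
    have h2 := h1 q hq
    have h3 : q + -(q - P q) = P q := by abel
    rwa [h3] at h2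
  obtain ⟨q0, hq0⟩ := hne
  obtain ⟨p0, hp0⟩ : ∃ p0, p0 = P q0 := ⟨_, rfl⟩
  have hp0C : p0 ∈ C := by rw [hp0]; exact hPC q0 hq0
  have hp0S : p0 ∈ S := by rw [hp0]; exact hPS q0
  let K1 : Set E := {u | u ∈ S ∧ ‖u‖ = 1}
  have hK1 : IsCompact K1 := by
    have h1 : K1 = (S : Set E) ∩ sphere 0 1 := by
      ext u; simp [K1]
    rw [h1]
    exact (isCompact_sphere _ _).inter_left S.closed_of_finiteDimensional
  have hTu : ∀ u ∈ K1, ∃ T : ℝ, 0 < T ∧ p0 + T • u ∉ C := by
    intro u hu
    refine Rc.exit hC hcl (fun h => ?_) hp0C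
    have h1 : u ∈ S ⊓ L := ⟨hu.1, h⟩
    rw [hS.symm.inf_eq_bot, Submodule.mem_bot] at h1
    have := hu.2
    rw [h1, norm_zero] at this
    exact zero_ne_one this
  choose! T hT0 hT using hTu
  have hN : ∀ u ∈ K1, {u' | p0 + T u • u' ∉ C} ∈ 𝓝 u := by
    intro u hu
    have hc : Continuous fun u' => p0 + T u • u' := continuous_const.add (continuous_id.const_smul _)
    exact hc.continuousAt.preimage_mem_nhds (hcl.isOpen_compl.mem_nhds (hT u hu))
  obtain ⟨F, hFK, hF⟩ := hK1.elim_nhds_subcover _ hN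
  obtain ⟨R, hR0, hR⟩ : ∃ R : ℝ, 0 ≤ R ∧ ∀ u ∈ F, T u ≤ R := by
    refine ⟨∑ u ∈ F, T u, Finset.sum_nonneg fun u hu => (hT0 u (hFK u hu)).le, fun u hu => ?_⟩
    exact Finset.single_le_sum (f := T) (fun u hu => (hT0 u (hFK u hu)).le) hu
  have hout : ∀ u ∈ K1, p0 + R • u ∉ C := by
    intro u hu hcon
    obtain ⟨u', hu', huu⟩ := mem_iUnion₂.1 (hF hu)
    exact huu (ray_mono hC (hT0 u' (hFK u' hu')).le (hR u' hu') hp0C hcon)
  refine ⟨P, ‖p0‖ + R, hdiff, hPL, hPP, fun q hq => ?_⟩
  have h1 : ‖P q - p0‖ ≤ R := by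
    by_contra hcon
    push Not at hcon
    have hpos : 0 < ‖P q - p0‖ := lt_of_le_of_lt hR0 hcon
    have hu : ‖P q - p0‖⁻¹ • (P q - p0) ∈ K1 := by
      refine ⟨S.smul_mem _ (S.sub_mem (hPS q) hp0S), ?_⟩
      rw [norm_smul, norm_inv, norm_norm, inv_mul_cancel₀ hpos.ne']
    apply hout _ hu
    refine ray_mono hC hR0 hcon.le hp0C ?_
    rw [smul_smul, mul_inv_cancel₀ hpos.ne', one_smul, add_sub_cancel]
    exact hPC q hq
  have h2 := norm_add_le p0 (P q - p0)
  rw [add_sub_cancel] at h2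
  linarith

/-- the inner parallel sets -/
def Ct (C : Set E) (t : ℝ) : Set E := {q | ∀ a ∈ C, ∀ b ∈ C, q + t • (a - b) ∈ C}

omit [FiniteDimensional ℝ E] in
theorem Ct.sub {C : Set E} {t : ℝ} {q : E} (hne : C.Nonempty) (hq : q ∈ Ct C t) : q ∈ C := by
  obtain ⟨a, ha⟩ := hne
  have := hq a ha a ha
  rwa [sub_self, smul_zero, add_zero] at this

omit [FiniteDimensional ℝ E] in
theorem Ct.closed {C : Set E} (hcl : IsClosed C) (t : ℝ) : IsClosed (Ct C t) := by
  have h1 : Ct C t = ⋂ a ∈ C, ⋂ b ∈ C, (fun q => q + t • (a - b)) ⁻¹' C := by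
    ext q; simp [Ct]
  rw [h1]
  exact isClosed_biInter fun a _ => isClosed_biInter fun b _ =>
    hcl.preimage (continuous_id.add continuous_const)

omit [FiniteDimensional ℝ E] in
theorem Ct.convex {C : Set E} (hC : Convex ℝ C) (t : ℝ) : Convex ℝ (Ct C t) := by
  intro q hq q' hq' s s' hs hs' hss a ha b hb
  have h1 := hC (hq a ha b hb) (hq' a ha b hb) hs hs' hss
  convert h1 using 1
  calc s • q + s' • q' + t • (a - b) = s • q + s' • q' + (s + s') • (t • (a - b)) := by
        rw [hss, one_smul]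
    _ = _ := by module

end convex

section equi
variable {X Γ E : Type} [TopologicalSpace X] [T2Space X] [Group Γ] [MulAction Γ X]
  [NormedAddCommGroup E] [NormedSpace ℝ E] [FiniteDimensional ℝ E]
  {dev : X → E} {hol : Γ →* (E ≃ᵃ[ℝ] E)}

omit [TopologicalSpace X] [T2Space X] [MulAction Γ X] [FiniteDimensional ℝ E] in
theorem Ct.inv {C : Set E} (hinv : ∀ (γ : Γ), ∀ p ∈ C, hol γ p ∈ C) (t : ℝ) (γ : Γ) {q : E}
    (hq : q ∈ Ct C t) : hol γ q ∈ Ct C t := by
  intro a ha b hb
  have h1 := hinv γ _ (hq _ (hinv γ⁻¹ a ha) _ (hinv γ⁻¹ b hb))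
  rw [hol_add, hol_sub] at h1
  have h2 : lin hol γ (t • lin hol γ⁻¹ (a - b)) = t • (a - b) := by
    have h3 : lin hol γ (t • lin hol γ⁻¹ (a - b)) = t • lin hol γ (lin hol γ⁻¹ (a - b)) :=
      (hol γ).linear.map_smul t _
    have h4 := lin_inv_apply (hol := hol) γ⁻¹ (a - b)
    rw [inv_inv] at h4
    rw [h3, h4]
  rwa [h2] at h1

/-- a closed invariant convex set is everything -/
theorem closed_case (D : AffData X Γ E dev hol) [SecondCountableTopology X] [Nonempty X]
    {C : Set E} (hC : Convex ℝ C) (hcl : IsClosed C) (hne : C.Nonempty)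
    (hinv : ∀ (γ : Γ), ∀ p ∈ C, hol γ p ∈ C) (hproper : C ≠ univ) : False := by
  have hint : (interior C).Nonempty := by
    by_contra h
    exact no_thin D hC hne hinv (not_nonempty_iff_eq_empty.1 h)
  have hsym := Rc_symm D hC hcl hint hinv
  obtain ⟨P, B, h1, h2, h3, hB⟩ := exists_proj hC hcl hne hsym
  have hB0 : 0 ≤ B := by
    obtain ⟨q, hq⟩ := hne
    exact (norm_nonneg _).trans (hB q hq)
  -- two points of `C` with different projections
  obtain ⟨a0, ha0, b0, hb0, hab⟩ : ∃ a ∈ C, ∃ b ∈ C, P (a - b) ≠ 0 := by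
    by_contra hcon
    push Not at hcon
    apply hproper
    obtain ⟨p, hp⟩ := hint
    obtain ⟨δ, hδ, hδC⟩ := Metric.mem_nhds_iff.1 (mem_interior_iff_mem_nhds.1 hp)
    have hpC : p ∈ C := interior_subset hp
    -- every vector is in the recession cone
    have hall : ∀ v, v ∈ Rc C := by
      intro v
      have h4 : P v = 0 := by
        by_cases hv : v = 0
        · rw [hv, map_zero]
        have hvn : 0 < ‖v‖ := norm_pos_iff.2 hv
        have h5 : p + (δ / (2 * ‖v‖)) • v ∈ C := by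
          apply hδC
          rw [mem_ball, dist_eq_norm, add_sub_cancel_left, norm_smul, Real.norm_eq_abs,
            abs_of_pos (by positivity)]
          have : δ / (2 * ‖v‖) * ‖v‖ = δ / 2 := by field_simp
          rw [this]; linarith
        have h6 := hcon _ h5 p hpC
        rw [add_sub_cancel_left, map_smul] at h6
        exact (smul_eq_zero.1 h6).resolve_left (by positivity)
      have h7 := h1 v
      rwa [h4, sub_zero] at h7
    ext q
    refine ⟨fun _ => trivial, fun _ => ?_⟩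
    have := hall (q - p) p hpC
    rwa [add_sub_cancel] at this
  let T : Set ℝ := {t | 0 ≤ t ∧ (Ct C t).Nonempty}
  have hTb : ∀ t ∈ T, t ≤ 2 * B / ‖P (a0 - b0)‖ := by
    rintro t ⟨ht0, q, hq⟩
    have h4 : 0 < ‖P (a0 - b0)‖ := norm_pos_iff.2 hab
    rw [le_div_iff₀ h4]
    have h5 := hB _ (hq a0 ha0 b0 hb0)
    have h6 := hB _ (Ct.sub hne hq)
    rw [map_add, map_smul] at h5
    have h7 := norm_sub_le (P q + t • P (a0 - b0)) (P q)
    rw [add_sub_cancel_left, norm_smul, Real.norm_eq_abs, abs_of_nonneg ht0] at h7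
    linarith
  have h0T : (0 : ℝ) ∈ T := by
    refine ⟨le_rfl, ?_⟩
    obtain ⟨q, hq⟩ := hne
    exact ⟨q, fun a _ b _ => by rwa [zero_smul, add_zero]⟩
  have hTbd : BddAbove T := ⟨_, hTb⟩
  obtain ⟨ts, hts⟩ : ∃ ts, ts = sSup T := ⟨_, rfl⟩
  have hts0 : 0 ≤ ts := by rw [hts]; exact le_csSup hTbd h0T
  -- adding recession vectors
  have hadd : ∀ t, ∀ q ∈ Ct C t, ∀ l ∈ Rc C, q + l ∈ Ct C t := by
    intro t q hq l hl a ha b hb
    have := hl _ (hq a ha b hb)
    have e : q + l + t • (a - b) = q + t • (a - b) + l := by abel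
    rwa [e]
  have hmono : ∀ s t, 0 ≤ s → s ≤ t → Ct C t ⊆ Ct C s := by
    intro s t hs hst q hq a ha b hb
    exact ray_mono hC hs hst (Ct.sub hne hq) (hq a ha b hb)
  -- the last parallel set is nonempty
  have hCts : (Ct C ts).Nonempty := by
    rcases eq_or_lt_of_le hts0 with h0 | h0
    · rw [← h0]; exact h0T.2
    let Kc : Set E := C ∩ {q | P q = q ∧ ‖q‖ ≤ B}
    have hPc : Continuous P := P.continuous_of_finiteDimensional
    have hKc : IsCompact Kc := by
      have h5 : Kc = closedBall 0 B ∩ (C ∩ {q | P q = q}) := by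
        ext q
        simp only [Kc, mem_inter_iff, mem_closedBall, dist_zero_right]
        constructor
        · rintro ⟨ha, hb, hc⟩; exact ⟨hc, ha, hb⟩
        · rintro ⟨hc, ha, hb⟩; exact ⟨ha, hb, hc⟩
      rw [h5]
      exact (isCompact_closedBall _ _).inter_right (hcl.inter (isClosed_eq hPc continuous_id))
    have hseq : ∀ n : ℕ, ∃ q ∈ Kc, q ∈ Ct C (ts - ts / ((n : ℝ) + 1)) := by
      intro n
      have hn : (0 : ℝ) < (n : ℝ) + 1 := by positivity
      have hlt : ts - ts / ((n : ℝ) + 1) < sSup T := by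
        rw [← hts]
        have : 0 < ts / ((n : ℝ) + 1) := by positivity
        linarith
      obtain ⟨t, ht, htlt⟩ := exists_lt_of_lt_csSup ⟨0, h0T⟩ hlt
      obtain ⟨q, hq⟩ := ht.2
      have h5 : P q ∈ Ct C t := by
        have h6 := hadd t q hq _ (hsym _ (h1 q))
        have h7 : q + -(q - P q) = P q := by abel
        rwa [h7] at h6
      refine ⟨P q, ⟨Ct.sub hne h5, h3 q, hB q (Ct.sub hne hq)⟩, hmono _ _ ?_ htlt.le h5⟩
      have : ts / ((n : ℝ) + 1) ≤ ts := div_le_self hts0 (by linarith)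
      linarith
    choose q hqK hqC using hseq
    obtain ⟨q', hq', φ, hφ, hlim⟩ := hKc.tendsto_subseq hqK
    refine ⟨q', fun a ha b hb => ?_⟩
    have hlim2 : Tendsto (fun n => q (φ n) + (ts - ts / ((φ n : ℝ) + 1)) • (a - b)) atTop
        (𝓝 (q' + (ts - 0) • (a - b))) := by
      have h6 : Tendsto (fun n : ℕ => ts / ((φ n : ℝ) + 1)) atTop (𝓝 0) := by
        have h7 := (tendsto_one_div_add_atTop_nhds_zero_nat (𝕜 := ℝ)).const_mul ts
        rw [mul_zero] at h7
        have h8 := h7.comp hφ.tendsto_atTop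
        refine h8.congr fun n => ?_
        show ts * (1 / ((φ n : ℝ) + 1)) = _
        ring
      exact hlim.add ((tendsto_const_nhds.sub h6).smul_const _)
    rw [sub_zero] at hlim2
    exact hcl.mem_of_tendsto hlim2 (Eventually.of_forall fun n => hqC (φ n) a ha b hb)
  -- it has empty interior
  refine no_thin D (Ct.convex hC ts) hCts (fun γ p hp => Ct.inv hinv ts γ hp) ?_
  by_contra hne2
  obtain ⟨q, hq⟩ := nonempty_iff_ne_empty.2 hne2
  obtain ⟨ε, hε, hεC⟩ := Metric.mem_nhds_iff.1 (mem_interior_iff_mem_nhds.1 hq)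
  obtain ⟨η, hη⟩ : ∃ η, η = ε / (2 * B + 1) := ⟨_, rfl⟩
  have hη0 : 0 < η := by rw [hη]; positivity
  have hmem : ts + η ∈ T := by
    refine ⟨by linarith, q, fun a ha b hb => ?_⟩
    have h4 : ‖η • P (a - b)‖ < ε := by
      rw [norm_smul, Real.norm_eq_abs, abs_of_pos hη0, map_sub]
      have h5 : ‖P a - P b‖ ≤ 2 * B := by
        have := norm_sub_le (P a) (P b)
        linarith [hB a ha, hB b hb]
      calc η * ‖P a - P b‖ ≤ η * (2 * B) := by gcongr
        _ < η * (2 * B + 1) := by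
            apply mul_lt_mul_of_pos_left _ hη0
            linarith
        _ = ε := by rw [hη]; field_simp
    have h5 : q + η • P (a - b) ∈ Ct C ts := by
      apply hεC
      rwa [mem_ball, dist_eq_norm, add_sub_cancel_left]
    have h6 := h5 a ha b hb
    have h7 : η • (a - b - P (a - b)) ∈ Rc C := Rc.smul hC (h1 _) hη0.le
    have h8 := h7 _ h6
    have e : q + η • P (a - b) + ts • (a - b) + η • (a - b - P (a - b)) =
        q + (ts + η) • (a - b) := by module
    rwa [e] at h8
  have := le_csSup hTbd hmem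
  rw [← hts] at this
  linarith

/-- the first main theorem: invariant convex sets are trivial -/
theorem convex_univ' (D : AffData X Γ E dev hol) [SecondCountableTopology X] [Nonempty X]
    {C : Set E} (hC : Convex ℝ C) (hne : C.Nonempty)
    (hinv : ∀ (γ : Γ), ∀ p ∈ C, hol γ p ∈ C) : C = univ := by
  have hint : (interior C).Nonempty := by
    by_contra h
    exact no_thin D hC hne hinv (not_nonempty_iff_eq_empty.1 h)
  have hcl : closure C = univ := by
    by_contra hcon
    refine closed_case D hC.closure isClosed_closure hne.closure (fun γ p hp => ?_) hcon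
    have h1 : MapsTo (hol γ) C C := fun p hp => hinv γ p hp
    exact h1.closure (hol_cont γ) hp
  have h2 := hC.interior_closure_eq_interior_of_nonempty_interior hint
  rw [hcl, interior_univ] at h2
  exact univ_subset_iff.1 (h2 ▸ interior_subset)

end equi

end Pool.Agent.W689.Mk
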