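import Mathlib

set_option autoImplicit false

open Set Filter Topology Metric

namespace Pool.Agent.W689.Mk

section est
variable {E : Type} [NormedAddCommGroup E] [NormedSpace ℝ E]

/-- the variational inequality of the shortest element -/
def IsMn (V : (E →L[ℝ] ℝ) →L[ℝ] E) (K : Set (E →L[ℝ] ℝ)) (u : E →L[ℝ] ℝ) : Prop :=
  u ∈ K ∧ ∀ φ ∈ K, u (V u) ≤ φ (V u)

/-- the foot point -/
noncomputable def ft (V : (E →L[ℝ] ℝ) →L[ℝ] E) (u : E →L[ℝ] ℝ) : E := -((u (V u))⁻¹ • V u)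

/-- a family of properties of the dual metric -/
structure DM (m M : ℝ) (V : (E →L[ℝ] ℝ) →L[ℝ] E) : Prop where
  sym : ∀ φ ψ : E →L[ℝ] ℝ, φ (V ψ) = ψ (V φ)
  pos : ∀ φ : E →L[ℝ] ℝ, m * ‖φ‖ ^ 2 ≤ φ (V φ)
  bd : ‖V‖ ≤ M

theorem DM.M0 {m M : ℝ} {V : (E →L[ℝ] ℝ) →L[ℝ] E} (h : DM m M V) : 0 ≤ M := by
  have h1 := h.bd
  have h2 : 0 ≤ ‖V‖ := norm_nonneg V
  exact h2.trans h1

theorem DM.abs_le {m M : ℝ} {V : (E →L[ℝ] ℝ) →L[ℝ] E} (h : DM m M V) (φ ψ : E →L[ℝ] ℝ) :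
    |φ (V ψ)| ≤ M * (‖φ‖ * ‖ψ‖) := by
  have h1 : ‖φ (V ψ)‖ ≤ ‖φ‖ * ‖V ψ‖ := φ.le_opNorm _
  have h2 : ‖V ψ‖ ≤ ‖V‖ * ‖ψ‖ := V.le_opNorm _
  rw [Real.norm_eq_abs] at h1
  calc |φ (V ψ)| ≤ ‖φ‖ * ‖V ψ‖ := h1
    _ ≤ ‖φ‖ * (M * ‖ψ‖) := by
        refine mul_le_mul_of_nonneg_left (h2.trans ?_) (norm_nonneg _)
        exact mul_le_mul_of_nonneg_right h.bd (norm_nonneg _)
    _ = M * (‖φ‖ * ‖ψ‖) := by ring

theorem DM.norm_le {m M : ℝ} {V : (E →L[ℝ] ℝ) →L[ℝ] E} (h : DM m M V) (ψ : E →L[ℝ] ℝ) :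
    ‖V ψ‖ ≤ M * ‖ψ‖ :=
  (V.le_opNorm _).trans (mul_le_mul_of_nonneg_right h.bd (norm_nonneg _))

theorem exists_mn [FiniteDimensional ℝ E] {m M : ℝ} (hm : 0 < m) {V : (E →L[ℝ] ℝ) →L[ℝ] E}
    (h : DM m M V) {K : Set (E →L[ℝ] ℝ)} (hKc : IsClosed K) (hK : Convex ℝ K) (hne : K.Nonempty) :
    ∃ u, IsMn V K u := by
  obtain ⟨φ0, hφ0⟩ := hne
  have hgc : Continuous fun φ : E →L[ℝ] ℝ => φ (V φ) :=
    isBoundedBilinearMap_apply.continuous.comp (continuous_id.prodMk V.continuous)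
  have hg0 : 0 ≤ φ0 (V φ0) := le_trans (by positivity) (h.pos φ0)
  set R : ℝ := φ0 (V φ0) / m + 1 with hR
  have hR1 : 1 ≤ R := by
    have : 0 ≤ φ0 (V φ0) / m := div_nonneg hg0 hm.le
    linarith
  have hRm : φ0 (V φ0) ≤ m * R ^ 2 := by
    have h1 : m * R = φ0 (V φ0) + m := by rw [hR]; field_simp
    nlinarith
  have hbig : ∀ φ : E →L[ℝ] ℝ, R < ‖φ‖ → φ0 (V φ0) ≤ φ (V φ) := by
    intro φ hφ
    have h1 := h.pos φ
    have h2 : R ^ 2 ≤ ‖φ‖ ^ 2 := by gcongr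
    nlinarith
  have hφ0R : φ0 ∈ closedBall (0 : E →L[ℝ] ℝ) (‖φ0‖ + R) := by
    rw [mem_closedBall, dist_zero_right]; linarith
  have hcpt : IsCompact (K ∩ closedBall (0 : E →L[ℝ] ℝ) (‖φ0‖ + R)) :=
    (isCompact_closedBall _ _).inter_left hKc
  obtain ⟨u, hu, humin⟩ := hcpt.exists_isMinOn ⟨φ0, hφ0, hφ0R⟩ hgc.continuousOn
  have hmin : ∀ φ ∈ K, u (V u) ≤ φ (V φ) := by
    intro φ hφ
    by_cases hb : φ ∈ closedBall (0 : E →L[ℝ] ℝ) (‖φ0‖ + R)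
    · exact humin ⟨hφ, hb⟩
    · rw [mem_closedBall, dist_zero_right, not_le] at hb
      exact (show u (V u) ≤ φ0 (V φ0) from humin ⟨hφ0, hφ0R⟩).trans
        (hbig φ (by linarith [norm_nonneg φ0]))
  refine ⟨u, hu.1, fun φ hφ => ?_⟩
  by_contra hcon
  push Not at hcon
  set c := u (V u) - φ (V u) with hc
  have hcpos : 0 < c := by linarith
  set g := (φ - u) (V (φ - u)) with hgd
  have hg : 0 ≤ g := le_trans (by positivity) (h.pos (φ - u))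
  obtain ⟨t, ht0, ht1, htg⟩ : ∃ t : ℝ, 0 < t ∧ t ≤ 1 ∧ t * g < 2 * c := by
    refine ⟨min 1 (c / (g + 1)), by positivity, min_le_left _ _, ?_⟩
    calc min 1 (c / (g + 1)) * g ≤ c / (g + 1) * g :=
          mul_le_mul_of_nonneg_right (min_le_right _ _) hg
      _ ≤ c := by
          rw [div_mul_eq_mul_div, div_le_iff₀ (by positivity)]
          nlinarith
      _ < 2 * c := by linarith
  have hmem : u + t • (φ - u) ∈ K := by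
    have := hK hu.1 hφ (a := 1 - t) (b := t) (by linarith) ht0.le (by ring)
    convert this using 1
    rw [smul_sub, sub_smul (1 : ℝ) t u, one_smul]; abel
  have h1 := hmin _ hmem
  have h2 : (u + t • (φ - u)) (V (u + t • (φ - u))) = u (V u) + 2 * t * (φ (V u) - u (V u)) +
      t * t * g := by
    have e1 : u (V (φ - u)) = (φ - u) (V u) := h.sym _ _
    rw [hgd]
    simp only [map_add, map_smul, add_apply, smul_apply,
      smul_eq_mul, e1]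
    rw [sub_apply φ u (V u)]
    ring
  rw [h2] at h1
  have h3 : φ (V u) - u (V u) = -c := by rw [hc]; ring
  rw [h3] at h1
  nlinarith

theorem IsMn.unique {m M : ℝ} (hm : 0 < m) {V : (E →L[ℝ] ℝ) →L[ℝ] E} (h : DM m M V)
    {K : Set (E →L[ℝ] ℝ)} {u u' : E →L[ℝ] ℝ} (hu : IsMn V K u) (hu' : IsMn V K u') : u = u' := by
  have h1 := hu.2 u' hu'.1
  have h2 := hu'.2 u hu.1
  have h3 := h.pos (u - u')
  have h4 : (u - u') (V (u - u')) = u (V u) - u' (V u) - (u (V u') - u' (V u')) := by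
    simp only [map_sub, sub_apply]
  rw [h4] at h3
  have h5 : m * ‖u - u'‖ ^ 2 ≤ 0 := by linarith
  have h6 : ‖u - u'‖ ^ 2 ≤ 0 := by
    by_contra hcon
    push Not at hcon
    have := mul_pos hm hcon
    linarith
  have h7 : ‖u - u'‖ = 0 := by
    have := sq_nonneg ‖u - u'‖
    exact pow_eq_zero_iff (two_ne_zero) |>.1 (le_antisymm h6 this)
  exact sub_eq_zero.1 (norm_eq_zero.1 h7)

theorem ft_bound {m M : ℝ} (hm : 0 < m) {V : (E →L[ℝ] ℝ) →L[ℝ] E} (h : DM m M V)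
    {u : E →L[ℝ] ℝ} (hu : u ≠ 0) : ‖ft V u‖ ≤ M / (m * ‖u‖) := by
  have hu0 : 0 < ‖u‖ := norm_pos_iff.2 hu
  have h1 := h.pos u
  have h2 : 0 < u (V u) := lt_of_lt_of_le (by positivity) h1
  have h3 := h.norm_le u
  have hM : 0 ≤ M := h.M0
  rw [ft, norm_neg, norm_smul, norm_inv, Real.norm_eq_abs, abs_of_pos h2]
  calc (u (V u))⁻¹ * ‖V u‖ ≤ (m * ‖u‖ ^ 2)⁻¹ * (M * ‖u‖) := by gcongr
    _ = M / (m * ‖u‖) := by field_simp

theorem mn_comp {m M : ℝ} (hm : 0 < m) {V : (E →L[ℝ] ℝ) →L[ℝ] E} (h : DM m M V)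
    {K : Set (E →L[ℝ] ℝ)} {u : E →L[ℝ] ℝ} (hu : IsMn V K u) (hu0 : u ≠ 0) {φ : E →L[ℝ] ℝ}
    (hφ : φ ∈ K) : m * ‖u‖ ≤ M * ‖φ‖ := by
  have hup : 0 < ‖u‖ := norm_pos_iff.2 hu0
  have h1 := h.pos u
  have h2 := hu.2 φ hφ
  have h3 := (le_abs_self _).trans (h.abs_le φ u)
  have h4 : m * ‖u‖ * ‖u‖ ≤ M * ‖φ‖ * ‖u‖ := by nlinarith
  exact le_of_mul_le_mul_right h4 hup

/-- the hypotheses of the Lipschitz estimate -/
structure Cmp (m M L N : ℝ) (V V' : (E →L[ℝ] ℝ) →L[ℝ] E) (K K' : Set (E →L[ℝ] ℝ))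
    (u u' : E →L[ℝ] ℝ) (w : E) : Prop where
  h : DM m M V
  h' : DM m M V'
  dif : ‖V - V'‖ ≤ L * ‖w‖
  mn : IsMn V K u
  mn' : IsMn V' K' u'
  lo : N ≤ ‖u‖
  lo' : N ≤ ‖u'‖
  mv : ∀ φ ∈ K, -1 < φ w → (1 + φ w)⁻¹ • φ ∈ K'
  mv' : ∀ φ ∈ K', φ w < 1 → (1 - φ w)⁻¹ • φ ∈ K

theorem Cmp.flip {m M L N : ℝ} {V V' : (E →L[ℝ] ℝ) →L[ℝ] E} {K K' : Set (E →L[ℝ] ℝ)}
    {u u' : E →L[ℝ] ℝ} {w : E} (c : Cmp m M L N V V' K K' u u' w) :
    Cmp m M L N V' V K' K u' u (-w) := by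
  refine ⟨c.h', c.h, ?_, c.mn', c.mn, c.lo', c.lo, ?_, ?_⟩
  · have h1 : ‖V' - V‖ = ‖V - V'‖ := norm_sub_rev V' V
    rw [h1, norm_neg]; exact c.dif
  · intro φ hφ h1
    have := c.mv' φ hφ (by rw [map_neg] at h1; linarith)
    rwa [map_neg, ← sub_eq_add_neg]
  · intro φ hφ h1
    have := c.mv φ hφ (by rw [map_neg] at h1; linarith)
    rwa [map_neg, sub_neg_eq_add]

theorem Cmp.comp {m M L N : ℝ} (hm : 0 < m) (hN : 0 < N) {V V' : (E →L[ℝ] ℝ) →L[ℝ] E}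
    {K K' : Set (E →L[ℝ] ℝ)}
    {u u' : E →L[ℝ] ℝ} {w : E} (c : Cmp m M L N V V' K K' u u' w) (hs : ‖w‖ * ‖u'‖ < 1 / 4) :
    m * ‖u‖ ≤ M * (2 * ‖u'‖) := by
  have hM : 0 ≤ M := c.h.M0
  have h1 : |u' w| ≤ ‖w‖ * ‖u'‖ := by
    have := u'.le_opNorm w
    rw [Real.norm_eq_abs] at this
    linarith
  have h2 := abs_le.1 (h1.trans hs.le)
  have h3 := c.mv' u' c.mn'.1 (by linarith [h2.2])
  have hu0 : u ≠ 0 := by
    intro h0
    have := c.lo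
    rw [h0, norm_zero] at this
    linarith
  have h4 := mn_comp hm c.h c.mn hu0 h3
  refine h4.trans (mul_le_mul_of_nonneg_left ?_ hM)
  rw [norm_smul, norm_inv, Real.norm_eq_abs, abs_of_pos (by linarith)]
  refine mul_le_mul_of_nonneg_right ?_ (norm_nonneg _)
  rw [inv_le_comm₀ (by linarith) (by norm_num)]
  linarith

/-- the difference of the shortest elements -/
theorem Cmp.diff {m M L N : ℝ} (hm : 0 < m) (hN : 0 < N) (hL : 0 ≤ L)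
    {V V' : (E →L[ℝ] ℝ) →L[ℝ] E} {K K' : Set (E →L[ℝ] ℝ)}
    {u u' : E →L[ℝ] ℝ} {w : E} (c : Cmp m M L N V V' K K' u u' w) (hs : ‖w‖ * ‖u‖ < 1 / 4)
    (hs' : ‖w‖ * ‖u'‖ < 1 / 4) :
    ‖u - u'‖ ≤ (2 + (8 * M + 2 * (L / N)) / m) * (‖w‖ * ‖u'‖ ^ 2) := by
  have hM : 0 ≤ M := c.h.M0
  have ab : ∀ ψ : E →L[ℝ] ℝ, |ψ w| ≤ ‖w‖ * ‖ψ‖ := by
    intro ψ
    have := ψ.le_opNorm w
    rw [Real.norm_eq_abs] at this
    linarith
  have h1 := abs_le.1 ((ab u).trans hs.le)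
  have h1' := abs_le.1 ((ab u').trans hs'.le)
  obtain ⟨φ, hφ⟩ : ∃ φ : E →L[ℝ] ℝ, φ = (1 - u' w)⁻¹ • u' := ⟨_, rfl⟩
  have hφK : φ ∈ K := by
    rw [hφ]; exact c.mv' u' c.mn'.1 (by linarith [h1'.2])
  have hk' : 0 < 1 - u' w := by linarith [h1'.2]
  have hu' : u' = (1 - u' w) • φ := by rw [hφ, smul_smul, mul_inv_cancel₀ hk'.ne', one_smul]
  have hφn : ‖φ‖ ≤ 2 * ‖u'‖ := by
    rw [hφ, norm_smul, norm_inv, Real.norm_eq_abs, abs_of_pos hk']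
    refine mul_le_mul_of_nonneg_right ?_ (norm_nonneg _)
    rw [inv_le_comm₀ hk' (by norm_num)]
    linarith
  have ht : (1 + φ w) * (1 - u' w) = 1 := by
    have : φ w = (1 - u' w)⁻¹ * u' w := by rw [hφ]; rfl
    rw [this]; field_simp; ring
  have htpos : 0 < 1 + φ w := by
    by_contra hcon
    push Not at hcon
    have := mul_nonpos_of_nonpos_of_nonneg hcon hk'.le
    linarith
  have hinv : (1 + φ w)⁻¹ = 1 - u' w := by
    rw [inv_eq_iff_eq_inv, ← one_div, eq_div_iff hk'.ne']; exact ht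
  -- first inequality
  set d := u - φ with hd
  have i1 : d (V u) ≤ 0 := by
    have := c.mn.2 φ hφK
    rw [hd, sub_apply]; linarith
  -- second inequality
  have hku : 0 < 1 + u w := by linarith [h1.1]
  have i2 : d w * φ (V' φ) ≤ (1 + φ w) * d (V' φ) := by
    have h2 := c.mn'.2 _ (c.mv u c.mn.1 (by linarith))
    have e1 : V' u' = (1 - u' w) • V' φ := by
      conv_lhs => rw [hu']
      rw [map_smul]
    rw [e1, map_smul, map_smul, smul_eq_mul, smul_eq_mul] at h2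
    have h3 : u' (V' φ) ≤ ((1 + u w)⁻¹ • u) (V' φ) := le_of_mul_le_mul_left h2 hk'
    have e2 : u' (V' φ) = (1 + φ w)⁻¹ * φ (V' φ) := by
      conv_lhs => rw [hu']
      rw [hinv]; rfl
    rw [e2, smul_apply, smul_eq_mul, inv_mul_eq_div, inv_mul_eq_div,
      div_le_div_iff₀ htpos hku] at h3
    have e3 : d w = u w - φ w := rfl
    have e4 : d (V' φ) = u (V' φ) - φ (V' φ) := rfl
    rw [e3, e4]
    nlinarith
  have i2' : -(d (V' φ)) ≤ ‖w‖ * ‖d‖ * (M * (‖φ‖ * ‖φ‖)) * (1 - u' w) := by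
    have h4 : -(d (V' φ)) * (1 + φ w) ≤ -(d w * φ (V' φ)) := by linarith
    have h5 : -(d w * φ (V' φ)) ≤ ‖w‖ * ‖d‖ * (M * (‖φ‖ * ‖φ‖)) := by
      refine (neg_le_abs _).trans ?_
      rw [abs_mul]
      exact mul_le_mul (ab d) (c.h'.abs_le φ φ) (abs_nonneg _) (by positivity)
    have h6 := h4.trans h5
    have h7 := mul_le_mul_of_nonneg_right h6 hk'.le
    calc -(d (V' φ)) = -(d (V' φ)) * ((1 + φ w) * (1 - u' w)) := by rw [ht, mul_one]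
      _ = -(d (V' φ)) * (1 + φ w) * (1 - u' w) := by ring
      _ ≤ _ := h7
  have i3 : d (V d) ≤ ‖w‖ * ‖d‖ * (M * (‖φ‖ * ‖φ‖)) * (1 - u' w) + ‖d‖ * (L * ‖w‖ * ‖φ‖) := by
    have e1 : d (V d) = d (V u) - d (V' φ) - d ((V - V') φ) := by
      rw [sub_apply V V' φ]
      simp only [hd, map_sub]
      ring
    have h8 : -(d ((V - V') φ)) ≤ ‖d‖ * (L * ‖w‖ * ‖φ‖) := by
      refine (neg_le_abs _).trans ?_
      rw [← Real.norm_eq_abs]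
      refine (d.le_opNorm _).trans (mul_le_mul_of_nonneg_left ?_ (norm_nonneg _))
      exact ((V - V').le_opNorm _).trans (mul_le_mul_of_nonneg_right c.dif (norm_nonneg _))
    rw [e1]; linarith
  have hN' : L * ‖φ‖ ≤ (2 * (L / N)) * ‖u'‖ ^ 2 := by
    have h9 : 1 ≤ ‖u'‖ / N := (one_le_div hN).2 c.lo'
    calc L * ‖φ‖ ≤ L * (2 * ‖u'‖) * 1 := by
          rw [mul_one]; exact mul_le_mul_of_nonneg_left hφn hL
      _ ≤ L * (2 * ‖u'‖) * (‖u'‖ / N) := mul_le_mul_of_nonneg_left h9 (by positivity)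
      _ = (2 * (L / N)) * ‖u'‖ ^ 2 := by ring
  have hd1 : m * ‖d‖ ≤ (8 * M + 2 * (L / N)) * (‖w‖ * ‖u'‖ ^ 2) := by
    rcases eq_or_lt_of_le (norm_nonneg d) with h0 | h0
    · rw [← h0, mul_zero]; positivity
    · have h10 := (c.h.pos d).trans i3
      have h11 : (1 - u' w) ≤ 2 := by linarith [h1'.1]
      have h12 : ‖φ‖ * ‖φ‖ ≤ 4 * ‖u'‖ ^ 2 := by
        have := mul_le_mul hφn hφn (norm_nonneg _) (by positivity)
        nlinarith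
      have h13 : ‖w‖ * ‖d‖ * (M * (‖φ‖ * ‖φ‖)) * (1 - u' w) ≤
          ‖w‖ * ‖d‖ * (M * (4 * ‖u'‖ ^ 2)) * 2 := by gcongr
      have h14 : ‖d‖ * (L * ‖w‖ * ‖φ‖) ≤ ‖d‖ * (‖w‖ * ((2 * (L / N)) * ‖u'‖ ^ 2)) := by
        have : L * ‖w‖ * ‖φ‖ = ‖w‖ * (L * ‖φ‖) := by ring
        rw [this]; gcongr
      have h15 : (m * ‖d‖) * ‖d‖ ≤ ((8 * M + 2 * (L / N)) * (‖w‖ * ‖u'‖ ^ 2)) * ‖d‖ := by
        nlinarith
      exact le_of_mul_le_mul_right h15 h0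
  have hd2 : ‖d‖ ≤ ((8 * M + 2 * (L / N)) / m) * (‖w‖ * ‖u'‖ ^ 2) := by
    rw [div_mul_eq_mul_div, le_div_iff₀ hm]
    linarith
  have hd3 : ‖φ - u'‖ ≤ 2 * (‖w‖ * ‖u'‖ ^ 2) := by
    have e1 : φ - u' = (u' w) • φ := by
      ext v
      have e2 := congrArg (fun f : E →L[ℝ] ℝ => f v) hu'
      simp only [smul_apply, sub_apply, smul_eq_mul] at e2 ⊢
      linarith
    rw [e1, norm_smul, Real.norm_eq_abs]
    calc |u' w| * ‖φ‖ ≤ (‖w‖ * ‖u'‖) * (2 * ‖u'‖) :=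
          mul_le_mul (ab u') hφn (norm_nonneg _) (by positivity)
      _ = 2 * (‖w‖ * ‖u'‖ ^ 2) := by ring
  calc ‖u - u'‖ = ‖d + (φ - u')‖ := by rw [hd]; congr 1; abel
    _ ≤ ‖d‖ + ‖φ - u'‖ := norm_add_le _ _
    _ ≤ ((8 * M + 2 * (L / N)) / m) * (‖w‖ * ‖u'‖ ^ 2) + 2 * (‖w‖ * ‖u'‖ ^ 2) := add_le_add hd2 hd3
    _ = _ := by ring

/-- the foot points at comparable scales -/
theorem Cmp.lipB {m M L N : ℝ} (hm : 0 < m) (hN : 0 < N) (hL : 0 ≤ L)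
    {V V' : (E →L[ℝ] ℝ) →L[ℝ] E} {K K' : Set (E →L[ℝ] ℝ)}
    {u u' : E →L[ℝ] ℝ} {w : E} (c : Cmp m M L N V V' K K' u u' w) (hs : ‖w‖ * ‖u‖ < 1 / 4)
    (hs' : ‖w‖ * ‖u'‖ < 1 / 4) {C1 C2 R : ℝ} (hC1 : C1 = 2 + (8 * M + 2 * (L / N)) / m)
    (hC2 : C2 = M * C1 + L / N) (hR : R = 2 * M / m) :
    ‖ft V u - ft V' u'‖ ≤ (C2 / m * R ^ 2 + M / m ^ 2 * (C1 * M * R + C2 * R ^ 2)) * ‖w‖ := by
  have hM : 0 ≤ M := c.h.M0
  have hC10 : 0 ≤ C1 := by rw [hC1]; positivity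
  have hC20 : 0 ≤ C2 := by rw [hC2]; positivity
  have hR0 : 0 ≤ R := by rw [hR]; positivity
  obtain ⟨x, hx⟩ : ∃ x, x = ‖u‖ := ⟨_, rfl⟩
  obtain ⟨y, hy⟩ : ∃ y, y = ‖u'‖ := ⟨_, rfl⟩
  obtain ⟨a, ha⟩ : ∃ a, a = ‖w‖ := ⟨_, rfl⟩
  have ha0 : 0 ≤ a := by rw [ha]; exact norm_nonneg _
  have hx0 : 0 < x := by rw [hx]; exact lt_of_lt_of_le hN c.lo
  have hy0 : 0 < y := by rw [hy]; exact lt_of_lt_of_le hN c.lo'
  have hyx : y ≤ R * x := by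
    have h1 := c.flip.comp hm hN (by rw [norm_neg]; exact hs)
    rw [← hx, ← hy] at h1
    rw [hR, div_mul_eq_mul_div, le_div_iff₀ hm]
    linarith
  have hdiff : ‖u - u'‖ ≤ C1 * (a * y ^ 2) := by
    rw [hC1, ha, hy]; exact c.diff hm hN hL hs hs'
  have hV : ‖V u - V' u'‖ ≤ C2 * (a * y ^ 2) := by
    have e1 : V u - V' u' = V (u - u') + (V - V') u' := by
      rw [sub_apply V V' u', map_sub]; abel
    have h2 : ‖(V - V') u'‖ ≤ (L / N) * (a * y ^ 2) := by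
      refine ((V - V').le_opNorm _).trans ?_
      have h3 : ‖V - V'‖ * ‖u'‖ ≤ (L * a) * y := by
        rw [ha, hy]; exact mul_le_mul_of_nonneg_right c.dif (norm_nonneg _)
      refine h3.trans ?_
      have h4 : 1 ≤ y / N := by rw [hy]; exact (one_le_div hN).2 c.lo'
      calc (L * a) * y = (L * a) * y * 1 := by ring
        _ ≤ (L * a) * y * (y / N) := mul_le_mul_of_nonneg_left h4 (by positivity)
        _ = (L / N) * (a * y ^ 2) := by ring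
    rw [e1]
    calc ‖V (u - u') + (V - V') u'‖ ≤ ‖V (u - u')‖ + ‖(V - V') u'‖ := norm_add_le _ _
      _ ≤ M * (C1 * (a * y ^ 2)) + (L / N) * (a * y ^ 2) := by
          refine add_le_add ((c.h.norm_le _).trans ?_) h2
          exact mul_le_mul_of_nonneg_left hdiff hM
      _ = C2 * (a * y ^ 2) := by rw [hC2]; ring
  obtain ⟨g, hg⟩ : ∃ g, g = u (V u) := ⟨_, rfl⟩
  obtain ⟨g', hg'⟩ : ∃ g', g' = u' (V' u') := ⟨_, rfl⟩
  have hgm : m * x ^ 2 ≤ g := by rw [hx, hg]; exact c.h.pos u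
  have hgm' : m * y ^ 2 ≤ g' := by rw [hy, hg']; exact c.h'.pos u'
  have hg0 : 0 < g := lt_of_lt_of_le (by positivity) hgm
  have hg0' : 0 < g' := lt_of_lt_of_le (by positivity) hgm'
  have hgg : |g - g'| ≤ C1 * (a * y ^ 2) * (M * x) + y * (C2 * (a * y ^ 2)) := by
    have e1 : g - g' = (u - u') (V u) + u' (V u - V' u') := by
      rw [hg, hg', sub_apply, map_sub]; ring
    rw [e1]
    refine (abs_add_le _ _).trans (add_le_add ?_ ?_)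
    · rw [← Real.norm_eq_abs]
      refine ((u - u').le_opNorm _).trans ?_
      have h5 : ‖V u‖ ≤ M * x := by rw [hx]; exact c.h.norm_le u
      exact mul_le_mul hdiff h5 (norm_nonneg _) (by positivity)
    · rw [← Real.norm_eq_abs]
      refine (u'.le_opNorm _).trans ?_
      rw [← hy]
      exact mul_le_mul_of_nonneg_left hV hy0.le
  have hV'n : ‖V' u'‖ ≤ M * y := by rw [hy]; exact c.h'.norm_le u'
  have e2 : ft V u - ft V' u' = -(g⁻¹ • (V u - V' u')) + (g'⁻¹ - g⁻¹) • V' u' := by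
    rw [ft, ft, ← hg, ← hg', smul_sub, sub_smul]; abel
  have hyx2 : y ^ 2 ≤ R ^ 2 * x ^ 2 := by
    have := mul_le_mul hyx hyx hy0.le (by positivity)
    nlinarith
  have t1 : ‖-(g⁻¹ • (V u - V' u'))‖ ≤ C2 / m * R ^ 2 * a := by
    rw [norm_neg, norm_smul, norm_inv, Real.norm_eq_abs, abs_of_pos hg0]
    calc g⁻¹ * ‖V u - V' u'‖ ≤ (m * x ^ 2)⁻¹ * (C2 * (a * y ^ 2)) := by gcongr
      _ ≤ (m * x ^ 2)⁻¹ * (C2 * (a * (R ^ 2 * x ^ 2))) := by gcongr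
      _ = C2 / m * R ^ 2 * a := by field_simp
  have t2 : ‖(g'⁻¹ - g⁻¹) • V' u'‖ ≤ M / m ^ 2 * (C1 * M * R + C2 * R ^ 2) * a := by
    have e3 : g'⁻¹ - g⁻¹ = (g - g') / (g * g') := by field_simp
    rw [norm_smul, e3, Real.norm_eq_abs, abs_div, abs_of_pos (mul_pos hg0 hg0')]
    calc |g - g'| / (g * g') * ‖V' u'‖
        ≤ (C1 * (a * y ^ 2) * (M * x) + y * (C2 * (a * y ^ 2))) / ((m * x ^ 2) * (m * y ^ 2)) *
          (M * y) := by gcongr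
      _ = M / m ^ 2 * a * (C1 * M * (x * y) + C2 * y ^ 2) / x ^ 2 := by field_simp
      _ ≤ M / m ^ 2 * a * (C1 * M * (x * (R * x)) + C2 * (R ^ 2 * x ^ 2)) / x ^ 2 := by gcongr
      _ = M / m ^ 2 * (C1 * M * R + C2 * R ^ 2) * a := by field_simp
  rw [e2, ← ha]
  refine (norm_add_le _ _).trans ?_
  calc _ ≤ C2 / m * R ^ 2 * a + M / m ^ 2 * (C1 * M * R + C2 * R ^ 2) * a := add_le_add t1 t2
    _ = _ := by ring

/-- the foot point is Lipschitz -/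
theorem Cmp.lip {m M L N : ℝ} (hm : 0 < m) (hM : 0 ≤ M) (hN : 0 < N) (hL : 0 ≤ L) :
    ∃ C : ℝ, 0 ≤ C ∧ ∀ (V V' : (E →L[ℝ] ℝ) →L[ℝ] E) (K K' : Set (E →L[ℝ] ℝ))
      (u u' : E →L[ℝ] ℝ) (w : E), Cmp m M L N V V' K K' u u' w →
      ‖ft V u - ft V' u'‖ ≤ C * ‖w‖ := by
  obtain ⟨C1, hC1⟩ : ∃ C1, C1 = 2 + (8 * M + 2 * (L / N)) / m := ⟨_, rfl⟩
  obtain ⟨C2, hC2⟩ : ∃ C2, C2 = M * C1 + L / N := ⟨_, rfl⟩
  obtain ⟨R, hR⟩ : ∃ R, R = 2 * M / m := ⟨_, rfl⟩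
  obtain ⟨CB, hCB⟩ : ∃ CB, CB = C2 / m * R ^ 2 + M / m ^ 2 * (C1 * M * R + C2 * R ^ 2) := ⟨_, rfl⟩
  obtain ⟨CA, hCA⟩ : ∃ CA, CA = 8 * (M / m) + 4 * (M / m) * R := ⟨_, rfl⟩
  have hC10 : 0 ≤ C1 := by rw [hC1]; positivity
  have hC20 : 0 ≤ C2 := by rw [hC2]; positivity
  have hR0 : 0 ≤ R := by rw [hR]; positivity
  have hCB0 : 0 ≤ CB := by rw [hCB]; positivity
  have hCA0 : 0 ≤ CA := by rw [hCA]; positivity
  have fb : ∀ (V : (E →L[ℝ] ℝ) →L[ℝ] E) (u : E →L[ℝ] ℝ) (b : ℝ), DM m M V → N ≤ ‖u‖ →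
      1 / 4 ≤ b * ‖u‖ → ‖ft V u‖ ≤ 4 * (M / m) * b := by
    intro V u b h hu hb
    have hu0 : 0 < ‖u‖ := lt_of_lt_of_le hN hu
    refine (ft_bound hm h (norm_pos_iff.1 hu0)).trans ?_
    rw [div_le_iff₀ (by positivity)]
    calc M = 4 * M * (1 / 4) := by ring
      _ ≤ 4 * M * (b * ‖u‖) := by gcongr
      _ = 4 * (M / m) * b * (m * ‖u‖) := by field_simp
  have half : ∀ (V V' : (E →L[ℝ] ℝ) →L[ℝ] E) (K K' : Set (E →L[ℝ] ℝ))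
      (u u' : E →L[ℝ] ℝ) (w : E), Cmp m M L N V V' K K' u u' w → 1 / 4 ≤ ‖w‖ * ‖u‖ →
      ‖w‖ * ‖u'‖ < 1 / 4 → ‖ft V u‖ + ‖ft V' u'‖ ≤ CA * ‖w‖ := by
    intro V V' K K' u u' w c h1 h2
    have h3 := fb V u ‖w‖ c.h c.lo h1
    have h4 := c.comp hm hN h2
    have h5 : ‖u‖ ≤ R * ‖u'‖ := by
      rw [hR, div_mul_eq_mul_div, le_div_iff₀ hm]; linarith
    have h6 := fb V' u' (R * ‖w‖) c.h' c.lo' (by
      calc 1 / 4 ≤ ‖w‖ * ‖u‖ := h1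
        _ ≤ ‖w‖ * (R * ‖u'‖) := by gcongr
        _ = R * ‖w‖ * ‖u'‖ := by ring)
    have h7 : 0 ≤ 4 * (M / m) * ‖w‖ := by positivity
    calc ‖ft V u‖ + ‖ft V' u'‖ ≤ 4 * (M / m) * ‖w‖ + 4 * (M / m) * (R * ‖w‖) := add_le_add h3 h6
      _ ≤ CA * ‖w‖ := by rw [hCA]; linarith
  refine ⟨CA + CB, by positivity, ?_⟩
  intro V V' K K' u u' w c
  have hw : 0 ≤ ‖w‖ := norm_nonneg w
  have hCAw : 0 ≤ CA * ‖w‖ := by positivity
  have hCBw : 0 ≤ CB * ‖w‖ := by positivity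
  by_cases h1 : ‖w‖ * ‖u‖ < 1 / 4
  · by_cases h2 : ‖w‖ * ‖u'‖ < 1 / 4
    · have := c.lipB hm hN hL h1 h2 hC1 hC2 hR
      rw [← hCB] at this
      linarith
    · push Not at h2
      have h3 := half V' V K' K u' u (-w) c.flip (by rwa [norm_neg]) (by rwa [norm_neg])
      rw [norm_neg] at h3
      have h4 := norm_sub_le (ft V u) (ft V' u')
      linarith
  · push Not at h1
    by_cases h2 : ‖w‖ * ‖u'‖ < 1 / 4
    · have h3 := half V V' K K' u u' w c h1 h2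
      have h4 := norm_sub_le (ft V u) (ft V' u')
      linarith
    · push Not at h2
      have h3 := fb V u ‖w‖ c.h c.lo h1
      have h4 := fb V' u' ‖w‖ c.h' c.lo' h2
      have h5 := norm_sub_le (ft V u) (ft V' u')
      have h6 : 4 * (M / m) * ‖w‖ + 4 * (M / m) * ‖w‖ ≤ CA * ‖w‖ := by
        rw [hCA]
        have : 0 ≤ 4 * (M / m) * R * ‖w‖ := by positivity
        linarith
      linarith

end est

end Pool.Agent.W689.Mk
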