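import Pool.Agent.W689.Mk.Ht

set_option autoImplicit false

open Set Filter Topology MeasureTheory Metric
open scoped ENNReal NNReal

namespace Pool.Agent.W689.Mk

section
variable {X Γ E : Type} [TopologicalSpace X] [T2Space X] [Group Γ] [MulAction Γ X]
  [NormedAddCommGroup E] [NormedSpace ℝ E] [FiniteDimensional ℝ E]
  {dev : X → E} {hol : Γ →* (E ≃ᵃ[ℝ] E)}

theorem lin_smul (γ : Γ) (t : ℝ) (v : E) : lin hol γ (t • v) = t • lin hol γ v :=
  (hol γ).linear.map_smul t v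

theorem lin_neg (γ : Γ) (v : E) : lin hol γ (-v) = -lin hol γ v :=
  (hol γ).linear.map_neg v

/-- a vector field on the quotient -/
structure VF (dev : X → E) (hol : Γ →* (E ≃ᵃ[ℝ] E)) (Z : X → E) : Prop where
  ll : LL dev Z
  eq : ∀ (γ : Γ) (x : X), Z (γ • x) = lin hol γ (Z x)

/-- the small time flow-like maps are bijective -/
theorem exists_flow (D : AffData X Γ E dev hol) {Z : X → E} (hZ : VF dev hol Z)
    {m : ℕ} (c : Fin m → Cht dev Z) (hc : ∀ x, ∃ (γ : Γ) (i : Fin m), ∃ q ∈ ball (c i).p (c i).r,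
      x = γ • (c i).σ q) (η : ℝ) (hη : 0 < η) :
    ∃ t0 > 0, ∀ t, 0 ≤ t → t ≤ t0 →
      (∀ i, t * (c i).L ≤ 1 / 2 ∧ t * (c i).L ≤ η ∧ t * (c i).B ≤ (c i).r / 8) ∧
      ∃ h : X ≃ X, (∀ x, Ex dev x (t • Z x) (h x)) ∧ Continuous h.symm ∧
        ∀ (γ : Γ) x, h (γ • x) = γ • h x := by
  classical
  have hZc : Continuous Z := hZ.ll.continuous D.loc.continuous
  let K' : Set X := ⋃ i, (c i).σ '' closedBall (c i).p (2 * (c i).r)
  have hK' : IsCompact K' := by
    refine isCompact_iUnion fun i => (isCompact_closedBall _ _).image_of_continuousOn ?_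
    exact (c i).sec.cont.mono (closedBall_subset_ball (by linarith [(c i).hr]))
  have hF := D.pd K' hK'
  have hbd : ∀ γ : Γ, ∃ B : ℝ, ∀ x ∈ K', ‖Z (γ • x)‖ ≤ B := by
    intro γ
    obtain ⟨B, hB⟩ := hK'.exists_bound_of_continuousOn (f := fun x => Z (γ • x))
      (hZc.comp (D.cont γ)).continuousOn
    exact ⟨B, hB⟩
  choose B hB using hbd
  -- the constant
  obtain ⟨t0, ht0, hA, hBr⟩ : ∃ t0 > 0, (∀ i, t0 * (c i).L ≤ 1 / 2 ∧ t0 * (c i).L ≤ η ∧
      t0 * (c i).B ≤ (c i).r / 8) ∧ ∀ i, ∀ γ ∈ hF.toFinset, t0 * B γ < (c i).r := by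
    have ev : ∀ᶠ t : ℝ in 𝓝[>] 0, (∀ i, t * (c i).L ≤ 1 / 2 ∧ t * (c i).L ≤ η ∧
        t * (c i).B ≤ (c i).r / 8) ∧ ∀ i, ∀ γ ∈ hF.toFinset, t * B γ < (c i).r := by
      have small : ∀ a b : ℝ, 0 < b → ∀ᶠ t : ℝ in 𝓝[>] 0, t * a < b := by
        intro a b hb
        have h1 : Tendsto (fun t : ℝ => t * a) (𝓝[>] 0) (𝓝 0) := by
          have : Tendsto (fun t : ℝ => t * a) (𝓝 0) (𝓝 (0 * a)) := tendsto_id.mul_const a
          rw [zero_mul] at this
          exact this.mono_left nhdsWithin_le_nhds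
        exact h1.eventually_lt_const hb
      refine Filter.Eventually.and ?_ ?_
      · rw [eventually_all]
        intro i
        filter_upwards [small (c i).L (1 / 2) (by norm_num), small (c i).L η hη,
          small (c i).B ((c i).r / 8) (by linarith [(c i).hr])] with t h1 h2 h3
        exact ⟨h1.le, h2.le, h3.le⟩
      · rw [eventually_all]
        intro i
        rw [Filter.eventually_all_finset]
        intro γ _
        exact small (B γ) (c i).r (c i).hr
    obtain ⟨t0, h1, h2⟩ := (ev.and self_mem_nhdsWithin).exists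
    exact ⟨t0, h2, h1.1, h1.2⟩
  refine ⟨t0, ht0, fun t ht htt => ?_⟩
  have hA' : ∀ i, t * (c i).L ≤ 1 / 2 ∧ t * (c i).L ≤ η ∧ t * (c i).B ≤ (c i).r / 8 := by
    intro i
    obtain ⟨h1, h2, h3⟩ := hA i
    have hL := (c i).hL
    have hB := (c i).hB
    exact ⟨(mul_le_mul_of_nonneg_right htt hL).trans h1,
      (mul_le_mul_of_nonneg_right htt hL).trans h2, (mul_le_mul_of_nonneg_right htt hB).trans h3⟩
  have hBt : ∀ i, ∀ γ ∈ hF.toFinset, ∀ x ∈ K', ‖t • Z (γ • x)‖ < (c i).r := by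
    intro i γ hγ x hx
    rw [norm_smul, Real.norm_eq_abs, abs_of_nonneg ht]
    have h1 := hB γ x hx
    have h2 := hBr i γ hγ
    have h3 := norm_nonneg (Z (γ • x))
    nlinarith
  refine ⟨hA', ?_⟩
  -- the small balls
  have in1 : ∀ i, ball (c i).p (c i).r ⊆ ball (c i).p (4 * (c i).r) :=
    fun i => ball_subset_ball (by linarith [(c i).hr])
  have in2 : ∀ i, ball (c i).p (2 * (c i).r) ⊆ ball (c i).p (4 * (c i).r) :=
    fun i => ball_subset_ball (by linarith [(c i).hr])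
  have step : ∀ i, ∀ q ∈ ball (c i).p (c i).r, q + t • Z ((c i).σ q) ∈ ball (c i).p (2 * (c i).r) := by
    intro i q hq
    have h1 : ‖t • Z ((c i).σ q)‖ ≤ (c i).r / 8 := by
      rw [norm_smul, Real.norm_eq_abs, abs_of_nonneg ht]
      exact (mul_le_mul_of_nonneg_left ((c i).bd q (in1 i hq)) ht).trans (hA' i).2.2
    rw [mem_ball, dist_eq_norm] at hq ⊢
    have h2 : q + t • Z ((c i).σ q) - (c i).p = (q - (c i).p) + t • Z ((c i).σ q) := by abel
    rw [h2]
    have := norm_add_le (q - (c i).p) (t • Z ((c i).σ q))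
    linarith [(c i).hr]
  have hex : ∀ x, ∃ y, Ex dev x (t • Z x) y := by
    intro x
    obtain ⟨γ, i, q, hq, rfl⟩ := hc x
    refine ⟨γ • (c i).σ (q + t • Z ((c i).σ q)), ?_⟩
    rw [hZ.eq, ← lin_smul]
    exact D.Ex_smul γ ((c i).Ex (in1 i hq) (in2 i (step i q hq)))
  choose h hh using hex
  have hhe : ∀ (γ : Γ) x, h (γ • x) = γ • h x := by
    intro γ x
    refine (hh (γ • x)).unique D.loc ?_
    rw [hZ.eq, ← lin_smul]
    exact D.Ex_smul γ (hh x)
  have hloc : ∀ i, ∀ q ∈ ball (c i).p (4 * (c i).r), q + t • Z ((c i).σ q) ∈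
      ball (c i).p (4 * (c i).r) → h ((c i).σ q) = (c i).σ (q + t • Z ((c i).σ q)) := by
    intro i q hq hq'
    exact (hh _).unique D.loc ((c i).Ex hq hq')
  -- preimages of points of small balls
  have pre : ∀ i, ∀ q ∈ ball (c i).p (c i).r, ∀ x, h x = (c i).σ q →
      ∃ q' ∈ ball (c i).p (2 * (c i).r), x = (c i).σ q' ∧ q' + t • Z ((c i).σ q') = q := by
    intro i q hq x hx
    obtain ⟨γ, j, q1, hq1, hx1⟩ := hc x
    have hk1 : (c j).σ q1 ∈ K' :=
      mem_iUnion.2 ⟨j, q1, (ball_subset_closedBall.trans (closedBall_subset_closedBall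
        (by linarith [(c j).hr]))) hq1, rfl⟩
    have hk2 : h ((c j).σ q1) ∈ K' := by
      rw [hloc j q1 (in1 j hq1) (in2 j (step j q1 hq1))]
      exact mem_iUnion.2 ⟨j, _, ball_subset_closedBall (step j q1 hq1), rfl⟩
    have hk3 : γ • h ((c j).σ q1) ∈ K' := by
      rw [← hhe, ← hx1, hx]
      exact mem_iUnion.2 ⟨i, q, (ball_subset_closedBall.trans (closedBall_subset_closedBall
        (by linarith [(c i).hr]))) hq, rfl⟩
    have hγ : γ ∈ hF.toFinset := by
      rw [Set.Finite.mem_toFinset]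
      exact ⟨_, hk2, hk3⟩
    have hn : ‖t • Z x‖ < (c i).r := by
      rw [hx1]
      exact hBt i γ hγ _ hk1
    have hq' : q + -(t • Z x) ∈ ball (c i).p (2 * (c i).r) := by
      rw [mem_ball, dist_eq_norm] at hq ⊢
      have h2 : q + -(t • Z x) - (c i).p = (q - (c i).p) - t • Z x := by abel
      rw [h2]
      have := norm_sub_le (q - (c i).p) (t • Z x)
      linarith
    have h3 : Ex dev ((c i).σ q) (-(t • Z x)) x := by
      have := (hh x).symm
      rwa [hx] at this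
    have h4 := h3.unique D.loc ((c i).Ex (in1 i hq) (in2 i hq'))
    refine ⟨q + -(t • Z x), hq', h4, ?_⟩
    rw [← h4]
    abel
  have hbij : Function.Bijective h := by
    constructor
    · intro x x' hxx
      obtain ⟨γ, i, q, hq, hy⟩ := hc (h x)
      have e1 : h (γ⁻¹ • x) = (c i).σ q := by rw [hhe, hy, inv_smul_smul]
      have e2 : h (γ⁻¹ • x') = (c i).σ q := by rw [hhe, ← hxx, hy, inv_smul_smul]
      obtain ⟨q1, hq1, e3, e4⟩ := pre i q hq _ e1
      obtain ⟨q2, hq2, e5, e6⟩ := pre i q hq _ e2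
      have h1 := (c i).inj ht (hA' i).1 (in2 i hq1) (in2 i hq2)
      rw [e4, e6, sub_self, norm_zero, mul_zero] at h1
      have h2 : q1 = q2 := sub_eq_zero.1 (norm_le_zero_iff.1 h1)
      have h3 : γ⁻¹ • x = γ⁻¹ • x' := by rw [e3, e5, h2]
      exact smul_left_cancel _ h3
    · intro y
      obtain ⟨γ, i, q, hq, rfl⟩ := hc y
      obtain ⟨q', hq', he⟩ := (c i).solve ht (hA' i).1 (hA' i).2.2 hq
      refine ⟨γ • (c i).σ q', ?_⟩
      rw [hhe, hloc i q' (in2 i hq') (by rw [he]; exact in1 i hq), he]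
  let H : X ≃ X := Equiv.ofBijective h hbij
  have hHs : ∀ (γ : Γ) y, H.symm (γ • y) = γ • H.symm y := by
    intro γ y
    apply H.injective
    rw [H.apply_symm_apply]
    show _ = h _
    rw [hhe]
    show _ = γ • H (H.symm y)
    rw [H.apply_symm_apply]
  refine ⟨H, hh, ?_, hhe⟩
  rw [continuous_iff_continuousAt]
  intro y
  obtain ⟨γ, i, q, hq, hy⟩ := hc y
  -- local inverse
  have hsol : ∀ q ∈ ball (c i).p (c i).r, ∃ q' ∈ ball (c i).p (2 * (c i).r),
      q' + t • Z ((c i).σ q') = q := fun q hq => (c i).solve ht (hA' i).1 (hA' i).2.2 hq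
  choose! ψ hψ1 hψ2 using hsol
  have hψL : ContinuousOn ψ (ball (c i).p (c i).r) := by
    have : LipschitzOnWith 2 ψ (ball (c i).p (c i).r) := by
      refine LipschitzOnWith.of_dist_le_mul fun a ha b hb => ?_
      rw [dist_eq_norm, dist_eq_norm]
      have := (c i).inj ht (hA' i).1 (in2 i (hψ1 a ha)) (in2 i (hψ1 b hb))
      rw [hψ2 a ha, hψ2 b hb] at this
      exact_mod_cast this
    exact this.continuousOn
  have hHσ : ∀ q ∈ ball (c i).p (c i).r, H.symm ((c i).σ q) = (c i).σ (ψ q) := by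
    intro q hq
    apply H.injective
    rw [H.apply_symm_apply]
    show _ = h _
    rw [hloc i (ψ q) (in2 i (hψ1 q hq)) (by rw [hψ2 q hq]; exact in1 i hq), hψ2 q hq]
  let N : Set X := (fun x => γ⁻¹ • x) ⁻¹' ((c i).σ '' ball (c i).p (c i).r)
  have hN : N ∈ 𝓝 y := by
    have ho := (c i).sec.isOpen_image D.loc (V := ball (c i).p (c i).r) isOpen_ball (in1 i)
    refine (ho.preimage (D.cont γ⁻¹)).mem_nhds ?_
    show γ⁻¹ • y ∈ (c i).σ '' ball (c i).p (c i).r
    rw [hy, inv_smul_smul]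
    exact ⟨q, hq, rfl⟩
  have heq : ∀ x ∈ N, H.symm x = γ • (c i).σ (ψ (dev (γ⁻¹ • x))) := by
    rintro x ⟨q, hq, hqx⟩
    have h1 : x = γ • (c i).σ q := by
      beta_reduce at hqx
      rw [hqx, smul_inv_smul]
    have h2 : dev (γ⁻¹ • x) = q := by
      rw [h1, inv_smul_smul, (c i).sec.inv q (in1 i hq)]
    rw [h2, h1, hHs, hHσ q hq]
  have hcont : ContinuousOn (fun x => γ • (c i).σ (ψ (dev (γ⁻¹ • x)))) N := by
    refine (D.cont γ).comp_continuousOn ?_
    refine ((c i).sec.cont.comp (hψL.comp (s := N) (f := fun x => dev (γ⁻¹ • x))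
      (D.loc.continuous.comp (D.cont γ⁻¹)).continuousOn ?_) ?_)
    · rintro x ⟨q, hq, hqx⟩
      beta_reduce at hqx
      show dev (γ⁻¹ • x) ∈ ball (c i).p (c i).r
      rw [← hqx, (c i).sec.inv q (in1 i hq)]
      exact hq
    · rintro x ⟨q, hq, hqx⟩
      beta_reduce at hqx
      show ψ (dev (γ⁻¹ • x)) ∈ ball (c i).p (4 * (c i).r)
      rw [← hqx, (c i).sec.inv q (in1 i hq)]
      exact in2 i (hψ1 q hq)
  exact ((hcont.continuousAt hN).congr (by
    filter_upwards [hN] with x hx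
    exact (heq x hx).symm))

end

end Pool.Agent.W689.Mk
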