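import Pool.Agent.W689.Mk.Av
import Pool.Agent.W689.Mk.Prin2
import Pool.Agent.W689.Mk.Tube
import Pool.Agent.W689.Mk.Est

set_option autoImplicit false

open Set Filter Topology Metric

namespace Pool.Agent.W689.Mk

section one
variable {X E : Type} [TopologicalSpace X] [T2Space X] [NormedAddCommGroup E] [NormedSpace ℝ E]
  {dev : X → E}

/-- the half-spaces seen from a point -/
def Hs (dev : X → E) (y : X) : Set (E →L[ℝ] ℝ) := {φ | ∀ v, -1 < φ v → ∃ z, Ex dev y v z}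

omit [T2Space X] in
theorem Hs.convex (y : X) : Convex ℝ (Hs dev y) := by
  intro φ hφ ψ hψ a b ha hb hab v hv
  by_contra hcon
  have h1 : φ v ≤ -1 := by
    by_contra h; push Not at h; exact hcon (hφ v h)
  have h2 : ψ v ≤ -1 := by
    by_contra h; push Not at h; exact hcon (hψ v h)
  have h3 : (a • φ + b • ψ) v = a * φ v + b * ψ v := rfl
  rw [h3] at hv
  nlinarith

omit [T2Space X] in
theorem Hs.closed (y : X) : IsClosed (Hs dev y) := by
  have h1 : Hs dev y = ⋂ v : E, {φ : E →L[ℝ] ℝ | -1 < φ v → ∃ z, Ex dev y v z} := by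
    ext φ; simp [Hs]
  rw [h1]
  refine isClosed_iInter fun v => ?_
  by_cases h : ∃ z, Ex dev y v z
  · have : {φ : E →L[ℝ] ℝ | -1 < φ v → ∃ z, Ex dev y v z} = univ := by
      ext φ; simp [h]
    rw [this]; exact isClosed_univ
  · have : {φ : E →L[ℝ] ℝ | -1 < φ v → ∃ z, Ex dev y v z} = {φ | φ v ≤ -1} := by
      ext φ
      constructor
      · intro h1
        by_contra h2
        have h3 : -1 < φ v := by
          by_contra h4; exact h2 (not_lt.1 h4)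
        exact h (h1 h3)
      · intro h1 h2
        have h3 : φ v ≤ -1 := h1
        linarith
    rw [this]
    exact isClosed_le (ContinuousLinearMap.apply ℝ ℝ v).continuous continuous_const

theorem open_half (φ : E →L[ℝ] ℝ) (a : ℝ) : IsOpen {v | a < φ v} :=
  isOpen_lt continuous_const φ.continuous

theorem convex_half (φ : E →L[ℝ] ℝ) (a : ℝ) : Convex ℝ {v | a < φ v} :=
  convex_halfSpace_gt φ.isLinear a

theorem Hs.move (hloc : IsLocalHomeomorph dev) {y y' : X} {w : E} {φ : E →L[ℝ] ℝ}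
    (hφ : φ ∈ Hs dev y) (hw : -1 < φ w) (hy : Ex dev y w y') : (1 + φ w)⁻¹ • φ ∈ Hs dev y' := by
  obtain ⟨σ, hσ, hσE⟩ := sec_of_Ex hloc (x := y) (open_half φ (-1)) (convex_half φ (-1)) hφ
  have h1 : y' = σ (dev y + w) := hy.unique hloc (hσE w hw)
  intro v hv
  have hpos : 0 < 1 + φ w := by linarith
  have hv' : -1 < (1 + φ w)⁻¹ * φ v := hv
  have h2 : -1 < φ w + φ v := by
    rw [inv_mul_eq_div, lt_div_iff₀ hpos] at hv'
    linarith
  rw [h1]
  refine ⟨_, hσ.Ex ?_ ?_⟩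
  · show -1 < φ (dev y + w - dev y)
    rwa [add_sub_cancel_left]
  · show -1 < φ (dev y + w + v - dev y)
    have : dev y + w + v - dev y = w + v := by abel
    rw [this, map_add]; exact h2

end one

section
variable {X Γ E : Type} [TopologicalSpace X] [T2Space X] [Group Γ] [MulAction Γ X]
  [NormedAddCommGroup E] [NormedSpace ℝ E] [FiniteDimensional ℝ E]
  {dev : X → E} {hol : Γ →* (E ≃ᵃ[ℝ] E)}

/-- the linear holonomy as a continuous linear map -/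
noncomputable def cl (hol : Γ →* (E ≃ᵃ[ℝ] E)) (γ : Γ) : E →L[ℝ] E :=
  LinearMap.toContinuousLinearMap ((hol γ).linear : E →ₗ[ℝ] E)

theorem cl_apply (γ : Γ) (v : E) : cl hol γ v = lin hol γ v := rfl

theorem cl_inv (γ : Γ) (v : E) : cl hol γ⁻¹ (cl hol γ v) = v := lin_inv_apply γ v

theorem cl_inv' (γ : Γ) (v : E) : cl hol γ (cl hol γ⁻¹ v) = v := by
  have := cl_inv (hol := hol) γ⁻¹ v
  rwa [inv_inv] at this

theorem cl_mul (γ δ : Γ) (v : E) : cl hol (γ * δ) v = cl hol γ (cl hol δ v) := lin_mul γ δ v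

theorem Hs.smul (D : AffData X Γ E dev hol) (γ : Γ) {y : X} {φ : E →L[ℝ] ℝ}
    (hφ : φ ∈ Hs dev y) : φ.comp (cl hol γ⁻¹) ∈ Hs dev (γ • y) := by
  intro v hv
  obtain ⟨z, hz⟩ := hφ (cl hol γ⁻¹ v) hv
  have h1 := D.Ex_smul γ hz
  rw [← cl_apply, cl_inv'] at h1
  exact ⟨_, h1⟩

/-- the quadratic form of a family of vectors -/
noncomputable def Tb {m : ℕ} (b : Fin m → E) : (E →L[ℝ] ℝ) →L[ℝ] E :=
  ∑ i, (ContinuousLinearMap.apply ℝ ℝ (b i)).smulRight (b i)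

omit [FiniteDimensional ℝ E] in
theorem Tb_apply {m : ℕ} (b : Fin m → E) (φ : E →L[ℝ] ℝ) : Tb b φ = ∑ i, φ (b i) • b i := by
  simp [Tb]

/-- the invariant dual metric -/
noncomputable def dm (hol : Γ →* (E ≃ᵃ[ℝ] E)) (ρ : X → ℝ) (y : X) : (E →L[ℝ] ℝ) →L[ℝ] E :=
  av ρ (fun γ : Γ => Tb fun i => cl hol γ⁻¹ (Module.finBasis ℝ E i)) y

omit [TopologicalSpace X] [T2Space X] in
theorem av_eq {W : Type} [NormedAddCommGroup W] [NormedSpace ℝ W] {ρ : X → ℝ} {x : X}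
    {F : Finset Γ} (hF : ∀ γ : Γ, γ ∉ F → ρ (γ • x) = 0) (P : Γ → W) :
    av ρ P x = ∑ γ ∈ F, ρ (γ • x) • P γ :=
  tsum_eq_sum fun γ hγ => by rw [hF γ hγ, zero_smul]

omit [TopologicalSpace X] [T2Space X] in
theorem dm_pair {ρ : X → ℝ} {x : X} {F : Finset Γ} (hF : ∀ γ : Γ, γ ∉ F → ρ (γ • x) = 0)
    (φ ψ : E →L[ℝ] ℝ) : φ (dm hol ρ x ψ) = ∑ γ ∈ F, ρ (γ • x) *
      ∑ i, ψ (cl hol γ⁻¹ (Module.finBasis ℝ E i)) * φ (cl hol γ⁻¹ (Module.finBasis ℝ E i)) := by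
  rw [dm, av_eq hF, sum_apply, map_sum]
  refine Finset.sum_congr rfl fun γ _ => ?_
  rw [smul_apply, map_smul, Tb_apply, map_sum, smul_eq_mul]
  congr 1
  refine Finset.sum_congr rfl fun i _ => ?_
  rw [map_smul, smul_eq_mul]

theorem dm_sym {ρ : X → ℝ} (hρ : Wt Γ dev ρ) (x : X) (φ ψ : E →L[ℝ] ℝ) :
    φ (dm hol ρ x ψ) = ψ (dm hol ρ x φ) := by
  obtain ⟨F, hF⟩ := hρ.fin x
  rw [dm_pair hF, dm_pair hF]
  refine Finset.sum_congr rfl fun γ _ => ?_
  congr 1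
  exact Finset.sum_congr rfl fun i _ => mul_comm _ _

theorem dm_pos {ρ : X → ℝ} (hρ : Wt Γ dev ρ) (x : X) {φ : E →L[ℝ] ℝ} (hφ : φ ≠ 0) :
    0 < φ (dm hol ρ x φ) := by
  obtain ⟨F, hF⟩ := hρ.fin x
  have hs : ∑ γ ∈ F, ρ (γ • x) = 1 := by
    rw [← hρ.sum x]
    exact (tsum_eq_sum fun γ hγ => hF γ hγ).symm
  rw [dm_pair hF]
  have hnn : ∀ γ ∈ F, 0 ≤ ρ (γ • x) *
      ∑ i, φ (cl hol γ⁻¹ (Module.finBasis ℝ E i)) * φ (cl hol γ⁻¹ (Module.finBasis ℝ E i)) :=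
    fun γ _ => mul_nonneg (hρ.nonneg _) (Finset.sum_nonneg fun i _ => mul_self_nonneg _)
  refine lt_of_le_of_ne (Finset.sum_nonneg hnn) fun h0 => hφ ?_
  have h1 := (Finset.sum_eq_zero_iff_of_nonneg hnn).1 h0.symm
  obtain ⟨γ, hγ, hne⟩ : ∃ γ ∈ F, ρ (γ • x) ≠ 0 := by
    by_contra hcon
    push Not at hcon
    rw [Finset.sum_eq_zero hcon] at hs
    exact zero_ne_one hs
  have h2 := (mul_eq_zero.1 (h1 γ hγ)).resolve_left hne
  have h3 := (Finset.sum_eq_zero_iff_of_nonneg fun i _ => mul_self_nonneg _).1 h2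
  have h4 : ((φ.comp (cl hol γ⁻¹) : E →L[ℝ] ℝ) : E →ₗ[ℝ] ℝ) = 0 := by
    refine (Module.finBasis ℝ E).ext fun i => ?_
    exact mul_self_eq_zero.1 (h3 i (Finset.mem_univ i))
  ext v
  have h5 := congrArg (fun f : E →ₗ[ℝ] ℝ => f (cl hol γ v)) h4
  have h6 : φ (cl hol γ⁻¹ (cl hol γ v)) = 0 := h5
  rwa [cl_inv] at h6

theorem dm_smul' {ρ : X → ℝ} {y : X} {F : Finset Γ} (hF : ∀ γ : Γ, γ ∉ F → ρ (γ • y) = 0)
    (δ : Γ) (φ : E →L[ℝ] ℝ) :
    dm hol ρ (δ • y) (φ.comp (cl hol δ⁻¹)) = cl hol δ (dm hol ρ y φ) := by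
  rw [dm, av_shift, dm, av_eq hF, av_eq hF, sum_apply, sum_apply, map_sum]
  refine Finset.sum_congr rfl fun γ _ => ?_
  rw [smul_apply, smul_apply, map_smul, Tb_apply, Tb_apply, map_sum]
  congr 1
  refine Finset.sum_congr rfl fun i _ => ?_
  have h1 : ∀ v, cl hol (γ * δ⁻¹)⁻¹ v = cl hol δ (cl hol γ⁻¹ v) := by
    intro v
    rw [mul_inv_rev, inv_inv, cl_mul]
  rw [map_smul, h1]
  congr 1
  show φ (cl hol δ⁻¹ (cl hol δ (cl hol γ⁻¹ _))) = _
  rw [cl_inv]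

theorem dm_smul {ρ : X → ℝ} (hρ : Wt Γ dev ρ) (y : X) (δ : Γ) (φ : E →L[ℝ] ℝ) :
    dm hol ρ (δ • y) (φ.comp (cl hol δ⁻¹)) = cl hol δ (dm hol ρ y φ) := by
  obtain ⟨F, hF⟩ := hρ.fin y
  exact dm_smul' hF δ φ

theorem dm_local (D : AffData X Γ E dev hol) {ρ : X → ℝ} (hρ : Wt Γ dev ρ) (x : X) :
    ∃ U ∈ 𝓝 x, ∃ m M L : ℝ, 0 < m ∧ 0 ≤ M ∧ 0 ≤ L ∧ (∀ y ∈ U, DM m M (dm hol ρ y)) ∧
      ∀ y ∈ U, ∀ z ∈ U, ‖dm hol ρ y - dm hol ρ z‖ ≤ L * ‖dev y - dev z‖ := by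
  have hLL : LL dev (dm hol ρ) := av_ll D hρ _
  have hc := hLL.continuous D.loc.continuous
  obtain ⟨U1, hU1, L, hL, H1⟩ := hLL x
  obtain ⟨m0, hm0, Hm0⟩ : ∃ m0 : ℝ, 0 < m0 ∧ ∀ φ ∈ sphere (0 : E →L[ℝ] ℝ) 1,
      m0 ≤ φ (dm hol ρ x φ) := by
    refine (isCompact_sphere _ _).exists_forall_le' ?_ fun φ hφ => ?_
    · exact (isBoundedBilinearMap_apply.continuous.comp
        (continuous_id.prodMk (dm hol ρ x).continuous)).continuousOn
    · refine dm_pos hρ x fun h0 => ?_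
      rw [h0, mem_sphere, dist_self] at hφ
      exact zero_ne_one hφ
  have hpos : ∀ φ : E →L[ℝ] ℝ, m0 * ‖φ‖ ^ 2 ≤ φ (dm hol ρ x φ) := by
    intro φ
    by_cases h0 : φ = 0
    · rw [h0]; simp
    · have hn : 0 < ‖φ‖ := norm_pos_iff.2 h0
      have h1 := Hm0 (‖φ‖⁻¹ • φ) (by
        rw [mem_sphere, dist_zero_right, norm_smul, norm_inv, norm_norm, inv_mul_cancel₀ hn.ne'])
      rw [map_smul, smul_apply, map_smul, smul_eq_mul, smul_eq_mul] at h1
      have h2 : m0 * ‖φ‖ ^ 2 ≤ ‖φ‖⁻¹ * (‖φ‖⁻¹ * φ (dm hol ρ x φ)) * ‖φ‖ ^ 2 := by gcongr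
      calc m0 * ‖φ‖ ^ 2 ≤ ‖φ‖⁻¹ * (‖φ‖⁻¹ * φ (dm hol ρ x φ)) * ‖φ‖ ^ 2 := h2
        _ = φ (dm hol ρ x φ) := by field_simp
  have hev : ∀ᶠ y in 𝓝 x, ‖dm hol ρ y - dm hol ρ x‖ < min (m0 / 2) 1 := by
    have h1 : Tendsto (fun y => ‖dm hol ρ y - dm hol ρ x‖) (𝓝 x) (𝓝 0) :=
      tendsto_iff_norm_sub_tendsto_zero.1 (hc.tendsto x)
    exact h1.eventually_lt_const (by positivity)
  refine ⟨U1 ∩ {y | ‖dm hol ρ y - dm hol ρ x‖ < min (m0 / 2) 1}, inter_mem hU1 hev, m0 / 2,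
    ‖dm hol ρ x‖ + 1, L, by positivity, by positivity, hL, ?_, ?_⟩
  · intro y hy
    have hy2 : ‖dm hol ρ y - dm hol ρ x‖ < min (m0 / 2) 1 := hy.2
    refine ⟨dm_sym hρ y, fun φ => ?_, ?_⟩
    · have h1 := hpos φ
      have h2 : |φ ((dm hol ρ y - dm hol ρ x) φ)| ≤ (m0 / 2) * ‖φ‖ ^ 2 := by
        rw [← Real.norm_eq_abs]
        calc ‖φ ((dm hol ρ y - dm hol ρ x) φ)‖ ≤ ‖φ‖ * ‖(dm hol ρ y - dm hol ρ x) φ‖ := φ.le_opNorm _
          _ ≤ ‖φ‖ * (‖dm hol ρ y - dm hol ρ x‖ * ‖φ‖) := by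
              gcongr; exact (dm hol ρ y - dm hol ρ x).le_opNorm _
          _ ≤ ‖φ‖ * ((m0 / 2) * ‖φ‖) := by
              gcongr; exact hy2.le.trans (min_le_left _ _)
          _ = _ := by ring
      have h3 := (abs_le.1 h2).1
      have h4 : φ ((dm hol ρ y - dm hol ρ x) φ) = φ (dm hol ρ y φ) - φ (dm hol ρ x φ) := by
        rw [sub_apply, map_sub]
      rw [h4] at h3
      linarith
    · have h1 : ‖dm hol ρ y‖ ≤ ‖dm hol ρ x‖ + ‖dm hol ρ y - dm hol ρ x‖ :=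
        norm_le_norm_add_norm_sub' (dm hol ρ y) (dm hol ρ x)
      have h2 := hy2.trans_le (min_le_right _ _)
      linarith
  · intro y hy z hz
    exact H1 y hy.1 z hz.1

open Classical in
/-- the foot of the perpendicular to the unseen convex set -/
noncomputable def foot (dev : X → E) (hol : Γ →* (E ≃ᵃ[ℝ] E)) (ρ : X → ℝ) (y : X) : E :=
  if h : ∃ u, IsMn (dm hol ρ y) (Hs dev y) u then ft (dm hol ρ y) h.choose else 0

theorem foot_eq (D : AffData X Γ E dev hol) {ρ : X → ℝ} (hρ : Wt Γ dev ρ) {y : X}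
    {u : E →L[ℝ] ℝ} (hu : IsMn (dm hol ρ y) (Hs dev y) u) :
    foot dev hol ρ y = ft (dm hol ρ y) u := by
  have h1 : ∃ u, IsMn (dm hol ρ y) (Hs dev y) u := ⟨u, hu⟩
  obtain ⟨U, hU, m, M, L, hm, -, -, H, -⟩ := dm_local D hρ y
  have h2 : h1.choose = u := h1.choose_spec.unique hm (H y (mem_of_mem_nhds hU)) hu
  rw [foot, dif_pos h1, h2]

theorem foot_zero {ρ : X → ℝ} {y : X} (h : ¬ (Hs dev y).Nonempty) : foot dev hol ρ y = 0 := by
  have h1 : ¬ ∃ u, IsMn (dm hol ρ y) (Hs dev y) u := fun ⟨u, hu⟩ => h ⟨u, hu.1⟩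
  rw [foot, dif_neg h1]

theorem exists_isMn (D : AffData X Γ E dev hol) {ρ : X → ℝ} (hρ : Wt Γ dev ρ) {y : X}
    (h : (Hs dev y).Nonempty) : ∃ u, IsMn (dm hol ρ y) (Hs dev y) u := by
  obtain ⟨U, hU, m, M, L, hm, -, -, H, -⟩ := dm_local D hρ y
  exact exists_mn hm (H y (mem_of_mem_nhds hU)) (Hs.closed y) (Hs.convex y) h

theorem foot_le (D : AffData X Γ E dev hol) {ρ : X → ℝ} (hρ : Wt Γ dev ρ) {y : X}
    (h0 : (0 : E →L[ℝ] ℝ) ∉ Hs dev y) {φ : E →L[ℝ] ℝ} (hφ : φ ∈ Hs dev y) :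
    φ (foot dev hol ρ y) ≤ -1 := by
  obtain ⟨u, hu⟩ := exists_isMn D hρ (y := y) ⟨φ, hφ⟩
  have hu0 : u ≠ 0 := fun h => h0 (h ▸ hu.1)
  have hpos := dm_pos (hol := hol) hρ y hu0
  rw [foot_eq D hρ hu, ft, map_neg, map_smul, smul_eq_mul]
  have h1 := hu.2 φ hφ
  have h2 : 1 ≤ (u (dm hol ρ y u))⁻¹ * φ (dm hol ρ y u) := by
    rw [inv_mul_eq_div, one_le_div hpos]; exact h1
  linarith

theorem foot_self (D : AffData X Γ E dev hol) {ρ : X → ℝ} (hρ : Wt Γ dev ρ) {y : X}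
    (h0 : (0 : E →L[ℝ] ℝ) ∉ Hs dev y) {u : E →L[ℝ] ℝ} (hu : IsMn (dm hol ρ y) (Hs dev y) u) :
    u (foot dev hol ρ y) = -1 := by
  have hu0 : u ≠ 0 := fun h => h0 (h ▸ hu.1)
  have hpos := dm_pos (hol := hol) hρ y hu0
  rw [foot_eq D hρ hu, ft, map_neg, map_smul, smul_eq_mul, inv_mul_cancel₀ hpos.ne']

theorem mn_smul (D : AffData X Γ E dev hol) {ρ : X → ℝ} (hρ : Wt Γ dev ρ) {y : X} (γ : Γ)
    {u : E →L[ℝ] ℝ} (hu : IsMn (dm hol ρ y) (Hs dev y) u) :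
    IsMn (dm hol ρ (γ • y)) (Hs dev (γ • y)) (u.comp (cl hol γ⁻¹)) := by
  refine ⟨Hs.smul D γ hu.1, fun φ hφ => ?_⟩
  rw [dm_smul hρ]
  have h1 := Hs.smul D γ⁻¹ hφ
  rw [inv_inv, inv_smul_smul] at h1
  have h2 := hu.2 _ h1
  show u (cl hol γ⁻¹ (cl hol γ _)) ≤ _
  rw [cl_inv]
  exact h2

theorem foot_smul (D : AffData X Γ E dev hol) {ρ : X → ℝ} (hρ : Wt Γ dev ρ) (γ : Γ) (y : X) :
    foot dev hol ρ (γ • y) = lin hol γ (foot dev hol ρ y) := by
  by_cases h : (Hs dev y).Nonempty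
  · obtain ⟨u, hu⟩ := exists_isMn D hρ h
    rw [foot_eq D hρ hu, foot_eq D hρ (mn_smul D hρ γ hu), ft, dm_smul hρ, ft, ← cl_apply]
    have h1 : (u.comp (cl hol γ⁻¹)) (cl hol γ (dm hol ρ y u)) = u (dm hol ρ y u) := by
      show u (cl hol γ⁻¹ (cl hol γ _)) = _
      rw [cl_inv]
    rw [h1, map_neg, map_smul]
  · have h' : ¬ (Hs dev (γ • y)).Nonempty := by
      rintro ⟨φ, hφ⟩
      apply h
      have h1 := Hs.smul D γ⁻¹ hφ
      rw [inv_smul_smul] at h1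
      exact ⟨_, h1⟩
    rw [foot_zero h, foot_zero h', ← cl_apply, map_zero]

theorem foot_ll (D : AffData X Γ E dev hol) {ρ : X → ℝ} (hρ : Wt Γ dev ρ)
    (h0 : ∀ y, (0 : E →L[ℝ] ℝ) ∉ Hs dev y) : LL dev (foot dev hol ρ) := by
  intro x
  obtain ⟨U, hU, m, M, L, hm, hM, hL, H1, H2⟩ := dm_local D hρ x
  -- lower bound for the functionals
  obtain ⟨κ, hκ, Hκ⟩ : ∃ κ : ℝ, 0 < κ ∧ ∀ φ ∈ Hs dev x, κ ≤ ‖φ‖ := by
    have h1 : (Hs dev x)ᶜ ∈ 𝓝 (0 : E →L[ℝ] ℝ) := (Hs.closed x).isOpen_compl.mem_nhds (h0 x)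
    obtain ⟨κ, hκ, H⟩ := Metric.mem_nhds_iff.1 h1
    refine ⟨κ, hκ, fun φ hφ => ?_⟩
    by_contra hcon
    push Not at hcon
    exact H (by rwa [mem_ball, dist_zero_right]) hφ
  obtain ⟨e, r, hxe, he, hr, hrt⟩ := exists_sec D.loc x
  have hsec := sec_of_target e he (dev x) r hrt
  have hex : e.symm (dev x) = x := by rw [he]; exact e.left_inv hxe
  have hop := hsec.isOpen_image D.loc (V := ball (dev x) (min r (1 / κ))) isOpen_ball
    (ball_subset_ball (min_le_left _ _))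
  have hr' : 0 < min r (1 / κ) := by positivity
  have hsec' := hsec.mono isOpen_ball (convex_ball (dev x) (min r (1 / κ)))
    (ball_subset_ball (min_le_left _ _))
  have hmem : ∀ y ∈ e.symm '' ball (dev x) (min r (1 / κ)),
      ∀ z ∈ e.symm '' ball (dev x) (min r (1 / κ)), Ex dev y (dev z - dev y) z := by
    rintro _ ⟨q, hq, rfl⟩ _ ⟨q', hq', rfl⟩
    rw [hsec'.inv q hq, hsec'.inv q' hq']
    have h1 := hsec'.Ex hq (v := q' - q) (by rwa [add_sub_cancel])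
    rwa [add_sub_cancel] at h1
  have hx' : x ∈ e.symm '' ball (dev x) (min r (1 / κ)) := ⟨dev x, mem_ball_self hr', hex⟩
  have hlow : ∀ y ∈ e.symm '' ball (dev x) (min r (1 / κ)), ∀ φ ∈ Hs dev y, κ / 2 ≤ ‖φ‖ := by
    intro y hy φ hφ
    by_contra hcon
    push Not at hcon
    have h1 := hmem y hy x hx'
    have h2 : ‖dev x - dev y‖ ≤ 1 / κ := by
      obtain ⟨q, hq, rfl⟩ := hy
      rw [hsec'.inv q hq]
      rw [mem_ball, dist_comm, dist_eq_norm] at hq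
      exact hq.le.trans (min_le_right _ _)
    have h3 : |φ (dev x - dev y)| ≤ 1 / 2 := by
      rw [← Real.norm_eq_abs]
      calc ‖φ (dev x - dev y)‖ ≤ ‖φ‖ * ‖dev x - dev y‖ := φ.le_opNorm _
        _ ≤ (κ / 2) * (1 / κ) := by gcongr
        _ = 1 / 2 := by field_simp
    have h4 := (abs_le.1 h3).1
    have h5 := Hκ _ (Hs.move D.loc hφ (by linarith) h1)
    rw [norm_smul, norm_inv, Real.norm_eq_abs, abs_of_pos (by linarith)] at h5
    have h6 : (1 + φ (dev x - dev y))⁻¹ * ‖φ‖ ≤ 2 * ‖φ‖ := by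
      refine mul_le_mul_of_nonneg_right ?_ (norm_nonneg _)
      rw [inv_le_comm₀ (by linarith) (by norm_num)]
      linarith
    linarith
  obtain ⟨C, hC, HC⟩ := Cmp.lip (E := E) hm hM (half_pos hκ) hL
  refine ⟨U ∩ e.symm '' ball (dev x) (min r (1 / κ)), inter_mem hU (hop.mem_nhds hx'),
    C + M / m, by positivity, ?_⟩
  -- one sided estimate
  have one : ∀ y ∈ U ∩ e.symm '' ball (dev x) (min r (1 / κ)),
      ∀ z ∈ U ∩ e.symm '' ball (dev x) (min r (1 / κ)), (Hs dev y).Nonempty →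
      ¬ (Hs dev z).Nonempty → ‖foot dev hol ρ y‖ ≤ (M / m) * ‖dev y - dev z‖ := by
    intro y hy z hz h1 h2
    obtain ⟨u, hu⟩ := exists_isMn D hρ h1
    have h3 : ‖u‖ * ‖dev y - dev z‖ ≥ 1 := by
      have h4 : u (dev z - dev y) ≤ -1 := by
        by_contra hcon
        push Not at hcon
        exact h2 ⟨_, Hs.move D.loc hu.1 hcon (hmem y hy.2 z hz.2)⟩
      have h5 := u.le_opNorm (dev z - dev y)
      rw [Real.norm_eq_abs, norm_sub_rev] at h5
      have h6 := neg_le_abs (u (dev z - dev y))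
      linarith
    have hu0 : u ≠ 0 := fun h => h0 y (h ▸ hu.1)
    have hup : 0 < ‖u‖ := norm_pos_iff.2 hu0
    rw [foot_eq D hρ hu]
    refine (ft_bound hm (H1 y hy.1) hu0).trans ?_
    rw [div_le_iff₀ (by positivity)]
    calc M = M * 1 := by ring
      _ ≤ M * (‖u‖ * ‖dev y - dev z‖) := by gcongr
      _ = M / m * ‖dev y - dev z‖ * (m * ‖u‖) := by field_simp
  intro y hy z hz
  have hMm : 0 ≤ M / m := by positivity
  have hnn : 0 ≤ ‖dev y - dev z‖ := norm_nonneg _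
  by_cases h1 : (Hs dev y).Nonempty
  · by_cases h2 : (Hs dev z).Nonempty
    · obtain ⟨u, hu⟩ := exists_isMn D hρ h1
      obtain ⟨u', hu'⟩ := exists_isMn D hρ h2
      rw [foot_eq D hρ hu, foot_eq D hρ hu']
      have hc : Cmp m M L (κ / 2) (dm hol ρ y) (dm hol ρ z) (Hs dev y) (Hs dev z) u u'
          (dev z - dev y) := by
        refine ⟨H1 y hy.1, H1 z hz.1, ?_, hu, hu', hlow y hy.2 u hu.1, hlow z hz.2 u' hu'.1, ?_, ?_⟩
        · have := H2 y hy.1 z hz.1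
          rwa [norm_sub_rev (dev y)] at this
        · intro φ hφ hw
          exact Hs.move D.loc hφ hw (hmem y hy.2 z hz.2)
        · intro φ hφ hw
          have h3 : φ (dev y - dev z) = - φ (dev z - dev y) := by rw [← map_neg, neg_sub]
          have h4 := Hs.move D.loc hφ (w := dev y - dev z) (by rw [h3]; linarith)
            (hmem z hz.2 y hy.2)
          rwa [h3, ← sub_eq_add_neg] at h4
      have h3 := HC _ _ _ _ _ _ _ hc
      rw [norm_sub_rev (dev z)] at h3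
      have : 0 ≤ M / m * ‖dev y - dev z‖ := by positivity
      linarith
    · have h3 := one y hy z hz h1 h2
      rw [foot_zero (y := z) h2, sub_zero]
      have : 0 ≤ C * ‖dev y - dev z‖ := by positivity
      linarith
  · by_cases h2 : (Hs dev z).Nonempty
    · have h3 := one z hz y hy h2 h1
      rw [foot_zero (y := y) h1, zero_sub, norm_neg]
      rw [norm_sub_rev] at h3
      have : 0 ≤ C * ‖dev y - dev z‖ := by positivity
      linarith
    · rw [foot_zero h1, foot_zero h2, sub_zero, norm_zero]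
      positivity

/-- the set of points seeing a half-space is open -/
theorem Hs.open_set (hloc : IsLocalHomeomorph dev) : IsOpen {y | (Hs dev y).Nonempty} := by
  rw [isOpen_iff_mem_nhds]
  rintro y ⟨φ, hφ⟩
  obtain ⟨e, r, hxe, he, hr, hrt⟩ := exists_sec hloc y
  have hsec := sec_of_target e he (dev y) r hrt
  have hex : e.symm (dev y) = y := by rw [he]; exact e.left_inv hxe
  have hop := hsec.isOpen_image hloc isOpen_ball Subset.rfl
  have h1 : ∀ᶠ z in 𝓝 y, -1 < φ (dev z - dev y) := by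
    have hc : Continuous fun z => φ (dev z - dev y) :=
      φ.continuous.comp (hloc.continuous.sub continuous_const)
    refine hc.continuousAt.eventually_const_lt ?_
    show -1 < φ (dev y - dev y)
    rw [sub_self, map_zero]; norm_num
  filter_upwards [hop.mem_nhds ⟨dev y, mem_ball_self hr, hex⟩, h1] with z hz hz1
  obtain ⟨q, hq, rfl⟩ := hz
  rw [hsec.inv q hq] at hz1
  have h2 := hsec.Ex (mem_ball_self hr) (v := q - dev y) (by rwa [add_sub_cancel])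
  rw [add_sub_cancel, hex] at h2
  exact ⟨_, Hs.move hloc hφ hz1 h2⟩

/-- if a half-space is seen from one point, the structure is complete -/
theorem half_complete (D : AffData X Γ E dev hol) [SecondCountableTopology X]
    [PreconnectedSpace X] {x : X} (hx : (Hs dev x).Nonempty) : IsHomeomorph dev := by
  by_cases h0 : ∃ y, (0 : E →L[ℝ] ℝ) ∈ Hs dev y
  · obtain ⟨y, hy⟩ := h0
    exact homeo_of_all D.loc (x := y) fun v => hy v (by simp)
  exfalso
  push Not at h0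
  have : Nonempty X := ⟨x⟩
  obtain ⟨ρ, hρ⟩ := exists_wt D
  refine principle2 D (Z := foot dev hol ρ) (O := {y | (Hs dev y).Nonempty})
    ⟨foot_ll D hρ h0, foot_smul D hρ⟩ (Hs.open_set D.loc) ⟨x, hx⟩ ?_ ?_ ?_
  · rintro γ y ⟨φ, hφ⟩
    exact ⟨_, Hs.smul D γ hφ⟩
  · intro U σ hσ q hq hqO A hA
    obtain ⟨u, hu⟩ := exists_isMn D hρ (y := σ q) hqO
    have hu0 : u ≠ 0 := fun h => h0 _ (h ▸ hu.1)
    refine dt_zero_of_functional u hu0 ?_
    have h1 : HasFDerivAt (fun q' => foot dev hol ρ (σ q') + (q' - q))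
        (A + ContinuousLinearMap.id ℝ E) q := hA.add ((hasFDerivAt_id q).sub_const q)
    have h2 : HasFDerivAt (fun q' => u (foot dev hol ρ (σ q') + (q' - q)))
        (u.comp (A + ContinuousLinearMap.id ℝ E)) q := u.hasFDerivAt.comp q h1
    have h3 : IsLocalMax (fun q' => u (foot dev hol ρ (σ q') + (q' - q))) q := by
      have hev : ∀ᶠ q' in 𝓝 q, -1 < u (q' - q) := by
        have hc : Continuous fun q' => u (q' - q) := u.continuous.comp (continuous_id.sub continuous_const)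
        refine hc.continuousAt.eventually_const_lt ?_
        show -1 < u (q - q)
        rw [sub_self, map_zero]; norm_num
      filter_upwards [hσ.isOpen.mem_nhds hq, hev] with q' hq' hw
      have h4 := hσ.Ex hq (v := q' - q) (by rwa [add_sub_cancel])
      rw [add_sub_cancel] at h4
      have h5 := foot_le D hρ (h0 _) (Hs.move D.loc hu.1 hw h4)
      rw [smul_apply, smul_eq_mul, inv_mul_eq_div, div_le_iff₀ (by linarith)] at h5
      have h6 := foot_self D hρ (h0 _) hu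
      rw [map_add, sub_self, add_zero, h6]
      linarith
    have h4 := h3.hasFDerivAt_eq_zero h2
    intro v
    have h5 := congrArg (fun g : E →L[ℝ] ℝ => g v) h4
    have h6 : u (A v + v) = 0 := h5
    rwa [add_comm] at h6
  · intro y hy
    exact foot_zero hy

/-- an affine half-space seen from a point gives a point with a functional -/
theorem Hs.of_half (hloc : IsLocalHomeomorph dev) {x : X} {φ : E →L[ℝ] ℝ} (hφ : φ ≠ 0) {a : ℝ}
    (h : ∀ v, a < φ v → ∃ z, Ex dev x v z) : ∃ y, (Hs dev y).Nonempty := by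
  obtain ⟨v, hv⟩ : ∃ v, a < φ v := by
    obtain ⟨v, hv⟩ : ∃ v, φ v ≠ 0 := by
      by_contra hcon
      push Not at hcon
      exact hφ (ContinuousLinearMap.ext hcon)
    refine ⟨((a + 1) / φ v) • v, ?_⟩
    rw [map_smul, smul_eq_mul, div_mul_cancel₀ _ hv]
    linarith
  obtain ⟨σ, hσ, hσE⟩ := sec_of_Ex hloc (x := x) (open_half φ a) (convex_half φ a) h
  refine ⟨σ (dev x + v), (φ v - a)⁻¹ • φ, fun w hw => ?_⟩
  have hpos : 0 < φ v - a := by linarith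
  have hw' : -1 < (φ v - a)⁻¹ * φ w := hw
  rw [inv_mul_eq_div, lt_div_iff₀ hpos] at hw'
  refine ⟨_, hσ.Ex ?_ ?_⟩
  · show a < φ (dev x + v - dev x)
    rwa [add_sub_cancel_left]
  · show a < φ (dev x + v + w - dev x)
    have : dev x + v + w - dev x = v + w := by abel
    rw [this, map_add]; linarith

end

end Pool.Agent.W689.Mk
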