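import Mathlib

set_option autoImplicit false

open Set Filter Topology MeasureTheory
open scoped ENNReal NNReal

namespace Pool.Agent.W689.Mk

section
variable {E : Type} [NormedAddCommGroup E] [NormedSpace ℝ E] [FiniteDimensional ℝ E]

/-- determinants of `1 + t A` -/
noncomputable def dt (A : E →L[ℝ] E) : ℝ := (ContinuousLinearMap.id ℝ E + A).det

theorem dt_cont : Continuous (dt : (E →L[ℝ] E) → ℝ) :=
  ContinuousLinearMap.continuous_det.comp (continuous_const.add continuous_id)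

theorem dt_zero : dt (0 : E →L[ℝ] E) = 1 := by
  unfold dt
  rw [add_zero]
  exact LinearMap.det_id

theorem exists_dt_pos : ∃ δ > 0, ∀ A : E →L[ℝ] E, ‖A‖ ≤ δ → 0 < dt A := by
  have h1 : ∀ᶠ A in 𝓝 (0 : E →L[ℝ] E), 0 < dt A := by
    apply dt_cont.continuousAt.eventually_mem
    rw [dt_zero]
    exact Ioi_mem_nhds one_pos
  obtain ⟨δ, hδ, H⟩ := Metric.eventually_nhds_iff.1 h1
  refine ⟨δ / 2, half_pos hδ, fun A hA => H ?_⟩
  rw [dist_zero_right]
  linarith

theorem mat_poly {m : ℕ} (M : Matrix (Fin m) (Fin m) ℝ) (t : ℝ) :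
    (Matrix.det ((Polynomial.X : Polynomial ℝ) • M.map (Polynomial.C) +
      (1 : Matrix _ _ ℝ).map Polynomial.C)).eval t = Matrix.det (t • M + 1) := by
  have h2 : ∀ q : Polynomial ℝ, q.eval t = (Polynomial.evalRingHom t) q := fun _ => rfl
  rw [h2, RingHom.map_det]
  congr 1
  ext i j
  rw [RingHom.mapMatrix_apply, Matrix.map_apply, Matrix.add_apply, Matrix.smul_apply,
    Matrix.map_apply, Matrix.map_apply, Matrix.add_apply, Matrix.smul_apply, map_add,
    smul_eq_mul, map_mul, smul_eq_mul]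
  simp

theorem dt_poly (A : E →L[ℝ] E) : ∃ q : Polynomial ℝ, q.degree < (Module.finrank ℝ E + 1 : ℕ) ∧
    ∀ t : ℝ, q.eval t = dt (t • A) := by
  let b := Module.finBasis ℝ E
  let M := LinearMap.toMatrix b b (A : E →ₗ[ℝ] E)
  let q : Polynomial ℝ := Matrix.det ((Polynomial.X : Polynomial ℝ) •
    M.map (Polynomial.C) + (1 : Matrix _ _ ℝ).map Polynomial.C)
  refine ⟨q, ?_, fun t => ?_⟩
  · have h := Polynomial.natDegree_det_X_add_C_le M 1
    rw [Fintype.card_fin] at h
    refine lt_of_le_of_lt (Polynomial.degree_le_natDegree) ?_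
    exact_mod_cast Nat.lt_succ_of_le h
  · have h1 : dt (t • A) = Matrix.det (t • M + 1) := by
      unfold dt
      rw [ContinuousLinearMap.det, ← LinearMap.det_toMatrix b]
      congr 1
      have : ((ContinuousLinearMap.id ℝ E + t • A : E →L[ℝ] E) : E →ₗ[ℝ] E) =
          t • (A : E →ₗ[ℝ] E) + LinearMap.id := by
        ext x; simp [add_comm]
      rw [this, map_add, map_smul, LinearMap.toMatrix_id]
    rw [h1]
    exact mat_poly M t

theorem dt_interp (τ : Fin (Module.finrank ℝ E + 1) → ℝ) (hτ : Function.Injective τ) :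
    ∃ lm : Fin (Module.finrank ℝ E + 1) → ℝ, ∑ j, lm j = 1 ∧
      ∀ A : E →L[ℝ] E, ∑ j, lm j * dt (τ j • A) = dt A := by
  have key : ∀ A : E →L[ℝ] E,
      ∑ j, (Lagrange.basis Finset.univ τ j).eval 1 * dt (τ j • A) = dt A := by
    intro A
    obtain ⟨q, hq, h⟩ := dt_poly A
    have h1 := Lagrange.eq_interpolate (s := Finset.univ) (v := τ) (f := q) hτ.injOn
      (by rw [Finset.card_univ, Fintype.card_fin]; exact hq)
    have h2 : q.eval 1 = dt A := by rw [h, one_smul]
    rw [← h2]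
    conv_rhs => rw [h1]
    rw [Lagrange.interpolate_apply, Polynomial.eval_finsetSum]
    refine Finset.sum_congr rfl fun j _ => ?_
    rw [Polynomial.eval_mul, Polynomial.eval_C, h, mul_comm]
  refine ⟨fun j => (Lagrange.basis Finset.univ τ j).eval 1, ?_, key⟩
  have := key 0
  simpa [dt_zero] using this

variable [MeasurableSpace E] [BorelSpace E] (lam : Measure E) [lam.IsAddHaarMeasure]

theorem exists_null_const : ∃ δ : ℝ≥0, 0 < δ ∧ ∀ (s : Set E) (f : E → E),
    ApproximatesLinearOn f (ContinuousLinearMap.id ℝ E) s δ → lam s = 0 → lam (f '' s) = 0 := by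
  have h := addHaar_image_le_mul_of_det_lt lam (ContinuousLinearMap.id ℝ E) (m := 2) (by
    have : (ContinuousLinearMap.id ℝ E).det = 1 := LinearMap.det_id
    rw [this]; simp)
  obtain ⟨δ, hδ, hδ0⟩ := (h.and self_mem_nhdsWithin).exists
  refine ⟨δ, hδ0, fun s f hf hs => ?_⟩
  have := hδ s f hf
  rw [hs, mul_zero] at this
  exact le_antisymm this bot_le

theorem approx_of_lip {Y : E → E} {s : Set E} {L t δ : ℝ} (ht : 0 ≤ t)
    (hY : ∀ q ∈ s, ∀ q' ∈ s, ‖Y q - Y q'‖ ≤ L * ‖q - q'‖) (hδ : 0 ≤ δ) (htL : t * L ≤ δ) :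
    ApproximatesLinearOn (fun q => q + t • Y q) (ContinuousLinearMap.id ℝ E) s ⟨δ, hδ⟩ := by
  intro q hq q' hq'
  have e : q + t • Y q - (q' + t • Y q') - (ContinuousLinearMap.id ℝ E) (q - q') =
      t • (Y q - Y q') := by
    rw [ContinuousLinearMap.id_apply, smul_sub]; abel
  rw [e, norm_smul, Real.norm_eq_abs, abs_of_nonneg ht]
  show t * ‖Y q - Y q'‖ ≤ δ * ‖q - q'‖
  calc t * ‖Y q - Y q'‖ ≤ t * (L * ‖q - q'‖) := by gcongr; exact hY q hq q' hq'
    _ = (t * L) * ‖q - q'‖ := by ring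
    _ ≤ δ * ‖q - q'‖ := by gcongr

theorem inj_of_lip {Y : E → E} {s : Set E} {L t : ℝ} (ht : 0 ≤ t)
    (hY : ∀ q ∈ s, ∀ q' ∈ s, ‖Y q - Y q'‖ ≤ L * ‖q - q'‖) (htL : t * L < 1) :
    InjOn (fun q => q + t • Y q) s := by
  intro q hq q' hq' he
  simp only at he
  have e : q - q' = t • (Y q' - Y q) := by
    rw [smul_sub]
    have : q = q' + t • Y q' - t • Y q := by rw [← he]; abel
    nth_rewrite 1 [this]
    abel
  have h1 : ‖q - q'‖ ≤ (t * L) * ‖q - q'‖ := by
    nth_rewrite 1 [e]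
    rw [norm_smul, Real.norm_eq_abs, abs_of_nonneg ht, norm_sub_rev q q']
    calc t * ‖Y q' - Y q‖ ≤ t * (L * ‖q' - q‖) := by gcongr; exact hY q' hq' q hq
      _ = t * L * ‖q' - q‖ := by ring
  by_contra hne
  have h2 : 0 < ‖q - q'‖ := norm_pos_iff.2 (sub_ne_zero.2 hne)
  nlinarith

/-- change of variables for small Lipschitz perturbations of the identity -/
theorem loc_cov {Y : E → E} {s : Set E} (hs : IsOpen s) {L t : ℝ} (hL : 0 ≤ L) (ht : 0 ≤ t)
    (hY : ∀ q ∈ s, ∀ q' ∈ s, ‖Y q - Y q'‖ ≤ L * ‖q - q'‖) (htL : t * L < 1) {δ : ℝ≥0}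
    (hδ : ∀ (s : Set E) (f : E → E),
      ApproximatesLinearOn f (ContinuousLinearMap.id ℝ E) s δ → lam s = 0 → lam (f '' s) = 0)
    (htδ : t * L ≤ δ) (g : E → ℝ≥0∞) :
    ∫⁻ q in (fun q => q + t • Y q) '' s, g q ∂lam =
      ∫⁻ q in s, ENNReal.ofReal |dt (t • fderiv ℝ Y q)| * g (q + t • Y q) ∂lam := by
  let F : E → E := fun q => q + t • Y q
  let D : Set E := s ∩ {q | DifferentiableAt ℝ Y q}
  have hDm : MeasurableSet D := hs.measurableSet.inter (measurableSet_of_differentiableAt ℝ Y)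
  have hLip : LipschitzOnWith ⟨L, hL⟩ Y s := by
    refine LipschitzOnWith.of_dist_le_mul fun q hq q' hq' => ?_
    rw [dist_eq_norm, dist_eq_norm]
    exact hY q hq q' hq'
  have hnull : lam (s \ D) = 0 := by
    have h1 := hLip.ae_differentiableWithinAt_of_mem (μ := lam)
    rw [ae_iff] at h1
    refine measure_mono_null ?_ h1
    rintro q ⟨hq, hqD⟩ hcon
    exact hqD ⟨hq, (hcon hq).differentiableAt (hs.mem_nhds hq)⟩
  have hFnull : lam (F '' (s \ D)) = 0 := by
    refine hδ _ F ?_ hnull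
    exact (approx_of_lip ht (fun q hq q' hq' => hY q hq.1 q' hq'.1) δ.2 htδ)
  have h1 : (lam.restrict (F '' s)) = lam.restrict (F '' D) := by
    apply Measure.restrict_congr_set
    have hsu : F '' s = F '' D ∪ F '' (s \ D) := by
      rw [← image_union, union_sdiff_cancel (inter_subset_left)]
    rw [hsu]
    exact union_ae_eq_left_of_ae_eq_empty (by rw [ae_eq_empty]; exact hFnull)
  have h2 : lam.restrict s = lam.restrict D := by
    apply Measure.restrict_congr_set
    have hsu : s = D ∪ (s \ D) := (union_sdiff_cancel inter_subset_left).symm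
    nth_rewrite 1 [hsu]
    exact union_ae_eq_left_of_ae_eq_empty (by rw [ae_eq_empty]; exact hnull)
  show ∫⁻ q in F '' s, g q ∂lam = ∫⁻ q in s, ENNReal.ofReal |dt (t • fderiv ℝ Y q)| * g (F q) ∂lam
  rw [h1, h2]
  exact lintegral_image_eq_lintegral_abs_det_fderiv_mul lam hDm (fun q hq => by
    have h3 : HasFDerivAt F (ContinuousLinearMap.id ℝ E + t • fderiv ℝ Y q) q :=
      (hasFDerivAt_id q).add (hq.2.hasFDerivAt.const_smul t)
    exact h3.hasFDerivWithinAt)
    ((inj_of_lip ht hY htL).mono inter_subset_left) g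

end

end Pool.Agent.W689.Mk
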