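import Pool.Agent.W689.Mk.Meas
import Pool.Agent.W689.Mk.Loc

set_option autoImplicit false

open Set Filter Topology MeasureTheory Metric
open scoped ENNReal NNReal

namespace Pool.Agent.W689.Mk

section
variable {X E : Type} [TopologicalSpace X] [T2Space X]
  [NormedAddCommGroup E] [NormedSpace ℝ E] {dev : X → E}

theorem LL.continuous {W : Type} [NormedAddCommGroup W] (hdev : Continuous dev) {u : X → W}
    (hu : LL dev u) : Continuous u := by
  rw [continuous_iff_continuousAt]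
  intro x
  obtain ⟨U, hU, L, hL, H⟩ := hu x
  have hx : x ∈ U := mem_of_mem_nhds hU
  rw [ContinuousAt, tendsto_iff_norm_sub_tendsto_zero]
  have h1 : Tendsto (fun y => L * ‖dev y - dev x‖) (𝓝 x) (𝓝 0) := by
    have h2 : Tendsto (fun y => L * ‖dev y - dev x‖) (𝓝 x) (𝓝 (L * ‖dev x - dev x‖)) :=
      ((hdev.sub continuous_const).norm.const_smul L).tendsto x |>.congr fun y => rfl
    simpa using h2
  refine squeeze_zero' (Eventually.of_forall fun y => norm_nonneg _) ?_ h1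
  filter_upwards [hU] with y hy
  exact H y hy x hx

/-- a chart adapted to a locally Lipschitz vector field -/
structure Cht (dev : X → E) (Z : X → E) where
  σ : E → X
  p : E
  r : ℝ
  L : ℝ
  B : ℝ
  hr : 0 < r
  hL : 0 ≤ L
  hB : 0 ≤ B
  sec : Sec dev (ball p (4 * r)) σ
  lip : ∀ q ∈ ball p (4 * r), ∀ q' ∈ ball p (4 * r), ‖Z (σ q) - Z (σ q')‖ ≤ L * ‖q - q'‖
  bd : ∀ q ∈ ball p (4 * r), ‖Z (σ q)‖ ≤ B

theorem exists_cht (hloc : IsLocalHomeomorph dev) {Z : X → E} (hZ : LL dev Z) (x : X) :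
    ∃ c : Cht dev Z, c.p = dev x ∧ c.σ (dev x) = x := by
  obtain ⟨e, r0, hx, he, hr0, hrt⟩ := exists_sec hloc x
  obtain ⟨U, hU, L, hL, H⟩ := hZ x
  have hxe : e.symm (dev x) = x := by rw [he]; exact e.left_inv hx
  have hc : ContinuousAt e.symm (dev x) := by
    apply e.continuousAt_symm
    rw [he]
    exact e.map_source hx
  have h1 : e.symm ⁻¹' U ∈ 𝓝 (dev x) := by
    apply hc
    rw [hxe]
    exact hU
  obtain ⟨r1, hr1, hr1U⟩ := Metric.mem_nhds_iff.1 h1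
  set r := min r0 r1 / 4 with hrd
  have hr : 0 < r := by positivity
  have e4 : 4 * r = min r0 r1 := by rw [hrd]; ring
  have s0 : ball (dev x) (4 * r) ⊆ ball (dev x) r0 := ball_subset_ball (by rw [e4]; exact min_le_left _ _)
  have s1 : ball (dev x) (4 * r) ⊆ ball (dev x) r1 := ball_subset_ball (by rw [e4]; exact min_le_right _ _)
  have hinv : ∀ q ∈ ball (dev x) (4 * r), dev (e.symm q) = q := by
    intro q hq
    rw [he]
    exact e.right_inv (hrt (s0 hq))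
  refine ⟨⟨e.symm, dev x, r, L, ‖Z x‖ + L * (4 * r), hr, hL, by positivity,
    sec_of_target e he _ _ (s0.trans hrt), ?_, ?_⟩, rfl, hxe⟩
  · intro q hq q' hq'
    have := H _ (hr1U (s1 hq)) _ (hr1U (s1 hq'))
    rwa [hinv q hq, hinv q' hq'] at this
  · intro q hq
    have := H _ (hr1U (s1 hq)) x (mem_of_mem_nhds hU)
    rw [hinv q hq] at this
    have h2 : ‖q - dev x‖ ≤ 4 * r := by
      rw [mem_ball, dist_eq_norm] at hq
      exact hq.le
    calc ‖Z (e.symm q)‖ = ‖Z x + (Z (e.symm q) - Z x)‖ := by congr 1; abel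
      _ ≤ ‖Z x‖ + ‖Z (e.symm q) - Z x‖ := norm_add_le _ _
      _ ≤ ‖Z x‖ + L * ‖q - dev x‖ := by gcongr
      _ ≤ ‖Z x‖ + L * (4 * r) := by gcongr

/-- solving `q + t Z = q'` in a chart -/
theorem Cht.solve [CompleteSpace E] {Z : X → E} (c : Cht dev Z) {t : ℝ} (ht : 0 ≤ t)
    (htL : t * c.L ≤ 1 / 2) (htB : t * c.B ≤ c.r / 8) {q : E} (hq : q ∈ ball c.p c.r) :
    ∃ q' ∈ ball c.p (2 * c.r), q' + t • Z (c.σ q') = q := by
  have hsub : closedBall q (c.r / 2) ⊆ ball c.p (2 * c.r) := by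
    intro q' hq'
    rw [mem_closedBall] at hq'
    rw [mem_ball] at hq ⊢
    have := dist_triangle q' q c.p
    linarith [c.hr]
  have h42 : ball c.p (2 * c.r) ⊆ ball c.p (4 * c.r) := ball_subset_ball (by linarith [c.hr])
  have h41 : ball c.p (c.r) ⊆ ball c.p (4 * c.r) := ball_subset_ball (by linarith [c.hr])
  have ha : ApproximatesLinearOn (fun q => q + t • Z (c.σ q)) (ContinuousLinearMap.id ℝ E)
      (ball c.p (4 * c.r)) ⟨1 / 2, by norm_num⟩ := by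
    intro q hq q' hq'
    have e : q + t • Z (c.σ q) - (q' + t • Z (c.σ q')) - (ContinuousLinearMap.id ℝ E) (q - q') =
        t • (Z (c.σ q) - Z (c.σ q')) := by
      rw [ContinuousLinearMap.id_apply, smul_sub]; abel
    rw [e, norm_smul, Real.norm_eq_abs, abs_of_nonneg ht]
    show t * ‖Z (c.σ q) - Z (c.σ q')‖ ≤ 1 / 2 * ‖q - q'‖
    calc t * ‖Z (c.σ q) - Z (c.σ q')‖ ≤ t * (c.L * ‖q - q'‖) := by gcongr; exact c.lip q hq q' hq'
      _ = (t * c.L) * ‖q - q'‖ := by ring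
      _ ≤ 1 / 2 * ‖q - q'‖ := by gcongr
  let R : (ContinuousLinearMap.id ℝ E).NonlinearRightInverse :=
    { toFun := id
      nnnorm := 1
      bound' := fun y => by simp
      right_inv' := fun y => rfl }
  have h1 := ha.surjOn_closedBall_of_nonlinearRightInverse R (ε := c.r / 2) (b := q)
    (by linarith [c.hr]) (hsub.trans h42)
  have h2 : q ∈ closedBall (q + t • Z (c.σ q)) ((((R.nnnorm : ℝ≥0) : ℝ)⁻¹ - (1 / 2 : ℝ)) * (c.r / 2)) := by
    rw [mem_closedBall, dist_eq_norm]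
    have e1 : q - (q + t • Z (c.σ q)) = -(t • Z (c.σ q)) := by abel
    rw [e1, norm_neg, norm_smul, Real.norm_eq_abs, abs_of_nonneg ht]
    have h3 : t * ‖Z (c.σ q)‖ ≤ t * c.B := by gcongr; exact c.bd q (h41 hq)
    have h4 : (((R.nnnorm : ℝ≥0) : ℝ)⁻¹ - (1 / 2 : ℝ)) * (c.r / 2) = c.r / 4 := by
      show (((1 : ℝ≥0) : ℝ)⁻¹ - (1 / 2 : ℝ)) * (c.r / 2) = c.r / 4
      simp; ring
    rw [h4]
    linarith [c.hr]
  obtain ⟨q', hq', he⟩ := h1 h2
  exact ⟨q', hsub hq', he⟩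

theorem Cht.inj {Z : X → E} (c : Cht dev Z) {t : ℝ} (ht : 0 ≤ t)
    (htL : t * c.L ≤ 1 / 2) {q q' : E} (hq : q ∈ ball c.p (4 * c.r)) (hq' : q' ∈ ball c.p (4 * c.r)) :
    ‖q - q'‖ ≤ 2 * ‖(q + t • Z (c.σ q)) - (q' + t • Z (c.σ q'))‖ := by
  have h1 := c.lip q hq q' hq'
  have e : q - q' = ((q + t • Z (c.σ q)) - (q' + t • Z (c.σ q'))) - t • (Z (c.σ q) - Z (c.σ q')) := by
    rw [smul_sub]; abel
  have h2 : ‖t • (Z (c.σ q) - Z (c.σ q'))‖ ≤ 1 / 2 * ‖q - q'‖ := by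
    rw [norm_smul, Real.norm_eq_abs, abs_of_nonneg ht]
    calc t * ‖Z (c.σ q) - Z (c.σ q')‖ ≤ t * (c.L * ‖q - q'‖) := by gcongr
      _ = (t * c.L) * ‖q - q'‖ := by ring
      _ ≤ 1 / 2 * ‖q - q'‖ := by gcongr
  have h3 := norm_sub_le ((q + t • Z (c.σ q)) - (q' + t • Z (c.σ q'))) (t • (Z (c.σ q) - Z (c.σ q')))
  rw [← e] at h3
  linarith

/-- the geodesic from a point of the small ball -/
theorem Cht.Ex {Z : X → E} (c : Cht dev Z) {q v : E} (hq : q ∈ ball c.p (4 * c.r))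
    (hv : q + v ∈ ball c.p (4 * c.r)) : Ex dev (c.σ q) v (c.σ (q + v)) := by
  have h1 := c.sec.inv q hq
  exact ⟨ball c.p (4 * c.r), c.σ, c.sec, by rw [h1]; exact hq, by rw [h1], by rw [h1]; exact hv,
    by rw [h1]⟩

end

section
variable {X Γ E : Type} [TopologicalSpace X] [T2Space X] [Group Γ] [MulAction Γ X]
  [NormedAddCommGroup E] [NormedSpace ℝ E] [FiniteDimensional ℝ E]
  {dev : X → E} {hol : Γ →* (E ≃ᵃ[ℝ] E)}

theorem exists_charts (D : AffData X Γ E dev hol) {Z : X → E} (hZ : LL dev Z) :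
    ∃ (m : ℕ) (c : Fin m → Cht dev Z), ∀ x, ∃ (γ : Γ) (i : Fin m), ∃ q ∈ ball (c i).p (c i).r,
      x = γ • (c i).σ q := by
  obtain ⟨K, hK, hKc⟩ := D.cc
  choose c hcp hcσ using fun x => exists_cht D.loc hZ x
  have hN : ∀ x ∈ K, (c x).σ '' ball (c x).p (c x).r ∈ 𝓝 x := by
    intro x _
    have ho := (c x).sec.isOpen_image D.loc (V := ball (c x).p (c x).r) isOpen_ball
      (ball_subset_ball (by linarith [(c x).hr]))
    refine ho.mem_nhds ⟨dev x, ?_, hcσ x⟩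
    rw [hcp x]
    exact mem_ball_self (c x).hr
  obtain ⟨T, hTK, hT⟩ := hK.elim_nhds_subcover _ hN
  obtain ⟨e⟩ : Nonempty (T ≃ Fin (Fintype.card T)) := ⟨Fintype.equivFin T⟩
  refine ⟨Fintype.card T, fun i => c (e.symm i), fun x => ?_⟩
  obtain ⟨γ, k, hk, rfl⟩ := hKc x
  obtain ⟨y, hy, q, hq, hqk⟩ := mem_iUnion₂.1 (hT hk)
  refine ⟨γ, e ⟨y, hy⟩, q, ?_, ?_⟩
  · simpa using hq
  · simp only [Equiv.symm_apply_apply]
    rw [hqk]

end

end Pool.Agent.W689.Mk
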