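import Pool.Agent.W689.Mk.Sec

set_option autoImplicit false

open Set Filter Topology MeasureTheory
open scoped ENNReal

namespace Pool.Agent.W689.Mk

section
variable {X E : Type} [TopologicalSpace X] [T2Space X] [SecondCountableTopology X]
  [MeasurableSpace X] [BorelSpace X]
  [NormedAddCommGroup E] [NormedSpace ℝ E] [FiniteDimensional ℝ E] [MeasurableSpace E]
  [BorelSpace E] {dev : X → E} (lam : Measure E)

/-- the measure on the cover which is the given one in all affine charts -/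
def ChartMeas (dev : X → E) (lam : Measure E) (μ : Measure X) : Prop :=
  ∀ (U : Set E) (σ : E → X), Sec dev U σ → μ.restrict (σ '' U) = (lam.restrict U).map σ

theorem sec_aemeas {U : Set E} {σ : E → X} (h : Sec dev U σ) : AEMeasurable σ (lam.restrict U) :=
  h.cont.aemeasurable h.isOpen.measurableSet

theorem map_sec_apply {U : Set E} {σ : E → X} (h : Sec dev U σ) {A : Set X}
    (hA : MeasurableSet A) : (lam.restrict U).map σ A = lam (σ ⁻¹' A ∩ U) := by
  rw [Measure.map_apply_of_aemeasurable (sec_aemeas lam h) hA,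
    Measure.restrict_apply' h.isOpen.measurableSet]

/-- countably many charts -/
theorem exists_cover (hloc : IsLocalHomeomorph dev) [Nonempty X] :
    ∃ (U : ℕ → Set E) (σ : ℕ → E → X), (∀ i, Sec dev (U i) (σ i)) ∧ ⋃ i, σ i '' U i = univ := by
  have h : ∀ x : X, ∃ (U : Set E) (σ : E → X), Sec dev U σ ∧ x ∈ σ '' U := by
    intro x
    obtain ⟨e, r, hx, he, hr, hrt⟩ := exists_sec hloc x
    refine ⟨Metric.ball (dev x) r, e.symm, sec_of_target e he _ _ hrt, dev x,
      Metric.mem_ball_self hr, ?_⟩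
    rw [he]
    exact e.left_inv hx
  choose U σ hs hx using h
  obtain ⟨T, hT, hTU⟩ := TopologicalSpace.countable_cover_nhds
    (f := fun x => σ x '' U x)
    (fun x => ((hs x).isOpen_image hloc (hs x).isOpen Subset.rfl).mem_nhds (hx x))
  have hTne : T.Nonempty := by
    by_contra hne
    rw [not_nonempty_iff_eq_empty] at hne
    subst hne
    simp only [mem_empty_iff_false, iUnion_of_empty, iUnion_empty] at hTU
    exact (univ_nonempty (α := X)).ne_empty hTU.symm
  obtain ⟨g, rfl⟩ := hT.exists_eq_range hTne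
  refine ⟨fun i => U (g i), fun i => σ (g i), fun i => hs _, ?_⟩
  rw [← hTU]
  simp

theorem ChartMeas.unique (hloc : IsLocalHomeomorph dev) [Nonempty X] {μ ν : Measure X}
    (hμ : ChartMeas dev lam μ) (hν : ChartMeas dev lam ν) : μ = ν := by
  obtain ⟨U, σ, hs, hU⟩ := exists_cover hloc
  rw [Measure.ext_iff_of_iUnion_eq_univ hU]
  intro i
  rw [hμ _ _ (hs i), hν _ _ (hs i)]

theorem exists_chartMeas (hloc : IsLocalHomeomorph dev) [Nonempty X] :
    ∃ μ : Measure X, ChartMeas dev lam μ := by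
  obtain ⟨U, σ, hs, hU⟩ := exists_cover hloc
  let B : ℕ → Set X := disjointed fun i => σ i '' U i
  have hWo : ∀ i, IsOpen (σ i '' U i) := fun i => (hs i).isOpen_image hloc (hs i).isOpen Subset.rfl
  have hBm : ∀ i, MeasurableSet (B i) :=
    fun i => MeasurableSet.disjointed (fun j => (hWo j).measurableSet) i
  have hBs : ∀ i, B i ⊆ σ i '' U i := fun i => disjointed_subset _ i
  have hBd : Pairwise (Function.onFun Disjoint B) := disjoint_disjointed _
  have hBU : ⋃ i, B i = univ := by rw [iUnion_disjointed, hU]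
  let ν : ℕ → Measure X := fun i => (lam.restrict (U i)).map (σ i)
  refine ⟨Measure.sum fun i => (ν i).restrict (B i), fun V τ hτ => ?_⟩
  have hVo : IsOpen (τ '' V) := hτ.isOpen_image hloc hτ.isOpen Subset.rfl
  rw [Measure.restrict_sum _ hVo.measurableSet]
  have h1 : (lam.restrict V).map τ = Measure.sum fun i => ((lam.restrict V).map τ).restrict (B i) := by
    rw [← Measure.restrict_iUnion hBd hBm, hBU, Measure.restrict_univ]
  rw [h1]
  congr 1
  funext i
  ext A hA
  rw [Measure.restrict_apply hA, Measure.restrict_apply (hA.inter hVo.measurableSet),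
    Measure.restrict_apply hA, map_sec_apply lam hτ (hA.inter (hBm i)),
    map_sec_apply lam (hs i) ((hA.inter hVo.measurableSet).inter (hBm i))]
  congr 1
  ext p
  constructor
  · rintro ⟨⟨⟨h2, h3⟩, h4⟩, h5⟩
    obtain ⟨q, hq, hqp⟩ := h3
    have h6 : q = p := by rw [← hτ.inv q hq, hqp, (hs i).inv p h5]
    subst h6
    refine ⟨⟨?_, ?_⟩, hq⟩
    · show τ q ∈ A; rw [hqp]; exact h2
    · show τ q ∈ B i; rw [hqp]; exact h4
  · rintro ⟨⟨h2, h3⟩, h4⟩
    obtain ⟨q, hq, hqp⟩ := hBs i h3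
    have h6 : q = p := by rw [← (hs i).inv q hq, hqp, hτ.inv p h4]
    subst h6
    refine ⟨⟨⟨?_, ?_⟩, ?_⟩, hq⟩
    · show σ i q ∈ A; rw [hqp]; exact h2
    · show σ i q ∈ τ '' V; rw [hqp]; exact ⟨q, h4, rfl⟩
    · show σ i q ∈ B i; rw [hqp]; exact h3

theorem ChartMeas.lintegral {μ : Measure X} (hμ : ChartMeas dev lam μ) {U : Set E} {σ : E → X}
    (h : Sec dev U σ) {g : X → ℝ≥0∞} (hg : Measurable g) :
    ∫⁻ x in σ '' U, g x ∂μ = ∫⁻ p in U, g (σ p) ∂lam := by
  rw [hμ U σ h, lintegral_map' hg.aemeasurable (sec_aemeas lam h)]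

end

section
variable {X Γ E : Type} [TopologicalSpace X] [T2Space X] [SecondCountableTopology X]
  [MeasurableSpace X] [BorelSpace X] [Group Γ] [MulAction Γ X]
  [NormedAddCommGroup E] [NormedSpace ℝ E] [FiniteDimensional ℝ E] [MeasurableSpace E]
  [BorelSpace E] {dev : X → E} {hol : Γ →* (E ≃ᵃ[ℝ] E)} (lam : Measure E) [lam.IsAddHaarMeasure]

theorem hol_preimage (D : AffData X Γ E dev hol) (γ : Γ) (S : Set E) :
    lam (hol γ ⁻¹' S) = lam S := by
  have h1 : hol γ ⁻¹' S = ((hol γ).linear : E →ₗ[ℝ] E) ⁻¹' ((fun p => p + hol γ 0) ⁻¹' S) := by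
    ext p
    have : hol γ p = (hol γ).linear p + hol γ 0 := by
      have := hol_add (hol := hol) γ 0 p
      rw [zero_add] at this
      rw [this, add_comm]
    show hol γ p ∈ S ↔ (hol γ).linear p + hol γ 0 ∈ S
    rw [this]
  have hdet := D.unimod γ
  have hdet0 : LinearMap.det ((hol γ).linear : E →ₗ[ℝ] E) ≠ 0 := by
    intro h
    rw [h] at hdet
    simp at hdet
  rw [h1, Measure.addHaar_preimage_linearMap lam hdet0, measure_preimage_add_right, abs_inv, hdet]
  simp

theorem ChartMeas.map_smul (D : AffData X Γ E dev hol) [Nonempty X] {μ : Measure X}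
    (hμ : ChartMeas dev lam μ) (γ : Γ) : μ.map (fun x => γ • x) = μ := by
  refine ChartMeas.unique lam D.loc (fun U σ h => ?_) hμ
  have hW : IsOpen (σ '' U) := h.isOpen_image D.loc h.isOpen Subset.rfl
  ext A hA
  have hm : Measurable fun x : X => γ • x := (D.cont γ).measurable
  rw [Measure.restrict_apply hA, Measure.map_apply hm (hA.inter hW.measurableSet),
    map_sec_apply lam h hA]
  have hs := D.sec_smul γ⁻¹ h
  have hpre : (fun x : X => γ • x) ⁻¹' (A ∩ σ '' U) =
      ((fun x : X => γ • x) ⁻¹' A) ∩ ((fun p => γ⁻¹ • σ (hol γ⁻¹⁻¹ p)) '' (hol γ⁻¹ '' U)) := by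
    ext x
    constructor
    · rintro ⟨h1, ⟨p, hp, hpx⟩⟩
      refine ⟨h1, ⟨hol γ⁻¹ p, ⟨p, hp, rfl⟩, ?_⟩⟩
      beta_reduce
      rw [hol_inv_apply, hpx]
      exact inv_smul_smul γ x
    · rintro ⟨h1, ⟨_, ⟨p, hp, rfl⟩, hpx⟩⟩
      refine ⟨h1, ⟨p, hp, ?_⟩⟩
      beta_reduce at hpx
      rw [hol_inv_apply] at hpx
      rw [← hpx]
      exact (smul_inv_smul γ _).symm
  rw [hpre, ← Measure.restrict_apply (hm hA), hμ _ _ hs, map_sec_apply lam hs (hm hA)]
  have hset : (fun p => γ⁻¹ • σ (hol γ⁻¹⁻¹ p)) ⁻¹' ((fun x : X => γ • x) ⁻¹' A) ∩ hol γ⁻¹ '' U =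
      hol γ ⁻¹' (σ ⁻¹' A ∩ U) := by
    ext p
    constructor
    · rintro ⟨h1, q, hq, rfl⟩
      have h2 : γ • (γ⁻¹ • σ (hol γ⁻¹⁻¹ (hol γ⁻¹ q))) ∈ A := h1
      rw [hol_inv_apply, smul_inv_smul] at h2
      show hol γ (hol γ⁻¹ q) ∈ σ ⁻¹' A ∩ U
      rw [hol_apply_inv]
      exact ⟨h2, hq⟩
    · rintro ⟨h1, h2⟩
      refine ⟨?_, ⟨hol γ p, h2, hol_inv_apply γ p⟩⟩
      show γ • (γ⁻¹ • σ (hol γ⁻¹⁻¹ p)) ∈ A
      rw [inv_inv, smul_inv_smul]
      exact h1
  rw [hset, hol_preimage lam D γ]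

end

end Pool.Agent.W689.Mk
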