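import Pool.Agent.W689.Mk.Bump

set_option autoImplicit false

open Set Filter Topology MeasureTheory Metric
open scoped ENNReal NNReal

namespace Pool.Agent.W689.Mk

section
variable {X Γ E : Type} [TopologicalSpace X] [T2Space X] [SecondCountableTopology X] [Nonempty X]
  [MeasurableSpace X] [BorelSpace X] [Group Γ] [MulAction Γ X]
  [NormedAddCommGroup E] [NormedSpace ℝ E] [FiniteDimensional ℝ E] [MeasurableSpace E]
  [BorelSpace E] {dev : X → E} {hol : Γ →* (E ≃ᵃ[ℝ] E)} (lam : Measure E) [lam.IsAddHaarMeasure]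

/-- the total mass does not depend on the weight -/
theorem weight_indep (D : AffData X Γ E dev hol) {μ : Measure X} (hμ : ChartMeas dev lam μ)
    {G G' : X → ℝ≥0∞} (hG : Measurable G) (hG' : Measurable G')
    (h1 : ∀ x, ∑' γ : Γ, G (γ • x) = 1) (h1' : ∀ x, ∑' γ : Γ, G' (γ • x) = 1) :
    ∫⁻ x, G x ∂μ = ∫⁻ x, G' x ∂μ := by
  have hΓ : Countable Γ := countable_group D
  have hm : ∀ γ : Γ, Measurable fun x : X => γ • x := fun γ => (D.cont γ).measurable
  calc ∫⁻ x, G x ∂μ = ∫⁻ x, ∑' γ : Γ, G x * G' (γ • x) ∂μ := by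
        refine lintegral_congr fun x => ?_
        rw [ENNReal.tsum_mul_left, h1', mul_one]
    _ = ∑' γ : Γ, ∫⁻ x, G x * G' (γ • x) ∂μ :=
        lintegral_tsum fun γ => (hG.mul (hG'.comp (hm γ))).aemeasurable
    _ = ∑' γ : Γ, ∫⁻ x, G (γ⁻¹ • x) * G' x ∂μ := by
        refine tsum_congr fun γ => ?_
        have h2 : ∫⁻ x, G (γ⁻¹ • x) * G' x ∂μ =
            ∫⁻ x, G (γ⁻¹ • x) * G' x ∂(μ.map (fun x => γ • x)) := by
          rw [hμ.map_smul lam D γ]
        have h3 : Measurable fun x => G (γ⁻¹ • x) * G' x := (hG.comp (hm γ⁻¹)).mul hG'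
        rw [h2, lintegral_map h3 (hm γ)]
        refine lintegral_congr fun x => ?_
        rw [inv_smul_smul]
    _ = ∑' γ : Γ, ∫⁻ x, G (γ • x) * G' x ∂μ :=
        Equiv.tsum_eq (Equiv.inv Γ) (fun γ => ∫⁻ x, G (γ • x) * G' x ∂μ)
    _ = ∫⁻ x, ∑' γ : Γ, G (γ • x) * G' x ∂μ :=
        (lintegral_tsum fun γ => ((hG.comp (hm γ)).mul hG').aemeasurable).symm
    _ = ∫⁻ x, G' x ∂μ := by
        refine lintegral_congr fun x => ?_
        rw [ENNReal.tsum_mul_right, h1, one_mul]

/-- change of variables in one chart -/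
theorem chart_cov (D : AffData X Γ E dev hol) {μ : Measure X} (hμ : ChartMeas dev lam μ)
    {Z : X → E} (c : Cht dev Z) {t : ℝ} (ht : 0 ≤ t) (htL : t * c.L ≤ 1 / 2)
    (htB : t * c.B ≤ c.r / 8) {δ : ℝ≥0}
    (hδ : ∀ (s : Set E) (f : E → E),
      ApproximatesLinearOn f (ContinuousLinearMap.id ℝ E) s δ → lam s = 0 → lam (f '' s) = 0)
    (htδ : t * c.L ≤ δ) (h : X ≃ X) (hh : ∀ x, Ex dev x (t • Z x) (h x))
    (hc : Continuous h.symm) {G : X → ℝ≥0∞} (hG : Measurable G)
    (hGs : ∀ x, G x ≠ 0 → x ∈ c.σ '' ball c.p c.r) :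
    ∫⁻ q in ball c.p c.r, ENNReal.ofReal |dt (t • fderiv ℝ (fun q => Z (c.σ q)) q)| * G (c.σ q) ∂lam =
      ∫⁻ y, G (h.symm y) ∂μ := by
  have in1 : ball c.p c.r ⊆ ball c.p (4 * c.r) := ball_subset_ball (by linarith [c.hr])
  let F : E → E := fun q => q + t • Z (c.σ q)
  have step : ∀ q ∈ ball c.p c.r, F q ∈ ball c.p (4 * c.r) := by
    intro q hq
    have h1 : ‖t • Z (c.σ q)‖ ≤ c.r / 8 := by
      rw [norm_smul, Real.norm_eq_abs, abs_of_nonneg ht]
      exact (mul_le_mul_of_nonneg_left (c.bd q (in1 hq)) ht).trans htB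
    rw [mem_ball, dist_eq_norm] at hq ⊢
    have h2 : F q - c.p = (q - c.p) + t • Z (c.σ q) := by simp only [F]; abel
    rw [h2]
    have := norm_add_le (q - c.p) (t • Z (c.σ q))
    linarith [c.hr]
  have hhσ : ∀ q ∈ ball c.p c.r, h (c.σ q) = c.σ (F q) := fun q hq =>
    (hh _).unique D.loc (c.Ex (in1 hq) (step q hq))
  have hmeas : Measurable fun y => G (h.symm y) := hG.comp hc.measurable
  have hW : MeasurableSet (c.σ '' ball c.p (4 * c.r)) :=
    (c.sec.isOpen_image D.loc isOpen_ball Subset.rfl).measurableSet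
  -- the support
  have hsupp : ∀ y, G (h.symm y) ≠ 0 → ∃ q ∈ ball c.p c.r, y = c.σ (F q) ∧ h.symm y = c.σ q := by
    intro y hy
    obtain ⟨q, hq, he⟩ := hGs _ hy
    refine ⟨q, hq, ?_, he.symm⟩
    rw [← hhσ q hq, he, h.apply_symm_apply]
  have e1 : ∫⁻ y, G (h.symm y) ∂μ = ∫⁻ y in c.σ '' ball c.p (4 * c.r), G (h.symm y) ∂μ := by
    rw [← lintegral_indicator hW]
    refine lintegral_congr fun y => ?_
    by_cases hy : y ∈ c.σ '' ball c.p (4 * c.r)
    · rw [indicator_of_mem hy]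
    · rw [indicator_of_notMem hy]
      by_contra hne
      obtain ⟨q, hq, hyq, -⟩ := hsupp y hne
      exact hy ⟨F q, step q hq, hyq.symm⟩
  rw [e1, hμ.lintegral lam c.sec hmeas]
  -- the image of the small ball
  have hopen : IsOpen (F '' ball c.p c.r) := by
    have hset : F '' ball c.p c.r = ball c.p (4 * c.r) ∩
        (fun q => h.symm (c.σ q)) ⁻¹' (c.σ '' ball c.p c.r) := by
      ext q'
      constructor
      · rintro ⟨q, hq, rfl⟩
        refine ⟨step q hq, ?_⟩
        show h.symm (c.σ (F q)) ∈ c.σ '' ball c.p c.r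
        rw [← hhσ q hq, h.symm_apply_apply]
        exact ⟨q, hq, rfl⟩
      · rintro ⟨hq', q, hq, he⟩
        refine ⟨q, hq, ?_⟩
        have h1 : h (c.σ q) = c.σ q' := by
          beta_reduce at he
          rw [he, h.apply_symm_apply]
        rw [hhσ q hq] at h1
        exact c.sec.injOn (step q hq) hq' h1
    rw [hset]
    exact (hc.comp_continuousOn c.sec.cont).isOpen_inter_preimage isOpen_ball
      (c.sec.isOpen_image D.loc isOpen_ball in1)
  have hsubF : F '' ball c.p c.r ⊆ ball c.p (4 * c.r) := by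
    rintro _ ⟨q, hq, rfl⟩; exact step q hq
  have e2 : ∫⁻ q in ball c.p (4 * c.r), G (h.symm (c.σ q)) ∂lam =
      ∫⁻ q in F '' ball c.p c.r, G (h.symm (c.σ q)) ∂lam := by
    rw [← lintegral_indicator hopen.measurableSet, ← lintegral_indicator isOpen_ball.measurableSet]
    refine lintegral_congr fun q => ?_
    by_cases hq : q ∈ F '' ball c.p c.r
    · rw [indicator_of_mem hq, indicator_of_mem (hsubF hq)]
    · rw [indicator_of_notMem hq]
      by_cases hq4 : q ∈ ball c.p (4 * c.r)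
      · rw [indicator_of_mem hq4]
        by_contra hne
        obtain ⟨q1, hq1, hyq, -⟩ := hsupp _ hne
        exact hq ⟨q1, hq1, (c.sec.injOn hq4 (step q1 hq1) hyq).symm⟩
      · rw [indicator_of_notMem hq4]
  rw [e2]
  have h3 := loc_cov lam (Y := fun q => Z (c.σ q)) (s := ball c.p c.r) isOpen_ball c.hL ht
    (fun q hq q' hq' => c.lip q (in1 hq) q' (in1 hq')) (by linarith) hδ htδ
    (fun q => G (h.symm (c.σ q)))
  rw [h3]
  refine setLIntegral_congr_fun isOpen_ball.measurableSet fun q hq => ?_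
  beta_reduce
  have h4 : h.symm (c.σ (q + t • Z (c.σ q))) = c.σ q := by
    show h.symm (c.σ (F q)) = c.σ q
    rw [← hhσ q hq, h.symm_apply_apply]
  rw [h4]

end

section
variable {X Γ E : Type} [TopologicalSpace X] [T2Space X] [SecondCountableTopology X] [Nonempty X]
  [Group Γ] [MulAction Γ X] [NormedAddCommGroup E] [NormedSpace ℝ E] [FiniteDimensional ℝ E]
  {dev : X → E} {hol : Γ →* (E ≃ᵃ[ℝ] E)}

/-- the principle: an equivariant map homotopic to the developing map is somewhere an immersion -/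
theorem principle (D : AffData X Γ E dev hol) {Z : X → E} (hZ : VF dev hol Z)
    (hsing : ∀ (U : Set E) (σ : E → X), Sec dev U σ → ∀ q ∈ U, ∀ A : E →L[ℝ] E,
      HasFDerivAt (fun q => Z (σ q)) A q → dt A = 0) : False := by
  classical
  letI : MeasurableSpace X := borel X
  haveI : BorelSpace X := ⟨rfl⟩
  letI : MeasurableSpace E := borel E
  haveI : BorelSpace E := ⟨rfl⟩
  let lam : Measure E := Measure.addHaar
  obtain ⟨μ, hμ⟩ := exists_chartMeas lam D.loc
  obtain ⟨m, c, hc⟩ := exists_charts D hZ.ll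
  obtain ⟨ρ, hρL, hρ0, hρs, hρ1, K, hK, hρK⟩ := exists_pou D c hc
  obtain ⟨δ, hδ0, hδ⟩ := exists_null_const lam
  obtain ⟨δ', hδ'0, hδ'⟩ := exists_dt_pos (E := E)
  obtain ⟨t0, ht0, Ht⟩ := exists_flow D hZ c hc (min δ δ') (lt_min hδ0 hδ'0)
  have in1 : ∀ i, ball (c i).p (c i).r ⊆ ball (c i).p (4 * (c i).r) :=
    fun i => ball_subset_ball (by linarith [(c i).hr])
  have hρc : ∀ i, Continuous (ρ i) := fun i => (hρL i).continuous D.loc.continuous
  let G : Fin m → X → ℝ≥0∞ := fun i x => ENNReal.ofReal (ρ i x)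
  have hGm : ∀ i, Measurable (G i) := fun i => (hρc i).measurable.ennreal_ofReal
  have hGs : ∀ i x, G i x ≠ 0 → x ∈ (c i).σ '' ball (c i).p (c i).r := by
    intro i x hx
    apply hρs i x
    intro h
    apply hx
    simp only [G, h, ENNReal.ofReal_zero]
  have hfin : ∀ x, ∃ F : Finset Γ, ∀ γ : Γ, γ ∉ F → ∀ i, ρ i (γ • x) = 0 := by
    intro x
    obtain ⟨N, hN, F, hF⟩ := locfin D hK x
    refine ⟨F, fun γ hγ i => ?_⟩
    by_contra hne
    exact hγ (hF x (mem_of_mem_nhds hN) γ (hρK i _ hne))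
  have hG1 : ∀ x, ∑' γ : Γ, ∑ i, G i (γ • x) = 1 := by
    intro x
    obtain ⟨F, hF⟩ := hfin x
    have e1 : ∑' γ : Γ, ∑ i, ρ i (γ • x) = ∑ γ ∈ F, ∑ i, ρ i (γ • x) :=
      tsum_eq_sum fun γ hγ => Finset.sum_eq_zero fun i _ => hF γ hγ i
    have e2 : ∑' γ : Γ, ∑ i, G i (γ • x) = ∑ γ ∈ F, ∑ i, G i (γ • x) :=
      tsum_eq_sum fun γ hγ => Finset.sum_eq_zero fun i _ => by simp only [G, hF γ hγ i, ENNReal.ofReal_zero]
    rw [e2]
    have e3 : ∑ γ ∈ F, ∑ i, G i (γ • x) = ENNReal.ofReal (∑ γ ∈ F, ∑ i, ρ i (γ • x)) := by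
      rw [ENNReal.ofReal_sum_of_nonneg fun γ _ => Finset.sum_nonneg fun i _ => hρ0 i _]
      refine Finset.sum_congr rfl fun γ _ => ?_
      rw [ENNReal.ofReal_sum_of_nonneg fun i _ => hρ0 i _]
    rw [e3, ← e1, hρ1, ENNReal.ofReal_one]
  have hρle : ∀ i x, ρ i x ≤ 1 := by
    intro i x
    have h1 : G i x ≤ ∑' γ : Γ, ∑ i, G i (γ • x) := by
      refine le_trans ?_ (ENNReal.le_tsum (1 : Γ))
      rw [one_smul]
      exact Finset.single_le_sum (f := fun i => G i x) (fun _ _ => bot_le) (Finset.mem_univ i)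
    rw [hG1] at h1
    have h2 : ENNReal.ofReal (ρ i x) ≤ ENNReal.ofReal 1 := by rwa [ENNReal.ofReal_one]
    exact (ENNReal.ofReal_le_ofReal_iff zero_le_one).1 h2
  have hGsum : Measurable fun x => ∑ i, G i x := Finset.measurable_sum _ fun i _ => hGm i
  obtain ⟨V, hV⟩ : ∃ V : ℝ≥0∞, V = ∫⁻ x, ∑ i, G i x ∂μ := ⟨_, rfl⟩
  -- the identity for small times
  let Y : Fin m → E → E := fun i q => Z ((c i).σ q)
  have hI : ∀ t, 0 ≤ t → t ≤ t0 → ∑ i, ∫⁻ q in ball (c i).p (c i).r,
      ENNReal.ofReal |dt (t • fderiv ℝ (Y i) q)| * G i ((c i).σ q) ∂lam = V := by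
    intro t ht htt
    obtain ⟨hA, h, hh, hhc, hhe⟩ := Ht t ht htt
    have e1 : ∀ i, ∫⁻ q in ball (c i).p (c i).r,
      ENNReal.ofReal |dt (t • fderiv ℝ (Y i) q)| * G i ((c i).σ q) ∂lam =
        ∫⁻ y, G i (h.symm y) ∂μ := fun i =>
      chart_cov lam D hμ (c i) ht (hA i).1 (hA i).2.2 hδ ((hA i).2.1.trans (min_le_left _ _)) h hh
        hhc (hGm i) (hGs i)
    have hhes : ∀ (γ : Γ) y, h.symm (γ • y) = γ • h.symm y := by
      intro γ y
      apply h.injective
      rw [h.apply_symm_apply, hhe, h.apply_symm_apply]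
    have hm1 : ∀ i, Measurable fun y => G i (h.symm y) := fun i => (hGm i).comp hhc.measurable
    rw [Finset.sum_congr rfl fun i _ => e1 i, ← lintegral_finsetSum _ fun i _ => hm1 i, hV]
    refine weight_indep lam D hμ ?_ hGsum (fun y => ?_) hG1
    · exact Finset.measurable_sum _ fun i _ => hm1 i
    · have := hG1 (h.symm y)
      rw [← this]
      refine tsum_congr fun γ => ?_
      rw [hhes]
  -- finiteness and positivity
  have hVfin : V ≠ ∞ := by
    rw [← hI 0 le_rfl ht0.le]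
    refine (ENNReal.sum_lt_top.2 fun i _ => ?_).ne
    refine lt_of_le_of_lt (setLIntegral_mono (g := fun _ => (1 : ℝ≥0∞)) measurable_const fun q _ => ?_) ?_
    · rw [zero_smul, dt_zero, abs_one, ENNReal.ofReal_one, one_mul]
      have := ENNReal.ofReal_le_ofReal (hρle i ((c i).σ q))
      rwa [ENNReal.ofReal_one] at this
    · rw [setLIntegral_one]
      exact measure_ball_lt_top
  have hVpos : V ≠ 0 := by
    intro h0
    have hΓ : Countable Γ := countable_group D
    have h1 : ∫⁻ x, ∑' γ : Γ, ∑ i, G i (γ • x) ∂μ = 0 := by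
      have hm2 : ∀ γ : Γ, Measurable fun x => ∑ i, G i (γ • x) :=
        fun γ => hGsum.comp (D.cont γ).measurable
      rw [lintegral_tsum fun γ => (hm2 γ).aemeasurable]
      rw [ENNReal.tsum_eq_zero]
      intro γ
      have h2 : ∫⁻ x, ∑ i, G i (γ • x) ∂μ = ∫⁻ x, ∑ i, G i x ∂(μ.map fun x => γ • x) := by
        rw [lintegral_map hGsum (D.cont γ).measurable]
      rw [h2, hμ.map_smul lam D γ, ← hV, h0]
    have h3 : μ univ = 0 := by
      rw [← setLIntegral_one, Measure.restrict_univ, ← h1]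
      exact lintegral_congr fun x => (hG1 x).symm
    obtain ⟨x⟩ := ‹Nonempty X›
    obtain ⟨γ, i, q, hq, hx⟩ := hc x
    have h4 := hμ _ _ (c i).sec
    have h5 : (μ.restrict ((c i).σ '' ball (c i).p (4 * (c i).r))) univ = 0 := by
      rw [Measure.restrict_apply_univ]
      exact measure_mono_null (subset_univ _) h3
    rw [h4, map_sec_apply lam (c i).sec MeasurableSet.univ, preimage_univ, univ_inter] at h5
    exact (measure_ball_pos lam _ (by linarith [(c i).hr])).ne' h5
  -- real integrals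
  have hYL : ∀ i, LipschitzOnWith ⟨(c i).L, (c i).hL⟩ (Y i) (ball (c i).p (c i).r) := by
    intro i
    refine LipschitzOnWith.of_dist_le_mul fun q hq q' hq' => ?_
    rw [dist_eq_norm, dist_eq_norm]
    exact (c i).lip q (in1 i hq) q' (in1 i hq')
  have hYn : ∀ i, ∀ q ∈ ball (c i).p (c i).r, ‖fderiv ℝ (Y i) q‖ ≤ (c i).L := fun i q hq =>
    norm_fderiv_le_of_lipschitzOn ℝ (isOpen_ball.mem_nhds hq) (hYL i)
  have hρσ : ∀ i, AEMeasurable (fun q => ρ i ((c i).σ q)) (lam.restrict (ball (c i).p (c i).r)) :=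
    fun i => ((hρc i).comp_continuousOn ((c i).sec.cont.mono (in1 i))).aemeasurable
      isOpen_ball.measurableSet
  have hint : ∀ i (t : ℝ), IntegrableOn (fun q => dt (t • fderiv ℝ (Y i) q) * ρ i ((c i).σ q))
      (ball (c i).p (c i).r) lam := by
    intro i t
    have hcpt : IsCompact (closedBall (0 : E →L[ℝ] E) (|t| * (c i).L)) := isCompact_closedBall _ _
    obtain ⟨B, hB⟩ := hcpt.exists_bound_of_continuousOn (dt_cont (E := E)).continuousOn
    have hmeas : Measurable fun q => dt (t • fderiv ℝ (Y i) q) :=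
      dt_cont.measurable.comp ((measurable_fderiv ℝ (Y i)).const_smul t)
    haveI : IsFiniteMeasure (lam.restrict (ball (c i).p (c i).r)) :=
      ⟨by rw [Measure.restrict_apply_univ]; exact measure_ball_lt_top⟩
    refine Integrable.of_bound (C := B) ?_ ?_
    · exact (hmeas.aemeasurable.mul (hρσ i)).aestronglyMeasurable
    · rw [ae_restrict_iff' isOpen_ball.measurableSet]
      refine Eventually.of_forall fun q hq => ?_
      rw [norm_mul]
      have h1 : ‖dt (t • fderiv ℝ (Y i) q)‖ ≤ B := by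
        apply hB
        rw [mem_closedBall, dist_zero_right, norm_smul, Real.norm_eq_abs]
        exact mul_le_mul_of_nonneg_left (hYn i q hq) (abs_nonneg _)
      have h2 : ‖ρ i ((c i).σ q)‖ ≤ 1 := by
        rw [Real.norm_eq_abs, abs_of_nonneg (hρ0 i _)]
        exact hρle i _
      calc ‖dt (t • fderiv ℝ (Y i) q)‖ * ‖ρ i ((c i).σ q)‖ ≤ B * 1 :=
            mul_le_mul h1 h2 (norm_nonneg _) ((norm_nonneg _).trans h1)
        _ = B := mul_one B
  have hreal : ∀ t, 0 ≤ t → t ≤ t0 → ∑ i, ∫ q in ball (c i).p (c i).r,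
      dt (t • fderiv ℝ (Y i) q) * ρ i ((c i).σ q) ∂lam = V.toReal := by
    intro t ht htt
    have hA := (Ht t ht htt).1
    have hpos : ∀ i, ∀ q ∈ ball (c i).p (c i).r, 0 < dt (t • fderiv ℝ (Y i) q) := by
      intro i q hq
      apply hδ'
      rw [norm_smul, Real.norm_eq_abs, abs_of_nonneg ht]
      exact (mul_le_mul_of_nonneg_left (hYn i q hq) ht).trans ((hA i).2.1.trans (min_le_right _ _))
    have e1 : ∀ i, ENNReal.ofReal (∫ q in ball (c i).p (c i).r,
        dt (t • fderiv ℝ (Y i) q) * ρ i ((c i).σ q) ∂lam) = ∫⁻ q in ball (c i).p (c i).r,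
        ENNReal.ofReal |dt (t • fderiv ℝ (Y i) q)| * G i ((c i).σ q) ∂lam := by
      intro i
      rw [ofReal_integral_eq_lintegral_ofReal (hint i t)]
      · refine setLIntegral_congr_fun isOpen_ball.measurableSet fun q hq => ?_
        beta_reduce
        rw [ENNReal.ofReal_mul (hpos i q hq).le, abs_of_pos (hpos i q hq)]
      · rw [EventuallyLE, ae_restrict_iff' isOpen_ball.measurableSet]
        exact Eventually.of_forall fun q hq => mul_nonneg (hpos i q hq).le (hρ0 i _)
    have hnn : ∀ i, 0 ≤ ∫ q in ball (c i).p (c i).r,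
        dt (t • fderiv ℝ (Y i) q) * ρ i ((c i).σ q) ∂lam := by
      intro i
      refine setIntegral_nonneg isOpen_ball.measurableSet fun q hq => ?_
      exact mul_nonneg (hpos i q hq).le (hρ0 i _)
    have e2 : ENNReal.ofReal (∑ i, ∫ q in ball (c i).p (c i).r,
      dt (t • fderiv ℝ (Y i) q) * ρ i ((c i).σ q) ∂lam) = V := by
      rw [ENNReal.ofReal_sum_of_nonneg fun i _ => hnn i, Finset.sum_congr rfl fun i _ => e1 i]
      exact hI t ht htt
    rw [← e2, ENNReal.toReal_ofReal (Finset.sum_nonneg fun i _ => hnn i)]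
  -- interpolation
  let τ : Fin (Module.finrank ℝ E + 1) → ℝ := fun j => t0 / ((j : ℝ) + 1)
  have hτinj : Function.Injective τ := by
    intro j k hjk
    have h1 : (0 : ℝ) < (j : ℝ) + 1 := by positivity
    have h2 : (0 : ℝ) < (k : ℝ) + 1 := by positivity
    simp only [τ] at hjk
    rw [div_eq_div_iff h1.ne' h2.ne'] at hjk
    have h3 : (k : ℝ) + 1 = (j : ℝ) + 1 := mul_left_cancel₀ ht0.ne' hjk
    have h4 : (j : ℕ) = (k : ℕ) := by
      have : (k : ℝ) = (j : ℝ) := by linarith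
      exact_mod_cast this.symm
    exact Fin.ext h4
  have hτ : ∀ j, 0 ≤ τ j ∧ τ j ≤ t0 := by
    intro j
    refine ⟨by positivity, ?_⟩
    simp only [τ]
    rw [div_le_iff₀ (by positivity)]
    have : (0 : ℝ) ≤ (j : ℝ) := by positivity
    nlinarith
  obtain ⟨lm, hlm1, hlm⟩ := dt_interp τ hτinj
  have hzero : ∑ i, ∫ q in ball (c i).p (c i).r,
      dt (fderiv ℝ (Y i) q) * ρ i ((c i).σ q) ∂lam = 0 := by
    refine Finset.sum_eq_zero fun i _ => ?_
    have h1 := (hYL i).ae_differentiableWithinAt_of_mem (μ := lam)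
    have h2 : ∫ q in ball (c i).p (c i).r, dt (fderiv ℝ (Y i) q) * ρ i ((c i).σ q) ∂lam =
        ∫ q in ball (c i).p (c i).r, (0 : ℝ) ∂lam := by
      refine setIntegral_congr_ae isOpen_ball.measurableSet ?_
      filter_upwards [h1] with q hq hqb
      have h3 : DifferentiableAt ℝ (Y i) q := (hq hqb).differentiableAt (isOpen_ball.mem_nhds hqb)
      rw [hsing _ _ (c i).sec q (in1 i hqb) _ h3.hasFDerivAt, zero_mul]
    rw [h2, integral_zero]
  have hfinal : V.toReal = 0 := by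
    calc V.toReal = ∑ j, lm j * V.toReal := by rw [← Finset.sum_mul, hlm1, one_mul]
      _ = ∑ j, lm j * ∑ i, ∫ q in ball (c i).p (c i).r,
          dt (τ j • fderiv ℝ (Y i) q) * ρ i ((c i).σ q) ∂lam := by
          refine Finset.sum_congr rfl fun j _ => ?_
          rw [hreal (τ j) (hτ j).1 (hτ j).2]
      _ = ∑ i, ∫ q in ball (c i).p (c i).r, dt (fderiv ℝ (Y i) q) * ρ i ((c i).σ q) ∂lam := by
          simp only [Finset.mul_sum]
          rw [Finset.sum_comm]
          refine Finset.sum_congr rfl fun i _ => ?_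
          have e1 : ∀ q, dt (fderiv ℝ (Y i) q) * ρ i ((c i).σ q) =
              ∑ j, lm j * (dt (τ j • fderiv ℝ (Y i) q) * ρ i ((c i).σ q)) := by
            intro q
            rw [← hlm (fderiv ℝ (Y i) q), Finset.sum_mul]
            exact Finset.sum_congr rfl fun j _ => by ring
          simp only [e1]
          rw [integral_finsetSum _ fun j _ => (hint i (τ j)).const_mul (lm j)]
          refine Finset.sum_congr rfl fun j _ => ?_
          rw [integral_const_mul]
      _ = 0 := hzero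
  rw [ENNReal.toReal_eq_zero_iff] at hfinal
  rcases hfinal with h | h
  · exact hVpos h
  · exact hVfin h

end

end Pool.Agent.W689.Mk
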