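import Mathlib

set_option autoImplicit false

open Set Filter Topology

namespace Pool.Agent.W689.Mk

section sec
variable {X E : Type} [TopologicalSpace X] [T2Space X] [NormedAddCommGroup E] [NormedSpace ℝ E]
  {dev : X → E}

/-- a continuous section of `dev` over a convex open set -/
structure Sec (dev : X → E) (U : Set E) (σ : E → X) : Prop where
  isOpen : IsOpen U
  convex : Convex ℝ U
  cont : ContinuousOn σ U
  inv : ∀ p ∈ U, dev (σ p) = p

theorem Sec.mono {U V : Set E} {σ : E → X} (h : Sec dev U σ) (hV : IsOpen V) (hc : Convex ℝ V)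
    (hVU : V ⊆ U) : Sec dev V σ :=
  ⟨hV, hc, h.cont.mono hVU, fun p hp => h.inv p (hVU hp)⟩

theorem Sec.eqOn (hloc : IsLocalHomeomorph dev) {U U' : Set E} {σ σ' : E → X}
    (h : Sec dev U σ) (h' : Sec dev U' σ') {p : E} (hp : p ∈ U) (hp' : p ∈ U')
    (he : σ p = σ' p) : ∀ q, q ∈ U → q ∈ U' → σ q = σ' q := by
  intro q hq hq'
  have hpre : IsPreconnected (U ∩ U') := (h.convex.inter h'.convex).isPreconnected
  exact (T2Space.isSeparatedMap dev).eqOn_of_comp_eqOn hloc.isLocallyInjective hpre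
    (h.cont.mono inter_subset_left) (h'.cont.mono inter_subset_right)
    (fun r hr => by simp only [Function.comp_apply]; rw [h.inv r hr.1, h'.inv r hr.2])
    ⟨hp, hp'⟩ he ⟨hq, hq'⟩

theorem Sec.isOpen_image (hloc : IsLocalHomeomorph dev) {U V : Set E} {σ : E → X}
    (h : Sec dev U σ) (hV : IsOpen V) (hVU : V ⊆ U) : IsOpen (σ '' V) := by
  have h1 : IsOpenEmbedding (dev ∘ (V.domRestrict σ)) := by
    have : dev ∘ (V.domRestrict σ) = Subtype.val := by
      funext p
      exact h.inv p (hVU p.2)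
    rw [this]
    exact hV.isOpenEmbedding_subtypeVal
  have h2 : IsOpenEmbedding (V.domRestrict σ) :=
    hloc.isOpenEmbedding_of_comp h1 (continuousOn_iff_continuous_domRestrict.1 (h.cont.mono hVU))
  have h3 : σ '' V = range (V.domRestrict σ) := (Set.range_domRestrict σ V).symm
  rw [h3]
  exact h2.isOpen_range

theorem Sec.injOn {U : Set E} {σ : E → X} (h : Sec dev U σ) : InjOn σ U := by
  intro p hp q hq he
  rw [← h.inv p hp, ← h.inv q hq, he]

/-- sections exist on small balls -/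
theorem exists_sec (hloc : IsLocalHomeomorph dev) (x : X) :
    ∃ (e : OpenPartialHomeomorph X E) (r : ℝ), x ∈ e.source ∧ dev = e ∧ 0 < r ∧
      Metric.ball (dev x) r ⊆ e.target := by
  obtain ⟨e, hx, he⟩ := hloc x
  have h1 : e.target ∈ 𝓝 (dev x) := by
    rw [he]
    exact e.open_target.mem_nhds (e.map_source hx)
  obtain ⟨r, hr, hr'⟩ := Metric.mem_nhds_iff.1 h1
  exact ⟨e, r, hx, he, hr, hr'⟩

theorem sec_of_target (e : OpenPartialHomeomorph X E) (he : dev = e) (p : E) (r : ℝ)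
    (h : Metric.ball p r ⊆ e.target) : Sec dev (Metric.ball p r) e.symm :=
  ⟨Metric.isOpen_ball, convex_ball p r, e.continuousOn_symm.mono h, fun q hq => by
    rw [he]; exact e.right_inv (h hq)⟩

/-- `y` is the end point of the geodesic with initial point `x` and velocity `v` at time one -/
def Ex (dev : X → E) (x : X) (v : E) (y : X) : Prop :=
  ∃ (U : Set E) (σ : E → X), Sec dev U σ ∧ dev x ∈ U ∧ σ (dev x) = x ∧ dev x + v ∈ U ∧
    σ (dev x + v) = y

theorem Ex.unique (hloc : IsLocalHomeomorph dev) {x : X} {v : E} {y y' : X} (h : Ex dev x v y)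
    (h' : Ex dev x v y') : y = y' := by
  obtain ⟨U, σ, h1, h2, h3, h4, h5⟩ := h
  obtain ⟨U', σ', h1', h2', h3', h4', h5'⟩ := h'
  rw [← h5, ← h5']
  exact h1.eqOn hloc h1' h2 h2' (h3.trans h3'.symm) _ h4 h4'

theorem Ex.dev_eq {x : X} {v : E} {y : X} (h : Ex dev x v y) : dev y = dev x + v := by
  obtain ⟨U, σ, h1, h2, h3, h4, h5⟩ := h
  rw [← h5]
  exact h1.inv _ h4

theorem Ex.symm {x : X} {v : E} {y : X} (h : Ex dev x v y) : Ex dev y (-v) x := by
  have h0 := h.dev_eq
  obtain ⟨U, σ, h1, h2, h3, h4, h5⟩ := h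
  refine ⟨U, σ, h1, by rw [h0]; exact h4, by rw [h0]; exact h5, ?_, ?_⟩
  · rw [h0]; simpa using h2
  · rw [h0]; simpa using h3

end sec

section data
variable {X Γ E : Type} [TopologicalSpace X] [Group Γ] [MulAction Γ X] [NormedAddCommGroup E]
  [NormedSpace ℝ E]

/-- A closed affine manifold (or orbifold) `Γ \ X` with parallel volume, given by a cover `X`, the
group `Γ` acting on `X`, the developing map and the holonomy. -/
structure AffData (X Γ E : Type) [TopologicalSpace X] [Group Γ] [MulAction Γ X]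
    [NormedAddCommGroup E] [NormedSpace ℝ E] (dev : X → E) (hol : Γ →* (E ≃ᵃ[ℝ] E)) : Prop where
  /-- the developing map is a local homeomorphism -/
  loc : IsLocalHomeomorph dev
  /-- the group acts by homeomorphisms -/
  cont : ∀ γ : Γ, Continuous fun x : X => γ • x
  /-- the developing map is equivariant -/
  equi : ∀ (γ : Γ) (x : X), dev (γ • x) = hol γ (dev x)
  /-- the holonomy preserves volume -/
  unimod : ∀ γ : Γ, |LinearMap.det ((hol γ).linear : E →ₗ[ℝ] E)| = 1
  /-- the action is properly discontinuous -/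
  pd : ∀ K : Set X, IsCompact K → {γ : Γ | ∃ x ∈ K, γ • x ∈ K}.Finite
  /-- the quotient is compact -/
  cc : ∃ K : Set X, IsCompact K ∧ ∀ x : X, ∃ γ : Γ, ∃ k ∈ K, γ • k = x

variable {dev : X → E} {hol : Γ →* (E ≃ᵃ[ℝ] E)}

/-- linear holonomy -/
abbrev lin (hol : Γ →* (E ≃ᵃ[ℝ] E)) (γ : Γ) (v : E) : E := (hol γ).linear v

theorem hol_add (γ : Γ) (p v : E) : hol γ (p + v) = hol γ p + lin hol γ v := by
  have := (hol γ).map_vadd p v
  rw [vadd_eq_add, vadd_eq_add, add_comm v p] at this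
  rw [this, add_comm]

theorem hol_sub (γ : Γ) (p q : E) : hol γ p - hol γ q = lin hol γ (p - q) := by
  have := hol_add (hol := hol) γ q (p - q)
  rw [add_sub_cancel] at this
  rw [this]; abel

theorem hol_inv_apply (γ : Γ) (p : E) : hol γ⁻¹ (hol γ p) = p := by
  rw [map_inv]
  exact (hol γ).symm_apply_apply p

theorem hol_apply_inv (γ : Γ) (p : E) : hol γ (hol γ⁻¹ p) = p := by
  rw [map_inv]
  exact (hol γ).apply_symm_apply p

theorem lin_inv_apply (γ : Γ) (v : E) : lin hol γ⁻¹ (lin hol γ v) = v := by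
  have h1 : lin hol γ v = hol γ v - hol γ 0 := by rw [hol_sub, sub_zero]
  rw [h1, ← hol_sub, hol_inv_apply, hol_inv_apply, sub_zero]

theorem lin_mul (γ δ : Γ) (v : E) : lin hol (γ * δ) v = lin hol γ (lin hol δ v) := by
  have h1 : ∀ γ : Γ, ∀ v : E, lin hol γ v = hol γ v - hol γ 0 := fun γ v => by rw [hol_sub, sub_zero]
  rw [h1 (γ * δ), map_mul]
  show hol γ (hol δ v) - hol γ (hol δ 0) = _
  rw [hol_sub, hol_sub, sub_zero]

variable [T2Space X] [FiniteDimensional ℝ E]

theorem hol_cont (γ : Γ) : Continuous (hol γ) := (hol γ).toAffineMap.continuous_of_finiteDimensional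

theorem AffData.sec_smul (D : AffData X Γ E dev hol) (γ : Γ) {U : Set E} {σ : E → X}
    (h : Sec dev U σ) : Sec dev (hol γ '' U) (fun p => γ • σ (hol γ⁻¹ p)) := by
  have hpre : hol γ '' U = hol γ⁻¹ ⁻¹' U := by
    ext p
    constructor
    · rintro ⟨q, hq, rfl⟩
      show hol γ⁻¹ (hol γ q) ∈ U
      rwa [hol_inv_apply]
    · intro hp
      exact ⟨hol γ⁻¹ p, hp, hol_apply_inv γ p⟩
  refine ⟨?_, ?_, ?_, ?_⟩
  · rw [hpre]; exact h.isOpen.preimage (hol_cont _)
  · rw [hpre]; exact h.convex.affine_preimage (hol γ⁻¹).toAffineMap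
  · refine (D.cont γ).comp_continuousOn (h.cont.comp (hol_cont _).continuousOn ?_)
    rw [hpre]
    exact fun p hp => hp
  · rintro _ ⟨q, hq, rfl⟩
    rw [D.equi, hol_inv_apply, h.inv q hq]

theorem AffData.Ex_smul (D : AffData X Γ E dev hol) (γ : Γ) {x : X} {v : E} {y : X}
    (h : Ex dev x v y) : Ex dev (γ • x) (lin hol γ v) (γ • y) := by
  obtain ⟨U, σ, h1, h2, h3, h4, h5⟩ := h
  refine ⟨hol γ '' U, fun p => γ • σ (hol γ⁻¹ p), D.sec_smul γ h1, ?_, ?_, ?_, ?_⟩
  · rw [D.equi]; exact ⟨_, h2, rfl⟩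
  · rw [D.equi]; beta_reduce; rw [hol_inv_apply, h3]
  · rw [D.equi, ← hol_add]; exact ⟨_, h4, rfl⟩
  · rw [D.equi, ← hol_add]; beta_reduce; rw [hol_inv_apply, h5]

/-- locally Lipschitz functions on the cover, in affine charts -/
def LL {W : Type} [NormedAddCommGroup W] (dev : X → E) (u : X → W) : Prop :=
  ∀ x, ∃ U ∈ 𝓝 x, ∃ L : ℝ, 0 ≤ L ∧ ∀ y ∈ U, ∀ z ∈ U, ‖u y - u z‖ ≤ L * ‖dev y - dev z‖

end data

end Pool.Agent.W689.Mk
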